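import Pool.Agent.Y84.PH.D

set_option autoImplicit false
set_option linter.unusedSectionVars false

/-! Functionals which are traces on an ideal: the double of the algebra along the ideal. -/

namespace Pool.Agent.Y84.PK

open Polynomial
open Pool.Agent.Y84.PT (Bd)
open Pool.Agent.Y84.PC (FamData)

/-- Data as in `FamData`, for functionals `T`, `T₀` which need not be traces. -/
structure PreFam (F : Type*) [NormedField F] (U B : Type*) [Ring U] [Ring B] [Algebra F U]
    [Algebra F[X] B] where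
  /-- bound for the norm -/
  NU : U → ℝ → Prop
  /-- bound for the norm -/
  NB : B → ℝ → Prop
  /-- bound for the degree -/
  ND : B → ℕ → Prop
  /-- derivative -/
  D : B → B
  /-- functional -/
  T : B →+ F[X]
  /-- functional -/
  T₀ : U →+ F
  /-- evaluation -/
  ev : F → B →+* U
  /-- constants -/
  cc : U →+* B
  nb_mono : ∀ {b : B} {P P' : ℝ}, NB b P → P ≤ P' → NB b P'
  nb_zero : ∀ {P : ℝ}, 0 ≤ P → NB 0 P
  nb_one : NB 1 1
  nb_add : ∀ {b b' : B} {P : ℝ}, NB b P → NB b' P → NB (b + b') P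
  nb_sub : ∀ {b b' : B} {P : ℝ}, NB b P → NB b' P → NB (b - b') P
  nb_mul : ∀ {b b' : B} {P P' : ℝ}, NB b P → NB b' P' → 0 ≤ P → 0 ≤ P' → NB (b * b') (P * P')
  nb_smul : ∀ {f : F[X]} {b : B} {P P' : ℝ}, Bd f P → NB b P' → NB (f • b) (P * P')
  nb_D : ∀ {b : B} {P : ℝ}, NB b P → NB (D b) P
  nb_T : ∀ {b : B} {P : ℝ}, NB b P → 0 ≤ P → Bd (T b) P
  nb_cc : ∀ {u : U} {P : ℝ}, NU u P → NB (cc u) P
  nd_mono : ∀ {b : B} {d d' : ℕ}, ND b d → d ≤ d' → ND b d'
  nd_zero : ND 0 0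
  nd_one : ND 1 0
  nd_add : ∀ {b b' : B} {d : ℕ}, ND b d → ND b' d → ND (b + b') d
  nd_sub : ∀ {b b' : B} {d : ℕ}, ND b d → ND b' d → ND (b - b') d
  nd_mul : ∀ {b b' : B} {d d' : ℕ}, ND b d → ND b' d' → ND (b * b') (d + d')
  nd_smul : ∀ {f : F[X]} {b : B} {d d' : ℕ}, f.natDegree ≤ d → ND b d' → ND (f • b) (d + d')
  nd_cc : ∀ u : U, ND (cc u) 0
  nd_T : ∀ {b : B} {d : ℕ}, ND b d → (T b).natDegree ≤ d
  D_add : ∀ b b' : B, D (b + b') = D b + D b'
  D_sub : ∀ b b' : B, D (b - b') = D b - D b'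
  D_zero : D 0 = 0
  D_mul : ∀ b b' : B, D (b * b') = D b * b' + b * D b'
  T_D : ∀ b : B, T (D b) = Polynomial.derivative (T b)
  ev_T : ∀ (w : F) (b : B), T₀ (ev w b) = (T b).eval w
  ev_cc : ∀ (w : F) (u : U), ev w (cc u) = u
  ev_smul : ∀ (w : F) (f : F[X]) (b : B), ev w (f • b) = f.eval w • ev w b
  T₀_smul : ∀ (r : F) (u : U), T₀ (r • u) = r * T₀ u

section Gen

variable {U M : Type*} [Ring U] [AddCommGroup M] (T : U →+ M)

/-- the largest ideal on which the functional is a trace -/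
def tri : AddSubgroup U where
  carrier := {x | ∀ a b c : U, T (a * x * b * c) = T (c * a * x * b)}
  zero_mem' := fun a b c => by simp
  add_mem' := fun {x y} hx hy a b c => by
    have e1 : a * (x + y) * b * c = a * x * b * c + a * y * b * c := by noncomm_ring
    have e2 : c * a * (x + y) * b = c * a * x * b + c * a * y * b := by noncomm_ring
    rw [e1, e2, map_add, map_add, hx, hy]
  neg_mem' := fun {x} hx a b c => by
    have e1 : a * (-x) * b * c = -(a * x * b * c) := by noncomm_ring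
    have e2 : c * a * (-x) * b = -(c * a * x * b) := by noncomm_ring
    rw [e1, e2, map_neg, map_neg, hx]

theorem mem_tri {x : U} : x ∈ tri T ↔ ∀ a b c : U, T (a * x * b * c) = T (c * a * x * b) := Iff.rfl

variable {T}

theorem tri_comm {x : U} (hx : x ∈ tri T) (c : U) : T (x * c) = T (c * x) := by
  have h := hx 1 1 c
  simpa using h

theorem tri_left {x : U} (hx : x ∈ tri T) (z : U) : z * x ∈ tri T := by
  intro a b c
  have h := hx (a * z) b c
  simpa only [mul_assoc] using h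

theorem tri_right {x : U} (hx : x ∈ tri T) (z : U) : x * z ∈ tri T := by
  intro a b c
  have h := hx a (z * b) c
  simpa only [mul_assoc] using h

variable (T)

/-- the double along the ideal -/
def dbl (k : Type*) [CommRing k] [Algebra k U] : Subalgebra k (U × U) where
  carrier := {z | z.1 - z.2 ∈ tri T}
  mul_mem' := fun {z w} hz hw => by
    have hz' : z.1 - z.2 ∈ tri T := hz
    have hw' : w.1 - w.2 ∈ tri T := hw
    have e : (z * w).1 - (z * w).2 = (z.1 - z.2) * w.1 + z.2 * (w.1 - w.2) := by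
      rw [Prod.fst_mul, Prod.snd_mul]; noncomm_ring
    change (z * w).1 - (z * w).2 ∈ tri T
    rw [e]
    exact (tri T).add_mem (tri_right hz' _) (tri_left hw' _)
  add_mem' := fun {z w} hz hw => by
    have hz' : z.1 - z.2 ∈ tri T := hz
    have hw' : w.1 - w.2 ∈ tri T := hw
    have e : (z + w).1 - (z + w).2 = (z.1 - z.2) + (w.1 - w.2) := by
      rw [Prod.fst_add, Prod.snd_add]; abel
    change (z + w).1 - (z + w).2 ∈ tri T
    rw [e]
    exact (tri T).add_mem hz' hw'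
  algebraMap_mem' := fun r => by
    have e : ((algebraMap k (U × U)) r).1 - ((algebraMap k (U × U)) r).2 = 0 := sub_self _
    change ((algebraMap k (U × U)) r).1 - ((algebraMap k (U × U)) r).2 ∈ tri T
    rw [e]
    exact (tri T).zero_mem

/-- the trace on the double -/
def dT (k : Type*) [CommRing k] [Algebra k U] : dbl T k →+ M where
  toFun z := T z.1.1 - T z.1.2
  map_zero' := by simp
  map_add' z w := by
    change T (z.1.1 + w.1.1) - T (z.1.2 + w.1.2) = _
    rw [map_add, map_add]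
    abel

theorem dT_comm (k : Type*) [CommRing k] [Algebra k U] (z w : dbl T k) :
    dT T k (z * w) = dT T k (w * z) := by
  have hz : z.1.1 - z.1.2 ∈ tri T := z.2
  have hw : w.1.1 - w.1.2 ∈ tri T := w.2
  change T (z.1.1 * w.1.1) - T (z.1.2 * w.1.2) = T (w.1.1 * z.1.1) - T (w.1.2 * z.1.2)
  rw [← map_sub, ← map_sub]
  have e1 : z.1.1 * w.1.1 - z.1.2 * w.1.2 =
      (z.1.1 - z.1.2) * w.1.1 + z.1.2 * (w.1.1 - w.1.2) := by noncomm_ring
  have e2 : w.1.1 * z.1.1 - w.1.2 * z.1.2 =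
      w.1.1 * (z.1.1 - z.1.2) + (w.1.1 - w.1.2) * z.1.2 := by noncomm_ring
  rw [e1, e2, map_add, map_add, tri_comm hz, tri_comm hw]

end Gen

section Quot

variable {F : Type*} [NormedField F] [IsUltrametricDist F] [Infinite F] {U B : Type*} [Ring U]
  [Ring B] [Algebra F U] [Algebra F[X] B] (S : PreFam F U B)

theorem tri_D {x : B} (h : x ∈ tri S.T) : S.D x ∈ tri S.T := by
  intro a b c
  have h1 : a * S.D x * b * c = S.D (a * x * b * c) - S.D a * x * b * c - a * x * S.D b * c -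
      a * x * b * S.D c := by
    rw [S.D_mul, S.D_mul, S.D_mul]; noncomm_ring
  have h2 : c * a * S.D x * b = S.D (c * a * x * b) - c * S.D a * x * b - c * a * x * S.D b -
      S.D c * a * x * b := by
    rw [S.D_mul, S.D_mul, S.D_mul]; noncomm_ring
  rw [h1, h2, map_sub, map_sub, map_sub, map_sub, map_sub, map_sub, S.T_D, S.T_D, h a b c,
    h (S.D a) b c, h a (S.D b) c, h a b (S.D c)]

theorem tri_ev (w : F) {x : B} (h : x ∈ tri S.T) : S.ev w x ∈ tri S.T₀ := by
  intro a b c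
  have h1 : a * S.ev w x * b * c = S.ev w (S.cc a * x * S.cc b * S.cc c) := by
    simp only [map_mul, S.ev_cc]
  have h2 : c * a * S.ev w x * b = S.ev w (S.cc c * S.cc a * x * S.cc b) := by
    simp only [map_mul, S.ev_cc]
  rw [h1, h2, S.ev_T, S.ev_T, h]

theorem tri_cc {x : U} (h : x ∈ tri S.T₀) : S.cc x ∈ tri S.T := by
  intro a b c
  apply Polynomial.funext
  intro w
  rw [← S.ev_T, ← S.ev_T]
  simp only [map_mul, S.ev_cc]
  exact h _ _ _

/-- the data for the double -/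
noncomputable def dfam : FamData F (dbl S.T₀ F) (dbl S.T F[X]) where
  NU u P := S.NU u.1.1 P ∧ S.NU u.1.2 P
  NB b P := S.NB b.1.1 P ∧ S.NB b.1.2 P
  ND b d := S.ND b.1.1 d ∧ S.ND b.1.2 d
  D b := ⟨(S.D b.1.1, S.D b.1.2), by
    change S.D b.1.1 - S.D b.1.2 ∈ tri S.T
    rw [← S.D_sub]
    exact tri_D S b.2⟩
  T := dT S.T F[X]
  T₀ := dT S.T₀ F
  ev w :=
    { toFun := fun b => ⟨(S.ev w b.1.1, S.ev w b.1.2), by
        change S.ev w b.1.1 - S.ev w b.1.2 ∈ tri S.T₀
        rw [← map_sub]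
        exact tri_ev S w b.2⟩
      map_one' := Subtype.ext (Prod.ext (map_one _) (map_one _))
      map_mul' := fun a b => Subtype.ext (Prod.ext (map_mul _ _ _) (map_mul _ _ _))
      map_zero' := Subtype.ext (Prod.ext (map_zero _) (map_zero _))
      map_add' := fun a b => Subtype.ext (Prod.ext (map_add _ _ _) (map_add _ _ _)) }
  cc :=
    { toFun := fun b => ⟨(S.cc b.1.1, S.cc b.1.2), by
        change S.cc b.1.1 - S.cc b.1.2 ∈ tri S.T
        rw [← map_sub]
        exact tri_cc S b.2⟩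
      map_one' := Subtype.ext (Prod.ext (map_one _) (map_one _))
      map_mul' := fun a b => Subtype.ext (Prod.ext (map_mul _ _ _) (map_mul _ _ _))
      map_zero' := Subtype.ext (Prod.ext (map_zero _) (map_zero _))
      map_add' := fun a b => Subtype.ext (Prod.ext (map_add _ _ _) (map_add _ _ _)) }
  nb_mono := fun h hP => ⟨S.nb_mono h.1 hP, S.nb_mono h.2 hP⟩
  nb_zero := fun hP => ⟨S.nb_zero hP, S.nb_zero hP⟩
  nb_one := ⟨S.nb_one, S.nb_one⟩
  nb_add := fun h h' => ⟨S.nb_add h.1 h'.1, S.nb_add h.2 h'.2⟩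
  nb_sub := fun h h' => ⟨S.nb_sub h.1 h'.1, S.nb_sub h.2 h'.2⟩
  nb_mul := fun h h' hP hP' => ⟨S.nb_mul h.1 h'.1 hP hP', S.nb_mul h.2 h'.2 hP hP'⟩
  nb_smul := fun hf h => ⟨S.nb_smul hf h.1, S.nb_smul hf h.2⟩
  nb_D := fun h => ⟨S.nb_D h.1, S.nb_D h.2⟩
  nb_T := fun h hP => (S.nb_T h.1 hP).sub (S.nb_T h.2 hP)
  nb_cc := fun h => ⟨S.nb_cc h.1, S.nb_cc h.2⟩
  nd_mono := fun h hP => ⟨S.nd_mono h.1 hP, S.nd_mono h.2 hP⟩
  nd_zero := ⟨S.nd_zero, S.nd_zero⟩
  nd_one := ⟨S.nd_one, S.nd_one⟩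
  nd_add := fun h h' => ⟨S.nd_add h.1 h'.1, S.nd_add h.2 h'.2⟩
  nd_sub := fun h h' => ⟨S.nd_sub h.1 h'.1, S.nd_sub h.2 h'.2⟩
  nd_mul := fun h h' => ⟨S.nd_mul h.1 h'.1, S.nd_mul h.2 h'.2⟩
  nd_smul := fun hf h => ⟨S.nd_smul hf h.1, S.nd_smul hf h.2⟩
  nd_cc := fun u => ⟨S.nd_cc _, S.nd_cc _⟩
  nd_T := fun h => (natDegree_sub_le _ _).trans (max_le (S.nd_T h.1) (S.nd_T h.2))
  D_add := fun a b => Subtype.ext (Prod.ext (S.D_add _ _) (S.D_add _ _))
  D_sub := fun a b => Subtype.ext (Prod.ext (S.D_sub _ _) (S.D_sub _ _))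
  D_zero := Subtype.ext (Prod.ext S.D_zero S.D_zero)
  D_mul := fun a b => Subtype.ext (Prod.ext (S.D_mul _ _) (S.D_mul _ _))
  T_comm := dT_comm S.T F[X]
  T_D := fun b => by
    change S.T (S.D b.1.1) - S.T (S.D b.1.2) = Polynomial.derivative (S.T b.1.1 - S.T b.1.2)
    rw [S.T_D, S.T_D, Polynomial.derivative_sub]
  ev_T := fun w b => by
    change S.T₀ (S.ev w b.1.1) - S.T₀ (S.ev w b.1.2) = (S.T b.1.1 - S.T b.1.2).eval w
    rw [S.ev_T, S.ev_T, eval_sub]
  ev_cc := fun w u => Subtype.ext (Prod.ext (S.ev_cc _ _) (S.ev_cc _ _))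
  ev_smul := fun w f b => Subtype.ext (Prod.ext (S.ev_smul _ _ _) (S.ev_smul _ _ _))
  T₀_smul := fun r u => by
    change S.T₀ (r • u.1.1) - S.T₀ (r • u.1.2) = r * (S.T₀ u.1.1 - S.T₀ u.1.2)
    rw [S.T₀_smul, S.T₀_smul, mul_sub]

end Quot

section Skew

open Pool.Agent.Y84.PH

variable {F : Type*} [NormedField F] [IsUltrametricDist F] {W G : Type*} [Monoid W] [Group G]
  {η : W →* G}

/-- the data for the skew monoid ring -/
noncomputable def pfam {Φ : W → F} (hΦ1 : ∀ w, ‖Φ w‖ ≤ 1) :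
    PreFam F (Sk η F) (Sk η F[X]) where
  NU x P := ∀ h p, ‖x.coeff h p‖ ≤ P
  NB := UBd
  ND := UDg
  D := dU
  T := TW (fun w => C (Φ w))
  T₀ := TW Φ
  ev w := mapUR (evalRingHom w)
  cc := mapUR C
  nb_mono := ubd_mono
  nb_zero := ubd_zero
  nb_one := ubd_one
  nb_add := ubd_add
  nb_sub := ubd_sub
  nb_mul := ubd_mul
  nb_smul := ubd_smul
  nb_D := ubd_dU
  nb_T := ubd_T hΦ1
  nb_cc := fun h g p => Pool.Agent.Y84.PT.bd_C (h g p)
  nd_mono := fun h hd g p => (h g p).trans hd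
  nd_zero := fun _ _ => (natDegree_zero (R := F)).le
  nd_one := udg_one
  nd_add := fun h h' g p => by
    rw [sk_add]
    exact (natDegree_add_le _ _).trans (max_le (h g p) (h' g p))
  nd_sub := fun h h' g p => by
    rw [sk_sub]
    exact (natDegree_sub_le _ _).trans (max_le (h g p) (h' g p))
  nd_mul := udg_mul
  nd_smul := fun hf hx g p => natDegree_mul_le.trans (Nat.add_le_add hf (hx g p))
  nd_cc := fun _ _ _ => (natDegree_C _).le
  nd_T := udg_T
  D_add := map_add _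
  D_sub := map_sub _
  D_zero := map_zero _
  D_mul := dU_mul
  T_D := TW_dU Φ
  ev_T := TW_ev Φ
  ev_cc := fun w u => sk_ext (fun a p => eval_C)
  ev_smul := fun w f b => sk_ext (fun a p => eval_mul)
  T₀_smul := TW_smul Φ

end Skew

end Pool.Agent.Y84.PK
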