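import Pool.Agent.Y84.PK.A

set_option autoImplicit false
set_option linter.unusedSectionVars false

/-! Pairs of idempotent matrices over the monoid ring which agree modulo an ideal on which the
functional is a trace: vanishing at a conjugacy class whose centraliser has a finite quotient in
which the element has large order. -/

namespace Pool.Agent.Y84.PK

open Matrix
open Pool.Agent.Y84.PH
open Pool.Agent.Y84.PC (Coc exists_coc conj_sum_zero FamData)
open Pool.Agent.Y84.PG (cls cls_inv CI)
open Pool.Agent.H23R2.Ch (ex ex_single ex_eq_sum)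

section Comp

variable {R : Type*} [CommRing R] {W G : Type*} [Monoid W] [Group G] {Q : Type*} [Group Q]
  {η : W →* G}

/-- components of elements of the ideal -/
theorem comp_tri [DecidableEq G] (ρ : G → G → Q) (q : Q) {Φ : W → R} {z : MonoidAlgebra R W}
    (hz : ∀ (u v s : W) (t : G), ∑ w ∈ z.coeff.support with η w = t,
      z.coeff w * (Φ (u * w * v * s) - Φ (s * u * w * v)) = 0) :
    comp η ρ q z ∈ tri (TW Φ : Sk η R →+ R) := by
  have _ : DecidableEq Q := Classical.decEq Q
  intro a b c
  induction a using SkewMonoidAlgebra.induction_on' with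
  | add a₁ a₂ h₁ h₂ =>
    rw [add_mul, add_mul, add_mul, map_add, h₁, h₂, mul_add, add_mul, add_mul, map_add]
  | single u α =>
    induction b using SkewMonoidAlgebra.induction_on' with
    | add b₁ b₂ h₁ h₂ => rw [mul_add, add_mul, map_add, h₁, h₂, mul_add, map_add]
    | single v β =>
      induction c using SkewMonoidAlgebra.induction_on' with
      | add c₁ c₂ h₁ h₂ => rw [mul_add, map_add, h₁, h₂, add_mul, add_mul, add_mul, map_add]
      | single s γ =>
        let lam : G → R := fun t => α (η u * t * η v * η s) *
          (if ρ t (t * η v * η s * η u) = q then 1 else 0) * β (η v * η s * η u * t) *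
            γ (η s * η u * t * η v)
        have h1 : ∀ x : MonoidAlgebra R W, TW Φ (SkewMonoidAlgebra.single u α * comp η ρ q x *
            SkewMonoidAlgebra.single v β * SkewMonoidAlgebra.single s γ) =
            ex (k := R) (fun w => Φ (u * w * v * s) * lam (η w)) x := by
          intro x
          induction x using MonoidAlgebra.induction_linear with
          | zero => simp
          | add x₁ x₂ h₁ h₂ =>
            rw [map_add, mul_add, add_mul, add_mul, map_add, map_add, h₁, h₂]
          | single w r =>
            rw [comp_single, SkewMonoidAlgebra.single_mul_single,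
              SkewMonoidAlgebra.single_mul_single, SkewMonoidAlgebra.single_mul_single, TW_single,
              ex_single, smul_eq_mul]
            have h2 : (α * u • cf η ρ q w r * (u * w) • β * (u * w * v) • γ) (η (u * w * v * s)) =
                α (η (u * w * v * s)) * cf η ρ q w r ((η u)⁻¹ * η (u * w * v * s) * η u) *
                  β ((η (u * w))⁻¹ * η (u * w * v * s) * η (u * w)) *
                  γ ((η (u * w * v))⁻¹ * η (u * w * v * s) * η (u * w * v)) := rfl
            rw [h2]
            simp only [map_mul]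
            rw [show (η u)⁻¹ * (η u * η w * η v * η s) * η u = η w * η v * η s * η u by group,
              show (η u * η w)⁻¹ * (η u * η w * η v * η s) * (η u * η w) =
                η v * η s * η u * η w by group,
              show (η u * η w * η v)⁻¹ * (η u * η w * η v * η s) * (η u * η w * η v) =
                η s * η u * η w * η v by group,
              cf_apply]
            simp only [lam]
            by_cases hq : ρ (η w) (η w * η v * η s * η u) = q
            · rw [if_pos hq, if_pos hq]
              ring
            · rw [if_neg hq, if_neg hq]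
              ring
        have h2 : ∀ x : MonoidAlgebra R W, TW Φ (SkewMonoidAlgebra.single s γ *
            SkewMonoidAlgebra.single u α * comp η ρ q x * SkewMonoidAlgebra.single v β) =
            ex (k := R) (fun w => Φ (s * u * w * v) * lam (η w)) x := by
          intro x
          induction x using MonoidAlgebra.induction_linear with
          | zero => simp
          | add x₁ x₂ h₁ h₂ => rw [map_add, mul_add, add_mul, map_add, map_add, h₁, h₂]
          | single w r =>
            rw [comp_single, SkewMonoidAlgebra.single_mul_single,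
              SkewMonoidAlgebra.single_mul_single, SkewMonoidAlgebra.single_mul_single, TW_single,
              ex_single, smul_eq_mul]
            have h2 : (γ * s • α * (s * u) • cf η ρ q w r * (s * u * w) • β)
                (η (s * u * w * v)) =
                γ (η (s * u * w * v)) * α ((η s)⁻¹ * η (s * u * w * v) * η s) *
                  cf η ρ q w r ((η (s * u))⁻¹ * η (s * u * w * v) * η (s * u)) *
                  β ((η (s * u * w))⁻¹ * η (s * u * w * v) * η (s * u * w)) := rfl
            rw [h2]
            simp only [map_mul]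
            rw [show (η s)⁻¹ * (η s * η u * η w * η v) * η s = η u * η w * η v * η s by group,
              show (η s * η u)⁻¹ * (η s * η u * η w * η v) * (η s * η u) =
                η w * η v * η s * η u by group,
              show (η s * η u * η w)⁻¹ * (η s * η u * η w * η v) * (η s * η u * η w) =
                η v * η s * η u * η w by group,
              cf_apply]
            simp only [lam]
            by_cases hq : ρ (η w) (η w * η v * η s * η u) = q
            · rw [if_pos hq, if_pos hq]
              ring
            · rw [if_neg hq, if_neg hq]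
              ring
        rw [h1, h2, ← sub_eq_zero, ex_eq_sum, ex_eq_sum, ← Finset.sum_sub_distrib]
        simp only [smul_eq_mul]
        rw [← Finset.sum_fiberwise_of_maps_to (t := z.coeff.support.image η) (g := η)
          (fun w hw => Finset.mem_image_of_mem _ hw)]
        apply Finset.sum_eq_zero
        intro t _
        have h3 : ∀ w ∈ z.coeff.support.filter (fun w => η w = t),
            z.coeff w * (Φ (u * w * v * s) * lam (η w)) -
              z.coeff w * (Φ (s * u * w * v) * lam (η w)) =
            (z.coeff w * (Φ (u * w * v * s) - Φ (s * u * w * v))) * lam t := by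
          intro w hw
          rw [(Finset.mem_filter.1 hw).2]
          ring
        rw [Finset.sum_congr rfl h3, ← Finset.sum_mul, hz, zero_mul]

end Comp

section Main

variable {F : Type*} [NormedField F] [IsUltrametricDist F] [Infinite F] {W G : Type*} [Monoid W]
  [Group G] {η : W →* G} {κ : Type*} [Fintype κ] [DecidableEq κ]

theorem pair_cls_zero (hnat : ∀ n : ℕ, n ≠ 0 → (1 : ℝ) / n ≤ ‖(n : F)‖)
    (hroot : ∀ n : ℕ, n ≠ 0 → ∃ ξ : F, IsPrimitiveRoot ξ n)
    {p : ℕ} (hp : p.Prime) (hp1 : ‖(p : F)‖ < 1)
    {Φ : W → F} (hΦ1 : ∀ w, ‖Φ w‖ ≤ 1) (g : G)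
    (hΦg : ∀ w, Φ w ≠ 0 → η w ∈ cls g)
    {E E' : Matrix κ κ (MonoidAlgebra F W)} (hE : E * E = E) (hE' : E' * E' = E') [DecidableEq G]
    (hEE : ∀ i j, ∀ (u v s : W) (t : G), ∑ w ∈ ((E - E') i j).coeff.support with η w = t,
      ((E - E') i j).coeff w * (Φ (u * w * v * s) - Φ (s * u * w * v)) = 0) {P : ℝ} (hP : 1 ≤ P)
    (hEP : ∀ i j g, ‖(E i j).coeff g‖ ≤ P) (hEP' : ∀ i j g, ‖(E' i j).coeff g‖ ≤ P)
    {k : ℕ} (hk : P * P * ‖(p : F)‖ ^ k ≤ 1)
    {Q : Type*} [Group Q] [Finite Q] (π : Subgroup.centralizer ({g} : Set G) →* Q) {c : Q}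
    (hc : c = π ⟨g, Subgroup.mem_centralizer_singleton_iff.2 rfl⟩) (hkn : p ^ k ∣ orderOf c)
    (hpn : p ∣ orderOf c) : ∑ i, (ex (k := F) Φ (E i i) - ex (k := F) Φ (E' i i)) = 0 := by
  classical
  let _ : Fintype Q := Fintype.ofFinite Q
  obtain ⟨ρ, hρ, hρc⟩ := exists_coc g π
  rw [← hc] at hρc
  let S0 : PreFam F (Sk η F) (Sk η (Polynomial F)) := pfam hΦ1
  let S : FamData F (dbl S0.T₀ F) (dbl S0.T (Polynomial F)) := dfam S0
  let e : κ → κ → Q → dbl S0.T₀ F := fun i j q =>
    ⟨(comp η ρ q (E i j), comp η ρ q (E' i j)), by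
      change comp η ρ q (E i j) - comp η ρ q (E' i j) ∈ tri (TW Φ : Sk η F →+ F)
      rw [← map_sub, ← Matrix.sub_apply]
      exact comp_tri ρ q (hEE i j)⟩
  let pr1 : dbl S0.T₀ F →+* Sk η F := (RingHom.fst (Sk η F) (Sk η F)).comp
    ((dbl S0.T₀ F).val : dbl S0.T₀ F →+* Sk η F × Sk η F)
  let pr2 : dbl S0.T₀ F →+* Sk η F := (RingHom.snd (Sk η F) (Sk η F)).comp
    ((dbl S0.T₀ F).val : dbl S0.T₀ F →+* Sk η F × Sk η F)
  have hmul : ∀ (X : Matrix κ κ (MonoidAlgebra F W)), X * X = X → ∀ i k q,
      ∑ j, ∑ h : Q, comp η ρ h (X i j) * comp η ρ (h⁻¹ * q) (X j k) = comp η ρ q (X i k) := by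
    intro X hX i k q
    conv_rhs => rw [← hX]
    rw [Matrix.mul_apply, map_sum]
    exact Finset.sum_congr rfl (fun j _ => (comp_mul hρ q _ _).symm)
  have hci : CI e := by
    intro i k q
    apply Subtype.ext
    apply Prod.ext
    · change pr1 (∑ j, ∑ h, e i j h * e j k (h⁻¹ * q)) = comp η ρ q (E i k)
      simp only [map_sum, map_mul]
      exact hmul E hE i k q
    · change pr2 (∑ j, ∑ h, e i j h * e j k (h⁻¹ * q)) = comp η ρ q (E' i k)
      simp only [map_sum, map_mul]
      exact hmul E' hE' i k q
  have hbd : ∀ (X : Matrix κ κ (MonoidAlgebra F W)), (∀ i j g, ‖(X i j).coeff g‖ ≤ P) →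
      ∀ i j q h x, ‖(comp η ρ q (X i j)).coeff h x‖ ≤ P := by
    intro X hX i j q h x
    rw [comp_coeff]
    split_ifs
    · exact hX i j h
    · rw [norm_zero]; exact zero_le_one.trans hP
  have h1 := conj_sum_zero S hnat hroot hp hp1 hci hP
    (fun i j q => ⟨hbd E hEP i j q, hbd E' hEP' i j q⟩) hk c hkn hpn
  have h2 : ∀ x : Q, ∀ i : κ, S.T₀ (e i i (x * c * x⁻¹)) =
      if x * c * x⁻¹ = c then (ex (k := F) Φ (E i i) - ex (k := F) Φ (E' i i)) else 0 := by
    intro x i
    change TW Φ (comp η ρ (x * c * x⁻¹) (E i i)) - TW Φ (comp η ρ (x * c * x⁻¹) (E' i i)) = _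
    rw [TW_comp hρc hΦg, TW_comp hρc hΦg]
    by_cases h : x * c * x⁻¹ = c
    · rw [if_pos h, if_pos h.symm, if_pos h.symm]
    · rw [if_neg h, if_neg (fun h' => h h'.symm), if_neg (fun h' => h h'.symm), sub_zero]
  simp only [h2] at h1
  rw [Finset.sum_comm] at h1
  have h3 : ∀ i : κ, (∑ x : Q, if x * c * x⁻¹ = c then
      (ex (k := F) Φ (E i i) - ex (k := F) Φ (E' i i)) else 0) =
      ((Finset.univ.filter (fun z : Q => z * c * z⁻¹ = c)).card : F) *
        (ex (k := F) Φ (E i i) - ex (k := F) Φ (E' i i)) := by
    intro i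
    rw [← Finset.sum_filter, Finset.sum_const, nsmul_eq_mul]
  simp only [h3] at h1
  rw [← Finset.mul_sum] at h1
  rcases mul_eq_zero.1 h1 with h | h
  · exfalso
    set N := (Finset.univ.filter (fun z : Q => z * c * z⁻¹ = c)).card with hN
    have hN0 : N ≠ 0 := by
      rw [hN]
      apply Finset.card_ne_zero_of_mem (a := 1)
      rw [Finset.mem_filter]
      exact ⟨Finset.mem_univ _, by simp⟩
    have h2 := hnat N hN0
    rw [h, norm_zero] at h2
    have h3 : (0 : ℝ) < 1 / N := by positivity
    linarith
  · exact h

end Main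

end Pool.Agent.Y84.PK
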