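import Pool.Agent.Y84.PK.D
import Pool.Agent.Y84.PH.F

set_option autoImplicit false
set_option linter.unusedSectionVars false

/-! Functionals on the words which are traces on a power of the kernel ideal, and pairs of matrices
which are inverse to each other modulo this power. -/

namespace Pool.Agent.Y84.PK

open Matrix
open Pool.Agent.Y84.PH
open Pool.Agent.H23R2.Ch (ex ex_single ex_eq_sum ex_one_single tf tf_apply cut cut_comm ex_cut_kill
  Idl Dif mul_mem_Idl_pow pr sec msupp)
open Pool.Agent.W647.K1 (cl cl_iff cl_comm mp mp_coeff mp_inj tf_mp cut_ring kill_push kill_pull)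
open Pool.Agent.Y84.PG (cls)

section Alg

variable {k : Type*} [CommRing k] {F : Type*} [Monoid F] {G : Type*} [Group G]

/-- `τ` is a trace on the power `n + 1` of the kernel ideal. -/
def TrJ (k : Type*) [CommRing k] {F : Type*} [Monoid F] {G : Type*} [Group G] (η : F →* G) (n : ℕ)
    (τ : F → k) : Prop :=
  ∀ y : F, ∀ x ∈ (Idl k η) ^ (n + 1), ex (k := k) (fun w => τ (y * w) - τ (w * y)) x = 0

theorem ex_single_mul' (Ψ : F → k) (a : F) (z : MonoidAlgebra k F) :
    ex (k := k) Ψ (MonoidAlgebra.single a 1 * z) = ex (k := k) (fun w => Ψ (a * w)) z :=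
  ex_single_mul Ψ a z

theorem ex_mul_single (Ψ : F → k) (a : F) (z : MonoidAlgebra k F) :
    ex (k := k) Ψ (z * MonoidAlgebra.single a 1) = ex (k := k) (fun w => Ψ (w * a)) z := by
  induction z using MonoidAlgebra.induction_linear with
  | zero => simp
  | add x y hx hy => rw [add_mul, map_add, map_add, hx, hy]
  | single w r =>
    rw [MonoidAlgebra.single_mul_single, ex_single, ex_single, mul_one]

theorem ex_sub_fun (Ψ Ψ' : F → k) (z : MonoidAlgebra k F) :
    ex (k := k) (fun w => Ψ w - Ψ' w) z = ex (k := k) Ψ z - ex (k := k) Ψ' z := by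
  rw [ex_eq_sum, ex_eq_sum, ex_eq_sum, ← Finset.sum_sub_distrib]
  exact Finset.sum_congr rfl (fun w _ => by rw [smul_sub])

theorem Idl_mul_mem (η : F →* G) (x : MonoidAlgebra k F) {y : MonoidAlgebra k F}
    (hy : y ∈ Idl k η) : y * x ∈ Idl k η := by
  unfold Idl at hy
  induction hy using Submodule.span_induction with
  | zero => rw [zero_mul]; exact Submodule.zero_mem _
  | add y z _ _ h h' => rw [add_mul]; exact Submodule.add_mem _ h h'
  | smul a y _ h => rw [smul_mul_assoc]; exact Submodule.smul_mem _ _ h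
  | mem y hy =>
    obtain ⟨a, b, hab, rfl⟩ := hy
    induction x using MonoidAlgebra.induction_linear with
    | zero => rw [mul_zero]; exact Submodule.zero_mem _
    | add y z h h' => rw [mul_add]; exact Submodule.add_mem _ h h'
    | single f r =>
      rw [sub_mul, MonoidAlgebra.single_mul_single, MonoidAlgebra.single_mul_single, one_mul,
        Pool.Agent.H23R2.Ch.single_eq_smul (a * f), Pool.Agent.H23R2.Ch.single_eq_smul (b * f),
        ← smul_sub]
      exact Submodule.smul_mem _ _ (Submodule.subset_span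
        ⟨a * f, b * f, by rw [map_mul, map_mul, hab], rfl⟩)

theorem Idl_pow_mul_mem (η : F →* G) (n : ℕ) (x : MonoidAlgebra k F) {y : MonoidAlgebra k F}
    (hy : y ∈ (Idl k η) ^ (n + 1)) : y * x ∈ (Idl k η) ^ (n + 1) := by
  rw [pow_succ] at hy ⊢
  induction hy using Submodule.mul_induction_on' with
  | mem_mul_mem u hu v hv =>
    rw [mul_assoc]
    exact Submodule.mul_mem_mul hu (Idl_mul_mem η x hv)
  | add u _ v _ h h' => rw [add_mul]; exact Submodule.add_mem _ h h'

variable {η : F →* G} {n : ℕ} {τ : F → k}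

theorem trj_comm (hJ : TrJ k η n τ) (x : MonoidAlgebra k F) {z : MonoidAlgebra k F}
    (hz : z ∈ (Idl k η) ^ (n + 1)) : ex (k := k) τ (x * z) = ex (k := k) τ (z * x) := by
  induction x using MonoidAlgebra.induction_linear with
  | zero => simp
  | add x y hx hy => rw [add_mul, mul_add, map_add, map_add, hx, hy]
  | single a r =>
    have h1 := hJ a z hz
    rw [ex_sub_fun, ← ex_single_mul' τ a z, ← ex_mul_single τ a z] at h1
    have h2 : (MonoidAlgebra.single a r : MonoidAlgebra k F) = r • MonoidAlgebra.single a 1 :=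
      Pool.Agent.H23R2.Ch.single_eq_smul a r
    rw [h2, smul_mul_assoc, mul_smul_comm, map_smul, map_smul, sub_eq_zero.1 h1]

theorem trj_cut (hJ : TrJ k η n τ) (c : G → Prop) (hc : ∀ x y, c (x * y) ↔ c (y * x)) :
    TrJ k η n (cut η c τ) := by
  intro y x hx
  have h1 := ex_cut_kill η (fun h => c (η y * h)) (fun w => τ (y * w) - τ (w * y)) (n + 1)
    (hJ y) x hx
  refine Eq.trans ?_ h1
  congr 2
  funext w
  unfold cut
  by_cases h : c (η y * η w)
  · rw [map_mul, map_mul, if_pos h, if_pos ((hc _ _).1 h), if_pos h]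
  · rw [map_mul, map_mul, if_neg h, if_neg (fun h' => h ((hc _ _).1 h')), if_neg h, sub_zero]

theorem trj_graded [DecidableEq G] (hJ : TrJ k η n τ) {z : MonoidAlgebra k F}
    (hz : z ∈ (Idl k η) ^ (n + 1)) (u v s : F) (t : G) :
    ∑ w ∈ z.coeff.support with η w = t,
      z.coeff w * (τ (u * w * v * s) - τ (s * u * w * v)) = 0 := by
  have hk : ∀ x ∈ (Idl k η) ^ (n + 1),
      ex (k := k) (fun w => τ (u * w * v * s) - τ (s * u * w * v)) x = 0 := by
    intro x hx
    have h2 : MonoidAlgebra.single u 1 * x * MonoidAlgebra.single v 1 ∈ (Idl k η) ^ (n + 1) :=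
      Idl_pow_mul_mem η n _ (mul_mem_Idl_pow η n _ hx)
    have h3 := trj_comm hJ (MonoidAlgebra.single s 1) h2
    rw [ex_single_mul', ex_mul_single, ex_mul_single, ex_mul_single, ex_single_mul',
      ex_single_mul'] at h3
    rw [ex_sub_fun, sub_eq_zero]
    simp only [mul_assoc] at h3 ⊢
    exact h3.symm
  have h1 := ex_cut_kill η (fun h => h = t) _ (n + 1) hk z hz
  rw [ex_eq_sum] at h1
  rw [Finset.sum_filter]
  refine Eq.trans ?_ h1
  refine Finset.sum_congr rfl fun w _ => ?_
  rw [smul_eq_mul]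
  unfold cut
  by_cases hw : η w = t
  · rw [if_pos hw, if_pos hw]
  · rw [if_neg hw, if_neg hw, mul_zero]

variable {d : Type*} [Fintype d] [DecidableEq d]

theorem tf_trj (hJ : TrJ k η n τ) (X : Matrix d d (MonoidAlgebra k F))
    {Z : Matrix d d (MonoidAlgebra k F)} (hZ : ∀ i j, Z i j ∈ (Idl k η) ^ (n + 1)) :
    tf τ (X * Z) = tf τ (Z * X) := by
  rw [tf_apply, tf_apply]
  simp only [Matrix.mul_apply, map_sum]
  rw [Finset.sum_comm]
  exact Finset.sum_congr rfl fun i _ => Finset.sum_congr rfl fun j _ => trj_comm hJ _ (hZ _ _)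

theorem mul_mem_left (X : Matrix d d (MonoidAlgebra k F))
    {Z : Matrix d d (MonoidAlgebra k F)} (hZ : ∀ i j, Z i j ∈ (Idl k η) ^ (n + 1)) (i j : d) :
    (X * Z) i j ∈ (Idl k η) ^ (n + 1) := by
  rw [Matrix.mul_apply]
  exact Submodule.sum_mem _ fun l _ => mul_mem_Idl_pow η n _ (hZ _ _)

theorem mul_mem_right (X : Matrix d d (MonoidAlgebra k F))
    {Z : Matrix d d (MonoidAlgebra k F)} (hZ : ∀ i j, Z i j ∈ (Idl k η) ^ (n + 1)) (i j : d) :
    (Z * X) i j ∈ (Idl k η) ^ (n + 1) := by
  rw [Matrix.mul_apply]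
  exact Submodule.sum_mem _ fun l _ => Idl_pow_mul_mem η n _ (hZ _ _)

end Alg

section Norm

variable {F : Type*} [NormedField F] [IsUltrametricDist F] {W : Type*} [Monoid W]

/-- bound for the coefficients -/
def CBd (x : MonoidAlgebra F W) (P : ℝ) : Prop := ∀ g, ‖x.coeff g‖ ≤ P

theorem cbd_mul {x y : MonoidAlgebra F W} {A B : ℝ} (hx : CBd x A) (hy : CBd y B) (hA : 0 ≤ A)
    (hB : 0 ≤ B) : CBd (x * y) (A * B) := by
  classical
  intro g
  rw [MonoidAlgebra.coeff_mul]
  unfold Finsupp.sum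
  refine IsUltrametricDist.norm_sum_le_of_forall_le_of_nonneg (mul_nonneg hA hB) (fun a _ => ?_)
  refine IsUltrametricDist.norm_sum_le_of_forall_le_of_nonneg (mul_nonneg hA hB) (fun b _ => ?_)
  change ‖(if a * b = g then x.coeff a * y.coeff b else 0)‖ ≤ A * B
  split_ifs
  · rw [norm_mul]
    exact mul_le_mul (hx a) (hy b) (norm_nonneg _) hA
  · rw [norm_zero]; exact mul_nonneg hA hB

theorem cbd_add {x y : MonoidAlgebra F W} {A : ℝ} (hx : CBd x A) (hy : CBd y A) :
    CBd (x + y) A := by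
  intro g
  rw [MonoidAlgebra.coeff_add, Finsupp.add_apply]
  exact (IsUltrametricDist.norm_add_le_max _ _).trans (max_le (hx g) (hy g))

theorem cbd_sub {x y : MonoidAlgebra F W} {A : ℝ} (hx : CBd x A) (hy : CBd y A) :
    CBd (x - y) A := by
  intro g
  rw [MonoidAlgebra.coeff_sub, Finsupp.sub_apply]
  rw [sub_eq_add_neg]
  exact (IsUltrametricDist.norm_add_le_max _ _).trans
    (max_le (hx g) (by rw [norm_neg]; exact hy g))

theorem cbd_zero {A : ℝ} (hA : 0 ≤ A) : CBd (0 : MonoidAlgebra F W) A := by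
  intro g
  change ‖(0 : F)‖ ≤ A
  rw [norm_zero]; exact hA

theorem cbd_one : CBd (1 : MonoidAlgebra F W) 1 := by
  classical
  intro g
  rw [MonoidAlgebra.one_def, MonoidAlgebra.coeff_single, Finsupp.single_apply]
  split_ifs
  · rw [norm_one]
  · rw [norm_zero]; exact zero_le_one

theorem cbd_mono {x : MonoidAlgebra F W} {A B : ℝ} (hx : CBd x A) (h : A ≤ B) : CBd x B :=
  fun g => (hx g).trans h

/-- matrices -/
def MCB {ι κ : Type*} (X : Matrix ι κ (MonoidAlgebra F W)) (P : ℝ) : Prop :=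
  ∀ i j, CBd (X i j) P

variable {ι κ l : Type*} [Fintype ι] [Fintype κ] [Fintype l] [DecidableEq ι] [DecidableEq κ]

theorem mcb_mul {X : Matrix l ι (MonoidAlgebra F W)} {Y : Matrix ι κ (MonoidAlgebra F W)}
    {A B : ℝ} (hx : MCB X A) (hy : MCB Y B) (hA : 0 ≤ A) (hB : 0 ≤ B) : MCB (X * Y) (A * B) := by
  intro i j
  rw [Matrix.mul_apply]
  have h : ∀ s : Finset ι, CBd (∑ k ∈ s, X i k * Y k j) (A * B) := by
    intro s
    classical
    induction s using Finset.induction_on with
    | empty => rw [Finset.sum_empty]; exact cbd_zero (mul_nonneg hA hB)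
    | insert a s ha ih =>
      rw [Finset.sum_insert ha]
      exact cbd_add (cbd_mul (hx _ _) (hy _ _) hA hB) ih
  exact h _

theorem mcb_add {X Y : Matrix ι κ (MonoidAlgebra F W)} {A : ℝ} (hx : MCB X A) (hy : MCB Y A) :
    MCB (X + Y) A := fun i j => cbd_add (hx i j) (hy i j)

theorem mcb_sub {X Y : Matrix ι κ (MonoidAlgebra F W)} {A : ℝ} (hx : MCB X A) (hy : MCB Y A) :
    MCB (X - Y) A := fun i j => cbd_sub (hx i j) (hy i j)

theorem mcb_one : MCB (1 : Matrix ι ι (MonoidAlgebra F W)) 1 := by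
  intro i j
  rw [Matrix.one_apply]
  split_ifs
  · exact cbd_one
  · exact cbd_zero zero_le_one

theorem mcb_mono {X : Matrix ι κ (MonoidAlgebra F W)} {A B : ℝ} (hx : MCB X A) (h : A ≤ B) :
    MCB X B := fun i j => cbd_mono (hx i j) h

end Norm

section Idem

variable {R : Type*} [Ring R] {d : Type*} [Fintype d] [DecidableEq d]

/-- the idempotent matrix of a pair of matrices -/
noncomputable def idm (X Y : Matrix d d R) : Matrix (d ⊕ d) (d ⊕ d) R :=
  fromBlocks (X * (Y + Y - Y * X * Y)) (X * (1 - Y * X))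
    ((1 - Y * X) * (Y + Y - Y * X * Y)) ((1 - Y * X) * (1 - Y * X))

theorem idm_mul (X Y : Matrix d d R) : idm X Y * idm X Y = idm X Y := by
  have h1 : idm X Y = fromRows X (1 - Y * X) * fromCols (Y + Y - Y * X * Y) (1 - Y * X) := by
    rw [fromRows_mul_fromCols]
    rfl
  have h2 : fromCols (Y + Y - Y * X * Y) (1 - Y * X) * fromRows X (1 - Y * X) = 1 := by
    rw [fromCols_mul_fromRows]
    noncomm_ring
  generalize fromRows X (1 - Y * X) = C at h1 h2
  generalize fromCols (Y + Y - Y * X * Y) (1 - Y * X) = D at h1 h2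
  rw [h1, Matrix.mul_assoc, ← Matrix.mul_assoc D C D, h2, Matrix.one_mul]

/-- the trivial idempotent matrix -/
def idm0 (d R : Type*) [Ring R] [DecidableEq d] : Matrix (d ⊕ d) (d ⊕ d) R := fromBlocks 1 0 0 0

theorem idm0_mul : idm0 d R * idm0 d R = idm0 d R := by
  unfold idm0
  rw [fromBlocks_multiply]
  simp

theorem idm_one (X Y : Matrix d d R) :
    X * (Y + Y - Y * X * Y) - 1 = -((1 - X * Y) * (1 - X * Y)) := by noncomm_ring

end Idem

end Pool.Agent.Y84.PK
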