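import Pool.Agent.Y84.PK.E

set_option autoImplicit false
set_option linter.unusedSectionVars false

/-! Pairs of matrices over words which are inverse to each other modulo a power of the kernel ideal:
vanishing at classes with enough finite quotients of the centraliser. -/

namespace Pool.Agent.Y84.PK

open Matrix
open Pool.Agent.Y84.PH
open Pool.Agent.H23R2.Ch (ex ex_single ex_eq_sum ex_one_single tf tf_apply cut cut_comm ex_cut_kill
  Idl Dif mul_mem_Idl_pow pr sec msupp)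
open Pool.Agent.W647.K1 (cl cl_iff cl_comm mp mp_coeff mp_inj tf_mp cut_ring kill_push kill_pull)
open Pool.Agent.Y84.PG (cls)
open Pool.Agent.Y84.PT (norm_nat_ge exists_root norm_p_lt norm_p_eq norm_nat norm_le_one_of_integral
  exists_prime_of_pow_ne exists_spec exists_common_denom exists_coeff_finset)

universe u v w

section Pair

variable {F : Type*} [NormedField F] [IsUltrametricDist F] [Infinite F] {W G : Type*} [Monoid W]
  [Group G] {η : W →* G} {d : Type*} [Fintype d] [DecidableEq d]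

theorem mcb_idm {X Y : Matrix d d (MonoidAlgebra F W)} {P : ℝ} (hP : 1 ≤ P) (hX : MCB X P)
    (hY : MCB Y P) : MCB (idm X Y) (P ^ 5) := by
  have hP0 : 0 ≤ P := zero_le_one.trans hP
  have hYX : MCB (Y * X) (P * P) := mcb_mul hY hX hP0 hP0
  have h2 : 1 ≤ P * P := by nlinarith
  have hb : MCB (1 - Y * X) (P * P) := mcb_sub (mcb_mono mcb_one h2) hYX
  have hPP : 0 ≤ P * P := mul_nonneg hP0 hP0
  have hz : MCB (Y + Y - Y * X * Y) (P * P * P) := by
    have h3 : P ≤ P * P * P := by nlinarith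
    exact mcb_sub (mcb_mono (mcb_add hY hY) h3) (mcb_mul hYX hY hPP hP0)
  have hPPP : 0 ≤ P * P * P := mul_nonneg hPP hP0
  have e4 : P ^ 4 ≤ P ^ 5 := pow_le_pow_right₀ hP (by norm_num)
  have e3 : P ^ 3 ≤ P ^ 5 := pow_le_pow_right₀ hP (by norm_num)
  intro i j
  unfold idm
  rcases i with i | i <;> rcases j with j | j
  · rw [fromBlocks_apply₁₁]
    exact cbd_mono (mcb_mul hX hz hP0 hPPP i j) (le_trans (le_of_eq (by ring)) e4)
  · rw [fromBlocks_apply₁₂]
    exact cbd_mono (mcb_mul hX hb hP0 hPP i j) (le_trans (le_of_eq (by ring)) e3)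
  · rw [fromBlocks_apply₂₁]
    exact cbd_mono (mcb_mul hb hz hPP hPPP i j) (le_of_eq (by ring))
  · rw [fromBlocks_apply₂₂]
    exact cbd_mono (mcb_mul hb hb hPP hPP i j) (le_trans (le_of_eq (by ring)) e4)

theorem mcb_idm0 {P : ℝ} (hP : 1 ≤ P) : MCB (idm0 d (MonoidAlgebra F W)) P := by
  have hP0 : 0 ≤ P := zero_le_one.trans hP
  intro i j
  unfold idm0
  rcases i with i | i <;> rcases j with j | j
  · rw [fromBlocks_apply₁₁]
    exact cbd_mono (mcb_one i j) hP
  · rw [fromBlocks_apply₁₂]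
    exact cbd_zero hP0
  · rw [fromBlocks_apply₂₁]
    exact cbd_zero hP0
  · rw [fromBlocks_apply₂₂]
    exact cbd_zero hP0

theorem idm_mem {n : ℕ} {X Y : Matrix d d (MonoidAlgebra F W)}
    (hXY : ∀ i j, (1 - X * Y) i j ∈ (Idl F η) ^ (n + 1))
    (hYX : ∀ i j, (1 - Y * X) i j ∈ (Idl F η) ^ (n + 1)) (i j : d ⊕ d) :
    (idm X Y - idm0 d (MonoidAlgebra F W)) i j ∈ (Idl F η) ^ (n + 1) := by
  rw [Matrix.sub_apply]
  unfold idm idm0
  rcases i with i | i <;> rcases j with j | j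
  · rw [fromBlocks_apply₁₁, fromBlocks_apply₁₁, ← Matrix.sub_apply, idm_one, Matrix.neg_apply]
    exact Submodule.neg_mem _ (mul_mem_left _ hXY i j)
  · rw [fromBlocks_apply₁₂, fromBlocks_apply₁₂, Matrix.zero_apply, sub_zero]
    exact mul_mem_left _ hYX i j
  · rw [fromBlocks_apply₂₁, fromBlocks_apply₂₁, Matrix.zero_apply, sub_zero]
    exact mul_mem_right _ hYX i j
  · rw [fromBlocks_apply₂₂, fromBlocks_apply₂₂, Matrix.zero_apply, sub_zero]
    exact mul_mem_left _ hYX i j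

theorem word_pair (hnat : ∀ n : ℕ, n ≠ 0 → (1 : ℝ) / n ≤ ‖(n : F)‖)
    (hroot : ∀ n : ℕ, n ≠ 0 → ∃ ξ : F, IsPrimitiveRoot ξ n)
    {p : ℕ} (hp : p.Prime) (hp1 : ‖(p : F)‖ < 1) {n : ℕ}
    {τ : W → F} (hJ : TrJ F η n τ) (hτ1 : ∀ w, ‖τ w‖ ≤ 1)
    {X Y : Matrix d d (MonoidAlgebra F W)}
    (hXY : ∀ i j, (1 - X * Y) i j ∈ (Idl F η) ^ (n + 1))
    (hYX : ∀ i j, (1 - Y * X) i j ∈ (Idl F η) ^ (n + 1)) {P : ℝ} (hP : 1 ≤ P)
    (hX : MCB X P) (hY : MCB Y P) {k : ℕ} (hk : P ^ 5 * P ^ 5 * ‖(p : F)‖ ^ k ≤ 1) (g : G)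
    {Q : Type*} [Group Q] [Finite Q] (π : Subgroup.centralizer ({g} : Set G) →* Q) {c : Q}
    (hc : c = π ⟨g, Subgroup.mem_centralizer_singleton_iff.2 rfl⟩) (hkn : p ^ k ∣ orderOf c)
    (hpn : p ∣ orderOf c) :
    tf (cut η (cl g) τ) (1 - X * Y) = tf (cut η (cl g) τ) (1 - Y * X) := by
  classical
  set Φ := cut η (cl g) τ with hΦ
  have hΦJ : TrJ F η n Φ := trj_cut hJ (cl g) (cl_comm g)
  have hΦ1 : ∀ w, ‖Φ w‖ ≤ 1 := by
    intro w
    rw [hΦ]
    unfold cut
    split_ifs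
    · exact hτ1 w
    · rw [norm_zero]; exact zero_le_one
  have hΦg : ∀ w, Φ w ≠ 0 → η w ∈ cls g := by
    intro w hw
    rw [hΦ] at hw
    unfold cut at hw
    by_contra hcon
    apply hw
    rw [if_neg]
    intro h
    exact hcon ((cl_iff _ _).1 h).symm
  have h := pair_cls_zero hnat hroot hp hp1 hΦ1 g hΦg (idm_mul X Y) (idm0_mul (d := d))
    (fun i j u v s t => trj_graded hΦJ (idm_mem hXY hYX i j) u v s t) (one_le_pow₀ hP)
    (mcb_idm hP hX hY) (mcb_idm0 (one_le_pow₀ hP)) hk π hc hkn hpn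
  rw [Fintype.sum_sum_type] at h
  have e1 : ∑ i : d, (ex (k := F) Φ (idm X Y (Sum.inl i) (Sum.inl i)) -
      ex (k := F) Φ (idm0 d (MonoidAlgebra F W) (Sum.inl i) (Sum.inl i))) =
      - tf Φ ((1 - X * Y) * (1 - X * Y)) := by
    rw [← map_neg, ← idm_one, map_sub, tf_apply, tf_apply, ← Finset.sum_sub_distrib]
    rfl
  have e2 : ∑ i : d, (ex (k := F) Φ (idm X Y (Sum.inr i) (Sum.inr i)) -
      ex (k := F) Φ (idm0 d (MonoidAlgebra F W) (Sum.inr i) (Sum.inr i))) =
      tf Φ ((1 - Y * X) * (1 - Y * X)) := by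
    rw [tf_apply]
    refine Finset.sum_congr rfl (fun i _ => ?_)
    change ex (k := F) Φ (((1 - Y * X) * (1 - Y * X)) i i) - ex (k := F) Φ 0 = _
    rw [map_zero, sub_zero]
  rw [e1, e2] at h
  have h3 : tf Φ ((1 - Y * X) * Y * X) = tf Φ (X * ((1 - Y * X) * Y)) :=
    (tf_trj hΦJ X (mul_mem_right Y hYX)).symm
  have h4 : (1 - Y * X) * Y * X = (1 - Y * X) - (1 - Y * X) * (1 - Y * X) := by noncomm_ring
  have h5 : X * ((1 - Y * X) * Y) = (1 - X * Y) - (1 - X * Y) * (1 - X * Y) := by noncomm_ring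
  have h6 := map_sub (tf Φ) (1 - Y * X) ((1 - Y * X) * (1 - Y * X))
  have h7 := map_sub (tf Φ) (1 - X * Y) ((1 - X * Y) * (1 - X * Y))
  rw [h4, h5, h6, h7] at h3
  linear_combination (-1 : F) * h3 - h

end Pair

section Push

variable {S S' : Type*} [CommRing S] [CommRing S'] {F : Type*} [Monoid F] {G : Type*} [Group G]
  {η : F →* G} {n : ℕ}

theorem trj_push (ψ : S →+* S') {τ : F → S} (hJ : TrJ S η n τ) :
    TrJ S' η n (fun w => ψ (τ w)) := by
  intro y x hx
  have h := kill_push ψ η (n + 1) (fun w => τ (y * w) - τ (w * y)) (hJ y) x hx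
  simp only [map_sub] at h
  exact h

theorem trj_pull (ψ : S →+* S') (hψ : Function.Injective ψ) {τ : F → S}
    (hJ : TrJ S' η n (fun w => ψ (τ w))) : TrJ S η n τ := by
  intro y
  refine kill_pull ψ hψ η (n + 1) (fun w => τ (y * w) - τ (w * y)) ?_
  intro x hx
  have h := hJ y x hx
  simp only [map_sub]
  exact h

theorem ex_smul_fun (r : S) (Ψ : F → S) (x : MonoidAlgebra S F) :
    ex (k := S) (fun w => r * Ψ w) x = r * ex (k := S) Ψ x := by
  rw [ex_eq_sum, ex_eq_sum, Finset.mul_sum]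
  refine Finset.sum_congr rfl fun f _ => ?_
  rw [smul_eq_mul, smul_eq_mul]
  ring

theorem trj_smul (r : S) {τ : F → S} (hJ : TrJ S η n τ) : TrJ S η n (fun w => r * τ w) := by
  intro y x hx
  have h := hJ y x hx
  have h2 : (fun w => r * τ (y * w) - r * τ (w * y)) =
      fun w => r * (τ (y * w) - τ (w * y)) := by
    funext w
    rw [mul_sub]
  change ex (k := S) (fun w => r * τ (y * w) - r * τ (w * y)) x = 0
  rw [h2, ex_smul_fun, h, mul_zero]

end Push

section alg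

variable {G : Type u} [Group G] {d : Type w} [Fintype d] [DecidableEq d]
variable {L : Type v} [Field L] [CharZero L] [Algebra.IsAlgebraic ℚ L]

/-- algebraic numbers -/
theorem alg_od (n : ℕ) {τ : FreeMonoid G → L} (hJ : TrJ L (pr G) n τ) (s : Finset L)
    (hV : ∀ w, τ w ∈ AddSubgroup.closure (s : Set L))
    {X Y : Matrix d d (MonoidAlgebra L (FreeMonoid G))}
    (hXY : ∀ i j, (1 - X * Y) i j ∈ (Idl L (pr G)) ^ (n + 1))
    (hYX : ∀ i j, (1 - Y * X) i j ∈ (Idl L (pr G)) ^ (n + 1)) {g : G} (hg : Cen g) :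
    tf (cut (pr G) (cl g) τ) (1 - X * Y) = tf (cut (pr G) (cl g) τ) (1 - Y * X) := by
  classical
  have hfinset : ∀ X : Matrix d d (MonoidAlgebra L (FreeMonoid G)),
      ∃ U : Finset L, ∀ i j w, (X i j).coeff w ∈ U := by
    intro X
    refine ⟨insert 0 (Finset.univ.biUnion fun i => Finset.univ.biUnion fun j =>
      (X i j).coeff.support.image fun w => (X i j).coeff w), ?_⟩
    intro i j w
    by_cases hw : (X i j).coeff w = 0
    · rw [hw]; exact Finset.mem_insert_self _ _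
    · refine Finset.mem_insert_of_mem ?_
      simp only [Finset.mem_biUnion, Finset.mem_univ, true_and, Finset.mem_image]
      exact ⟨i, j, w, Finsupp.mem_support_iff.2 hw, rfl⟩
  obtain ⟨U1, hU1⟩ := hfinset X
  obtain ⟨U2, hU2⟩ := hfinset Y
  obtain ⟨N, hN, hNint⟩ := exists_common_denom (L := L) (U1 ∪ U2)
  obtain ⟨N₂, hN₂, hN₂int⟩ := exists_common_denom (L := L) s
  have hval : ∀ w, IsIntegral ℤ ((N₂ : L) * τ w) := by
    have h1 : ∀ x ∈ AddSubgroup.closure (s : Set L), IsIntegral ℤ ((N₂ : L) * x) := by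
      intro x hx
      induction hx using AddSubgroup.closure_induction with
      | mem x hx => exact hN₂int x (by exact_mod_cast hx)
      | zero => rw [mul_zero]; exact isIntegral_zero
      | add x y _ _ hx hy => rw [mul_add]; exact hx.add hy
      | neg x _ hx => rw [mul_neg]; exact hx.neg
    exact fun w => h1 _ (hV w)
  obtain ⟨Q, i1, i2, π, hπ⟩ := hg ((N ^ 5) ^ 2) (pow_ne_zero _ (pow_ne_zero _ hN))
  let _ : Fintype Q := Fintype.ofFinite Q
  obtain ⟨p, hp, hk, hpc⟩ := exists_prime_of_pow_ne (pow_ne_zero 5 hN) hπ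
  have : Fact p.Prime := ⟨hp⟩
  have hinf : Infinite (PadicAlgCl p) := infinite_padic p
  let ψ : L →ₐ[ℚ] PadicAlgCl p := IsAlgClosed.lift
  have hψi : Function.Injective ψ.toRingHom := ψ.toRingHom.injective
  set v := padicValNat p N with hv
  have hv5 : padicValNat p (N ^ 5) = 5 * v := padicValNat.pow N 5
  rw [hv5] at hk
  have hNp : ‖(N : PadicAlgCl p)‖ = ((p : ℝ) ^ v)⁻¹ := norm_nat p hN
  have hp0 : (0 : ℝ) < p := by exact_mod_cast hp.pos
  have hP : (1 : ℝ) ≤ (p : ℝ) ^ v := one_le_pow₀ (by exact_mod_cast hp.one_lt.le)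
  have hk2 : ((p : ℝ) ^ v) ^ 5 * ((p : ℝ) ^ v) ^ 5 * ‖(p : PadicAlgCl p)‖ ^ (2 * (5 * v)) ≤ 1 := by
    rw [norm_p_eq, ← pow_mul, ← pow_add, show v * 5 + v * 5 = 2 * (5 * v) by ring, ← mul_pow,
      mul_inv_cancel₀ hp0.ne', one_pow]
  have hcb : ∀ X : Matrix d d (MonoidAlgebra L (FreeMonoid G)),
      (∀ i j w, (X i j).coeff w ∈ U1 ∪ U2) →
      MCB (X.map (mp (FreeMonoid G) ψ.toRingHom)) ((p : ℝ) ^ v) := by
    intro X hX i j w
    rw [Matrix.map_apply, mp_coeff]
    have h3 := norm_le_one_of_integral p ((hNint _ (hX i j w)).map (ψ.restrictScalars ℤ))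
    have h4 : (ψ.restrictScalars ℤ) ((N : L) * (X i j).coeff w) =
        (N : PadicAlgCl p) * ψ.toRingHom ((X i j).coeff w) := by
      rw [map_mul, map_natCast]
      rfl
    rw [h4, norm_mul, hNp] at h3
    have h5 : (0 : ℝ) < (p : ℝ) ^ v := by positivity
    rw [inv_mul_le_iff₀ h5, mul_one] at h3
    exact h3
  have hmem : ∀ X Y : Matrix d d (MonoidAlgebra L (FreeMonoid G)),
      (∀ i j, (1 - X * Y) i j ∈ (Idl L (pr G)) ^ (n + 1)) → ∀ i j,
      (1 - X.map (mp (FreeMonoid G) ψ.toRingHom) * Y.map (mp (FreeMonoid G) ψ.toRingHom)) i j ∈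
        (Idl (PadicAlgCl p) (pr G)) ^ (n + 1) := by
    intro X Y h i j
    have h2 : (1 - X.map (mp (FreeMonoid G) ψ.toRingHom) *
        Y.map (mp (FreeMonoid G) ψ.toRingHom)) i j =
        mp (FreeMonoid G) ψ.toRingHom ((1 - X * Y) i j) := by
      have h3 := congrFun (congrFun (((mp (FreeMonoid G) ψ.toRingHom).mapMatrix).map_sub
        (1 : Matrix d d _) (X * Y)) i) j
      rw [map_one, map_mul] at h3
      exact h3.symm
    rw [h2]
    exact mp_Idl ψ.toRingHom (pr G) (n + 1) (h i j)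
  have h1 := word_pair (η := pr G) (norm_nat_ge p) (exists_root p) hp (norm_p_lt p)
    (τ := fun w => ψ.toRingHom ((N₂ : L) * τ w)) (trj_push ψ.toRingHom (trj_smul (N₂ : L) hJ))
    (fun w => norm_le_one_of_integral p ((hval w).map (ψ.restrictScalars ℤ)))
    (hmem X Y hXY) (hmem Y X hYX) hP
    (hcb X fun i j w => Finset.mem_union_left _ (hU1 i j w))
    (hcb Y fun i j w => Finset.mem_union_right _ (hU2 i j w)) hk2 g π rfl hk hpc
  have h2 : ∀ X Y : Matrix d d (MonoidAlgebra L (FreeMonoid G)),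
      tf (cut (pr G) (cl g) (fun w => ψ.toRingHom ((N₂ : L) * τ w)))
        (1 - X.map (mp (FreeMonoid G) ψ.toRingHom) * Y.map (mp (FreeMonoid G) ψ.toRingHom)) =
      ψ.toRingHom ((N₂ : L) * tf (cut (pr G) (cl g) τ) (1 - X * Y)) := by
    intro X Y
    have h3 : (1 - X.map (mp (FreeMonoid G) ψ.toRingHom) *
        Y.map (mp (FreeMonoid G) ψ.toRingHom)) =
        (1 - X * Y).map (mp (FreeMonoid G) ψ.toRingHom) := by
      have h3 := ((mp (FreeMonoid G) ψ.toRingHom).mapMatrix).map_sub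
        (1 : Matrix d d _) (X * Y)
      rw [map_one, map_mul] at h3
      exact h3.symm
    rw [h3, cut_ring ψ.toRingHom, tf_mp]
    congr 1
    rw [tf_apply, tf_apply, Finset.mul_sum]
    refine Finset.sum_congr rfl fun i _ => ?_
    rw [← ex_smul_fun]
    congr 2
    funext w
    unfold cut
    split_ifs
    · rfl
    · rw [mul_zero]
  rw [h2 X Y, h2 Y X] at h1
  have h3 := hψi h1
  exact mul_left_cancel₀ (by exact_mod_cast hN₂) h3

end alg

end Pool.Agent.Y84.PK
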