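import Pool.Agent.Y84.PK.V
import Pool.Agent.H23R2.Odd.Chi

/-!
# Odd traces over rings of characteristic `p`: the identity component
-/

set_option autoImplicit false
set_option linter.unusedSectionVars false

namespace Pool.Agent.Y84.PK

open Finset Pool.Agent.H23R2 Pool.Agent.H23R2.Cyc
open Pool.Agent.H23R2.Ch (ex ex_single ex_eq_sum ex_one_single tf tf_apply cut cut_comm
  Idl Dif Hm Hm_mul Dif_Hm Dif_pow_Hm mul_mem_Idl mul_mem_Idl_pow single_eq_smul)
open Pool.Agent.H23R2.Odd (add_ppow one_symm)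
open Pool.Agent.W647.K1 (mp mp_coeff)
open scoped Pointwise

section gen

variable {k : Type*} [CommRing k] {F : Type*} [Monoid F] {G : Type*} [Group G]
  {d : Type*} [Fintype d] [DecidableEq d]

theorem cut_pos' (π : F →* G) (c : G → Prop) (Φ : F → k) {h : G} (hc : c h)
    {x : MonoidAlgebra k F} (hx : x ∈ Hm k π h) : ex (cut π c Φ) x = ex Φ x := by
  have h1 : Set.EqOn (ex (k := k) (cut π c Φ)) (ex Φ)
      {x | ∃ f, π f = h ∧ MonoidAlgebra.single f 1 = x} := by
    rintro _ ⟨f, hf, rfl⟩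
    rw [ex_one_single, ex_one_single, cut, if_pos (hf ▸ hc)]
  exact LinearMap.eqOn_span h1 hx

theorem cut_neg' (π : F →* G) (c : G → Prop) (Φ : F → k) {h : G} (hc : ¬ c h)
    {x : MonoidAlgebra k F} (hx : x ∈ Hm k π h) : ex (cut π c Φ) x = 0 := by
  have h1 : Set.EqOn (ex (k := k) (cut π c Φ)) (0 : MonoidAlgebra k F →ₗ[k] k)
      {x | ∃ f, π f = h ∧ MonoidAlgebra.single f 1 = x} := by
    rintro _ ⟨f, hf, rfl⟩
    rw [ex_one_single, cut, if_neg (hf ▸ hc)]
    rfl
  exact LinearMap.eqOn_span h1 hx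

theorem Hm_pow' (π : F →* G) {g : G} {x : MonoidAlgebra k F} (hx : x ∈ Hm k π g) (m : ℕ) :
    x ^ m ∈ Hm k π (g ^ m) := by
  induction m with
  | zero =>
    rw [pow_zero, pow_zero]
    exact Submodule.subset_span ⟨1, map_one π, rfl⟩
  | succ m ih => rw [pow_succ, pow_succ]; exact Hm_mul π ih hx

theorem Idl_pow_anti' (π : F →* G) {m n : ℕ} (h : n + 1 ≤ m) {x : MonoidAlgebra k F}
    (hx : x ∈ (Idl k π) ^ m) : x ∈ (Idl k π) ^ (n + 1) := by
  obtain ⟨c, rfl⟩ := Nat.exists_eq_add_of_le' h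
  rw [pow_add] at hx
  induction hx using Submodule.mul_induction_on' with
  | mem_mul_mem u hu v hv => exact mul_mem_Idl_pow π n u hv
  | add u _ v _ h h' => exact Submodule.add_mem _ h h'

theorem span_comm' (T : MonoidAlgebra k F →ₗ[k] k) (S1 S2 : Set (MonoidAlgebra k F))
    (hT : ∀ x ∈ S1, ∀ y ∈ S2, T (x * y) = T (y * x)) {x y : MonoidAlgebra k F}
    (hx : x ∈ Submodule.span k S1) (hy : y ∈ Submodule.span k S2) : T (x * y) = T (y * x) := by
  induction hx using Submodule.span_induction with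
  | zero => simp
  | add a b _ _ h h' => simp only [add_mul, mul_add, map_add, h, h']
  | smul a z _ h => rw [smul_mul_assoc, mul_smul_comm, map_smul, map_smul, h]
  | mem x hx =>
    induction hy using Submodule.span_induction with
    | zero => simp
    | add a b _ _ h h' => simp only [add_mul, mul_add, map_add, h, h']
    | smul a z _ h => rw [smul_mul_assoc, mul_smul_comm, map_smul, map_smul, h]
    | mem y hy => exact hT x hx y hy

/-- cutting preserves the trace property on `I × I ^ m` -/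
theorem cut_Hb' (π : F →* G) (c : G → Prop) (hc : ∀ x y, c (x * y) ↔ c (y * x)) (Φ : F → k)
    (m : ℕ)
    (hT : ∀ x ∈ Idl k π, ∀ a ∈ (Idl k π) ^ m, ex Φ (x * a) = ex Φ (a * x))
    {x : MonoidAlgebra k F} (hx : x ∈ Idl k π)
    {a : MonoidAlgebra k F} (ha : a ∈ (Idl k π) ^ m) :
    ex (cut π c Φ) (x * a) = ex (cut π c Φ) (a * x) := by
  unfold Idl at ha hx
  rw [Submodule.span_pow] at ha
  refine span_comm' (ex (cut π c Φ)) _ _ ?_ hx ha
  intro x hx y hy
  obtain ⟨g, hg⟩ := Dif_Hm π hx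
  obtain ⟨h, hh⟩ := Dif_pow_Hm π m hy
  by_cases hgh : c (g * h)
  · rw [cut_pos' π c Φ hgh (Hm_mul π hg hh), cut_pos' π c Φ ((hc _ _).mp hgh) (Hm_mul π hh hg)]
    refine hT x (Submodule.subset_span hx) y ?_
    unfold Idl
    rw [Submodule.span_pow]
    exact Submodule.subset_span hy
  · rw [cut_neg' π c Φ hgh (Hm_mul π hg hh),
      cut_neg' π c Φ (fun h' => hgh ((hc _ _).mp h')) (Hm_mul π hh hg)]

/-- two semilinear functions on a span which are equal on generators -/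
theorem eq_on_span' {A : Type*} [AddCommGroup A] [Module k A] (S : Set A) (e : ℕ) (g1 g2 : A → k)
    (h1 : ∀ x ∈ Submodule.span k S, ∀ y ∈ Submodule.span k S, g1 (x + y) = g1 x + g1 y)
    (h2 : ∀ x ∈ Submodule.span k S, ∀ y ∈ Submodule.span k S, g2 (x + y) = g2 x + g2 y)
    (h3 : ∀ (a : k), ∀ x ∈ Submodule.span k S, g1 (a • x) = a ^ e * g1 x)
    (h4 : ∀ (a : k), ∀ x ∈ Submodule.span k S, g2 (a • x) = a ^ e * g2 x)
    (h : ∀ x ∈ S, g1 x = g2 x) {x : A} (hx : x ∈ Submodule.span k S) : g1 x = g2 x := by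
  have hz : ∀ g : A → k, (∀ x ∈ Submodule.span k S, ∀ y ∈ Submodule.span k S,
      g (x + y) = g x + g y) → g 0 = 0 := by
    intro g hg
    have h5 := hg 0 (Submodule.zero_mem _) 0 (Submodule.zero_mem _)
    rw [add_zero] at h5
    exact left_eq_add.1 h5
  induction hx using Submodule.span_induction with
  | mem x hx => exact h x hx
  | zero => rw [hz g1 h1, hz g2 h2]
  | add a b ha hb h h' => rw [h1 a ha b hb, h2 a ha b hb, h, h']
  | smul r a ha h => rw [h3 r a ha, h4 r a ha, h]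

/-- the alternation -/
theorem alt' {π : F →* G} {n : ℕ} {τ : F → k} (hJ : TrJ k π n τ)
    (V U : Matrix d d (MonoidAlgebra k F))
    (hα : ∀ i j, (V * U - 1) i j ∈ (Idl k π) ^ (n + 1)) (q : ℕ) :
    tf τ ((V * U - 1) ^ (q + 1)) - tf τ ((U * V - 1) ^ (q + 1)) =
      ((-1 : ℤ) ^ q) • (tf τ (V * U) - tf τ (U * V)) := by
  induction q with
  | zero =>
    rw [zero_add, pow_one, pow_one, map_sub, map_sub, pow_zero, one_smul]
    abel
  | succ q ih =>
    have hUα : ∀ m, U * (V * U - 1) ^ m = (U * V - 1) ^ m * U := by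
      intro m
      induction m with
      | zero => simp
      | succ m ihm =>
        rw [pow_succ', ← mul_assoc, show U * (V * U - 1) = (U * V - 1) * U by noncomm_ring,
          mul_assoc, ihm, ← mul_assoc, ← pow_succ']
    have e1 : (V * U - 1) ^ (q + 1 + 1) =
        V * (U * (V * U - 1) ^ (q + 1)) - (V * U - 1) ^ (q + 1) := by
      rw [pow_succ' (V * U - 1) (q + 1)]
      noncomm_ring
    have e2 : (U * (V * U - 1) ^ (q + 1)) * V =
        (U * V - 1) ^ (q + 1 + 1) + (U * V - 1) ^ (q + 1) := by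
      rw [hUα, pow_succ (U * V - 1) (q + 1)]
      noncomm_ring
    have hpow : ∀ i j, ((V * U - 1) ^ (q + 1)) i j ∈ (Idl k π) ^ (n + 1) := by
      intro i j
      rw [pow_succ]
      exact mul_mem_left _ hα i j
    have e3 := tf_trj hJ V (mul_mem_left U hpow)
    rw [e1, map_sub, e3, e2, map_add, pow_succ (-1 : ℤ) q, mul_neg_one, neg_smul, ← ih]
    abel

/-- On matrices over a span of products of differences, the trace of `p ^ κ`-th powers is computed
on these products. -/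
theorem mat_ppow0 {π : F →* G} {n : ℕ} {τ : F → k} (hJ : TrJ k π n τ) {p : ℕ}
    [hp : Fact p.Prime] (κ : ℕ) (hκ : 1 ≤ κ) (hM : ∀ x : k, p • x = 0)
    (g : MonoidAlgebra k F →+ k) (hg : ∀ a z, g (a • z) = a ^ p ^ κ * g z)
    (D : Set (MonoidAlgebra k F)) (hDD : D ⊆ (Dif k π) ^ (n + 1))
    (hD : ∀ z ∈ D, ex τ (z ^ p ^ κ) = g z)
    (X : Matrix d d (MonoidAlgebra k F)) (hX : ∀ i j, X i j ∈ Submodule.span k D) :
    tf τ (X ^ p ^ κ) = ∑ i, g (X i i) := by
  have hspan : Submodule.span k D ≤ (Idl k π) ^ (n + 1) := by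
    unfold Idl
    rw [Submodule.span_pow]
    exact Submodule.span_mono hDD
  have hn2 : 2 ≤ p ^ κ := by
    calc 2 ≤ p := hp.out.two_le
      _ = p ^ 1 := (pow_one p).symm
      _ ≤ p ^ κ := Nat.pow_le_pow_right hp.out.pos hκ
  set K : Set (Matrix d d (MonoidAlgebra k F)) := {X | ∀ i j, X i j ∈ Submodule.span k D} with hK
  let Tg : Matrix d d (MonoidAlgebra k F) →+ k :=
    g.comp (Matrix.traceAddMonoidHom d (MonoidAlgebra k F))
  have hTg : ∀ X, Tg X = ∑ i, g (X i i) := by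
    intro X
    simp [Tg, Matrix.trace]
  have hadd : ∀ X ∈ K, ∀ Y ∈ K, tf τ ((X + Y) ^ p ^ κ) = tf τ (X ^ p ^ κ) + tf τ (Y ^ p ^ κ) := by
    intro X hX Y hY
    exact add_ppow (tf τ) κ hM K (fun _ => Set.univ) (fun _ _ => trivial)
      (fun _ _ _ _ _ _ => trivial) hκ
      (fun x hx y _ => (tf_trj hJ y (fun i j => hspan (hx i j))).symm) X Y hX hY
  have hKadd : ∀ X ∈ K, ∀ Y ∈ K, X + Y ∈ K := fun X hX Y hY i j =>
    Submodule.add_mem _ (hX i j) (hY i j)
  have hKsingle : ∀ i j, ∀ z ∈ Submodule.span k D, Matrix.single i j z ∈ K := by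
    intro i j z hz i' j'
    rw [Matrix.single_apply]
    split_ifs
    · exact hz
    · exact Submodule.zero_mem _
  have hsingle : ∀ i j, ∀ z ∈ Submodule.span k D,
      tf τ ((Matrix.single i j z : Matrix d d _) ^ p ^ κ) = Tg (Matrix.single i j z) := by
    intro i j z hz
    refine eq_on_span' D (p ^ κ)
      (fun z => tf τ ((Matrix.single i j z : Matrix d d _) ^ p ^ κ))
      (fun z => Tg (Matrix.single i j z)) ?_ ?_ ?_ ?_ ?_ hz
    · intro x hx y hy
      beta_reduce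
      rw [Matrix.single_add]
      exact hadd _ (hKsingle i j x hx) _ (hKsingle i j y hy)
    · intro x _ y _
      beta_reduce
      rw [Matrix.single_add, map_add]
    · intro a x _
      beta_reduce
      rw [← Matrix.smul_single, smul_pow, tf_apply, tf_apply, Finset.mul_sum]
      refine Finset.sum_congr rfl fun l _ => ?_
      rw [Matrix.smul_apply, map_smul, smul_eq_mul]
    · intro a x _
      beta_reduce
      rw [← Matrix.smul_single, hTg, hTg, Finset.mul_sum]
      refine Finset.sum_congr rfl fun l _ => ?_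
      rw [Matrix.smul_apply, hg]
    · intro z hz
      by_cases hij : i = j
      · subst hij
        have h1 : ∀ m : ℕ, (Matrix.single i i z : Matrix d d _) ^ (m + 1) =
            Matrix.single i i (z ^ (m + 1)) := by
          intro m
          induction m with
          | zero => simp
          | succ m ih => rw [pow_succ, ih, Matrix.single_mul_single_same, ← pow_succ]
        obtain ⟨q, hq⟩ : ∃ q, p ^ κ = q + 1 := ⟨p ^ κ - 1, by omega⟩
        change ex τ ((Matrix.single i i z : Matrix d d _) ^ p ^ κ).trace =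
          g (Matrix.single i i z : Matrix d d _).trace
        rw [hq, h1, Matrix.trace_single_eq_same, ← hq, Matrix.trace_single_eq_same]
        exact hD z hz
      · obtain ⟨q, hq⟩ : ∃ q, p ^ κ = q + 2 := ⟨p ^ κ - 2, by omega⟩
        change ex τ ((Matrix.single i j z : Matrix d d _) ^ p ^ κ).trace =
          g (Matrix.single i j z : Matrix d d _).trace
        rw [Matrix.trace_single_eq_of_ne _ _ _ hij, hq, pow_succ, pow_succ,
          mul_assoc, Matrix.single_mul_single_of_ne _ _ _ _ (Ne.symm hij)]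
        simp
  have hP : ∀ X ∈ K, (X ∈ K ∧ tf τ (X ^ p ^ κ) = Tg X) := by
    intro X hX
    have hzero : (0 : Matrix d d (MonoidAlgebra k F)) ∈ K ∧
        tf τ ((0 : Matrix d d (MonoidAlgebra k F)) ^ p ^ κ) =
          Tg (0 : Matrix d d (MonoidAlgebra k F)) := by
      refine ⟨fun i j => Submodule.zero_mem _, ?_⟩
      rw [zero_pow (by omega), map_zero, map_zero]
    have hstep : ∀ X Y : Matrix d d (MonoidAlgebra k F),
        (X ∈ K ∧ tf τ (X ^ p ^ κ) = Tg X) → (Y ∈ K ∧ tf τ (Y ^ p ^ κ) = Tg Y) →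
        (X + Y ∈ K ∧ tf τ ((X + Y) ^ p ^ κ) = Tg (X + Y)) := by
      intro X Y hX hY
      exact ⟨hKadd _ hX.1 _ hY.1, by rw [hadd _ hX.1 _ hY.1, hX.2, hY.2, map_add]⟩
    rw [Matrix.matrix_eq_sum_single X]
    refine Finset.sum_induction _ (fun X => X ∈ K ∧ tf τ (X ^ p ^ κ) = Tg X) hstep hzero ?_
    intro i _
    refine Finset.sum_induction _ (fun X => X ∈ K ∧ tf τ (X ^ p ^ κ) = Tg X) hstep hzero ?_
    intro j _
    exact ⟨hKsingle i j _ (hX i j), hsingle i j _ (hX i j)⟩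
  rw [(hP X hX).2, hTg]

/-- On matrices over the power of the ideal, the trace of `p ^ κ`-th powers is computed on
products of differences. -/
theorem mat_ppow' {π : F →* G} {n : ℕ} {τ : F → k} (hJ : TrJ k π n τ) {p : ℕ}
    [hp : Fact p.Prime] (κ : ℕ) (hκ : 1 ≤ κ) (hM : ∀ x : k, p • x = 0)
    (g : MonoidAlgebra k F →+ k) (hg : ∀ a z, g (a • z) = a ^ p ^ κ * g z)
    (hD : ∀ z ∈ (Dif k π) ^ (n + 1), ex τ (z ^ p ^ κ) = g z)
    (X : Matrix d d (MonoidAlgebra k F)) (hX : ∀ i j, X i j ∈ (Idl k π) ^ (n + 1)) :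
    tf τ (X ^ p ^ κ) = ∑ i, g (X i i) := by
  refine mat_ppow0 hJ κ hκ hM g hg _ subset_rfl hD X (fun i j => ?_)
  rw [← Submodule.span_pow]
  exact hX i j

/-- **Other components.** -/
theorem part_rest' {p : ℕ} [hp : Fact p.Prime] (hM : ∀ x : k, p • x = 0) {π : F →* G}
    {τ : F → k} {n : ℕ} (hJ : TrJ k π n τ) (c : G → Prop) (hc : ∀ x y, c (x * y) ↔ c (y * x))
    (hcp : ∀ h : G, ∃ κ₀ : ℕ, ∀ κ, κ₀ ≤ κ → ¬ c (h ^ p ^ κ))
    (V U : Matrix d d (MonoidAlgebra k F)) (hα : ∀ i j, (V * U - 1) i j ∈ (Idl k π) ^ (n + 1))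
    (hβ : ∀ i j, (U * V - 1) i j ∈ (Idl k π) ^ (n + 1)) :
    tf (cut π c τ) (V * U) - tf (cut π c τ) (U * V) = 0 := by
  classical
  have hJ' := trj_cut hJ c hc
  have hfin : ∀ x ∈ (Idl k π) ^ (n + 1), ∃ D : Finset (MonoidAlgebra k F),
      (D : Set (MonoidAlgebra k F)) ⊆ (Dif k π) ^ (n + 1) ∧
        x ∈ Submodule.span k (D : Set (MonoidAlgebra k F)) := by
    intro x hx
    unfold Idl at hx
    rw [Submodule.span_pow] at hx
    obtain ⟨D, h1, h2⟩ := Submodule.mem_span_finite_of_mem_span hx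
    exact ⟨D, h1, h2⟩
  have hfin2 : ∀ X : Matrix d d (MonoidAlgebra k F), (∀ i j, X i j ∈ (Idl k π) ^ (n + 1)) →
      ∃ κ₁ : ℕ, 1 ≤ κ₁ ∧ ∀ κ, κ₁ ≤ κ → tf (cut π c τ) (X ^ p ^ κ) = 0 := by
    intro X hX
    choose D hD1 hD2 using fun i j => hfin _ (hX i j)
    let D0 : Finset (MonoidAlgebra k F) := Finset.univ.biUnion fun i =>
      Finset.univ.biUnion fun j => D i j
    have hD0 : ∀ z ∈ D0, z ∈ (Dif k π) ^ (n + 1) := by
      intro z hz
      simp only [D0, Finset.mem_biUnion, Finset.mem_univ, true_and] at hz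
      obtain ⟨i, j, hz⟩ := hz
      exact hD1 i j (by exact_mod_cast hz)
    have hD0X : ∀ i j, X i j ∈ Submodule.span k (D0 : Set (MonoidAlgebra k F)) := by
      intro i j
      refine Submodule.span_mono ?_ (hD2 i j)
      intro z hz
      have h1 : z ∈ D0 := by
        simp only [D0, Finset.mem_biUnion, Finset.mem_univ, true_and]
        exact ⟨i, j, by exact_mod_cast hz⟩
      exact_mod_cast h1
    have hk : ∀ z : MonoidAlgebra k F, ∃ κ₂ : ℕ, z ∈ D0 → ∀ κ, κ₂ ≤ κ →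
        ex (cut π c τ) (z ^ p ^ κ) = 0 := by
      intro z
      by_cases hz : z ∈ D0
      · obtain ⟨h, hh⟩ := Dif_pow_Hm π (n + 1) (hD0 z hz)
        obtain ⟨κ₂, hκ₂⟩ := hcp h
        exact ⟨κ₂, fun _ κ hκ => cut_neg' π c τ (hκ₂ κ hκ) (Hm_pow' π hh _)⟩
      · exact ⟨0, fun h => absurd h hz⟩
    choose κ₂ hκ₂ using hk
    refine ⟨1 + ∑ z ∈ D0, κ₂ z, by omega, fun κ hκ => ?_⟩
    rw [mat_ppow0 hJ' κ (by omega) hM 0 (fun a z => by simp) (D0 : Set (MonoidAlgebra k F))
      (fun z hz => hD0 z (by exact_mod_cast hz)) (fun z hz => ?_) X hD0X]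
    · simp
    · have hz' : z ∈ D0 := by exact_mod_cast hz
      refine hκ₂ z hz' κ ?_
      have := Finset.single_le_sum (f := κ₂) (fun _ _ => Nat.zero_le _) hz'
      omega
  obtain ⟨κ₁, h1, h1'⟩ := hfin2 _ hα
  obtain ⟨κ₂, h2, h2'⟩ := hfin2 _ hβ
  set κ := max κ₁ κ₂ with hκdef
  have hpk : 1 ≤ p ^ κ := Nat.one_le_pow _ _ hp.out.pos
  have h3 := alt' hJ' V U hα (p ^ κ - 1)
  rw [Nat.sub_add_cancel hpk, h1' κ (le_max_left _ _), h2' κ (le_max_right _ _), sub_zero] at h3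
  have h4 : ((-1 : ℤ) ^ (p ^ κ - 1)) * ((-1 : ℤ) ^ (p ^ κ - 1)) = 1 := by
    rw [← mul_pow]; simp
  have h5 := congrArg (fun x => ((-1 : ℤ) ^ (p ^ κ - 1)) • x) h3
  simp only [smul_smul, h4, one_smul, smul_zero] at h5
  exact h5.symm

theorem aug_dec' (π : F →* G) {x : MonoidAlgebra k F} (hx : x ∈ Hm k π 1) :
    ∃ m : k, x - m • (1 : MonoidAlgebra k F) ∈ Idl k π := by
  unfold Hm at hx
  induction hx using Submodule.span_induction with
  | zero => exact ⟨0, by simp⟩
  | add x y _ _ h h' =>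
    obtain ⟨m, hm⟩ := h
    obtain ⟨m', hm'⟩ := h'
    refine ⟨m + m', ?_⟩
    have := Submodule.add_mem _ hm hm'
    have e : x + y - (m + m') • (1 : MonoidAlgebra k F) = (x - m • 1) + (y - m' • 1) := by
      rw [add_smul]; abel
    rw [e]
    exact this
  | smul a x _ h =>
    obtain ⟨m, hm⟩ := h
    refine ⟨a * m, ?_⟩
    rw [mul_smul, ← smul_sub]
    exact Submodule.smul_mem _ _ hm
  | mem x hx =>
    obtain ⟨f, hf, rfl⟩ := hx
    refine ⟨1, Submodule.subset_span ⟨f, 1, by rw [hf, map_one], ?_⟩⟩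
    rw [one_smul, ← MonoidAlgebra.one_def]

theorem T_smul_p' {p : ℕ} (hM : ∀ x : k, p • x = 0) (T : MonoidAlgebra k F →ₗ[k] k)
    (r : MonoidAlgebra k F) : T ((p : MonoidAlgebra k F) * r) = 0 := by
  rw [← nsmul_eq_mul, map_nsmul, hM]

/-- additivity of the `p`-th power on the part of degree one -/
theorem hm1_pow' {p : ℕ} [hp : Fact p.Prime] (hM : ∀ x : k, p • x = 0)
    (T : MonoidAlgebra k F →ₗ[k] k) (x x' : MonoidAlgebra k F) (m : k)
    (hx : x - m • 1 = x') : T (x ^ p) = T (x' ^ p) + m ^ p * T 1 := by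
  have h1 : x = x' + m • 1 := by rw [← hx]; abel
  have hc : Commute x' (m • (1 : MonoidAlgebra k F)) := (Commute.one_right x').smul_right m
  obtain ⟨r, hr⟩ := hc.exists_add_pow_prime_eq hp.out
  rw [h1, hr, map_add, map_add, mul_assoc, mul_assoc, T_smul_p' hM, add_zero, smul_pow, one_pow,
    map_smul, smul_eq_mul]

theorem hm1_add' {p : ℕ} [hp : Fact p.Prime] (hM : ∀ x : k, p • x = 0) (π : F →* G)
    (φ : k →+* k) (hφ : ∀ a, φ a = a ^ p)
    (T : MonoidAlgebra k F →ₗ[k] k)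
    (hb : ∀ x ∈ Idl k π, ∀ y ∈ (Idl k π) ^ (p - 1), T (x * y) = T (y * x))
    {x y : MonoidAlgebra k F} (hx : x ∈ Hm k π 1) (hy : y ∈ Hm k π 1) :
    T ((x + y) ^ p) = T (x ^ p) + T (y ^ p) := by
  obtain ⟨m, hm⟩ := aug_dec' π hx
  obtain ⟨m', hm'⟩ := aug_dec' π hy
  have e : (x + y) - (m + m') • (1 : MonoidAlgebra k F) = (x - m • 1) + (y - m' • 1) := by
    rw [add_smul]; abel
  rw [hm1_pow' hM T x _ m rfl, hm1_pow' hM T y _ m' rfl, hm1_pow' hM T (x + y) _ (m + m') e]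
  have h := add_ppow T.toAddMonoidHom 1 hM (Idl k π : Set (MonoidAlgebra k F))
    (fun m => ((Idl k π) ^ m : Submodule k (MonoidAlgebra k F)))
    (fun x hx => by rw [pow_one]; exact hx)
    (fun m _ x hx y hy => by rw [pow_succ]; exact Submodule.mul_mem_mul hx hy) le_rfl
    (fun x hx y hy => hb x hx y (by rwa [pow_one] at hy)) _ _ hm hm'
  rw [pow_one] at h
  have h' : T ((x - m • 1 + (y - m' • 1)) ^ p) =
      T ((x - m • 1) ^ p) + T ((y - m' • 1) ^ p) := h
  rw [h', ← hφ (m + m'), map_add, hφ, hφ]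
  ring

/-- the `p`-th power function on words of degree one -/
noncomputable def pw' (π : F →* G) (τ : F → k) (p : ℕ) : F → k :=
  fun f => cut π (fun h => h = 1) τ (f ^ p)

/-- the semilinear functional of the `p`-th powers -/
noncomputable def gp (π : F →* G) (τ : F → k) (p : ℕ) (φ : k →+* k) : MonoidAlgebra k F →+ k :=
  (ex (k := k) (pw' π τ p)).toAddMonoidHom.comp (mp F φ).toAddMonoidHom

theorem gp_apply (π : F →* G) (τ : F → k) (p : ℕ) (φ : k →+* k) (z : MonoidAlgebra k F) :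
    gp π τ p φ z = ex (pw' π τ p) (mp F φ z) := rfl

theorem mp_smul (φ : k →+* k) (a : k) (z : MonoidAlgebra k F) :
    mp F φ (a • z) = φ a • mp F φ z := by
  ext f
  rw [mp_coeff, MonoidAlgebra.coeff_smul, MonoidAlgebra.coeff_smul, Finsupp.smul_apply,
    Finsupp.smul_apply, mp_coeff, smul_eq_mul, smul_eq_mul, map_mul]

theorem gp_smul (π : F →* G) (τ : F → k) (p : ℕ) (φ : k →+* k) (hφ : ∀ a, φ a = a ^ p) (a : k)
    (z : MonoidAlgebra k F) : gp π τ p φ (a • z) = a ^ p * gp π τ p φ z := by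
  rw [gp_apply, gp_apply, mp_smul, map_smul, hφ, smul_eq_mul]

theorem mp_single' (φ : k →+* k) (f : F) (a : k) :
    mp F φ (MonoidAlgebra.single f a) = MonoidAlgebra.single f (φ a) := by
  classical
  ext f'
  rw [mp_coeff, MonoidAlgebra.coeff_single, MonoidAlgebra.coeff_single, Finsupp.single_apply,
    Finsupp.single_apply]
  split_ifs
  · rfl
  · exact map_zero φ

theorem mp_Hm (π : F →* G) (φ : k →+* k) {h : G} {z : MonoidAlgebra k F} (hz : z ∈ Hm k π h) :
    mp F φ z ∈ Hm k π h := by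
  unfold Hm at hz
  induction hz using Submodule.span_induction with
  | zero => rw [map_zero]; exact Submodule.zero_mem _
  | add y z _ _ h h' => rw [map_add]; exact Submodule.add_mem _ h h'
  | smul a y _ h => rw [mp_smul]; exact Submodule.smul_mem _ _ h
  | mem x hx =>
    obtain ⟨f, hf, rfl⟩ := hx
    rw [mp_single', map_one]
    exact Submodule.subset_span ⟨f, hf, rfl⟩

theorem id_pow' {p : ℕ} [hp : Fact p.Prime] (hM : ∀ x : k, p • x = 0) (π : F →* G)
    (φ : k →+* k) (hφ : ∀ a, φ a = a ^ p)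
    (hG : ∀ g : G, g ^ p = 1 → g = 1) (τ : F → k)
    (hb : ∀ x ∈ Idl k π, ∀ y ∈ (Idl k π) ^ (p - 1), ex τ (x * y) = ex τ (y * x))
    {h : G} {z : MonoidAlgebra k F} (hz : z ∈ Hm k π h) :
    ex (cut π (fun h => h = 1) τ) (z ^ p) = gp π τ p φ z := by
  by_cases hh : h = 1
  · subst hh
    have hadd := fun {x y : MonoidAlgebra k F} (hx : x ∈ Hm k π 1) (hy : y ∈ Hm k π 1) =>
      hm1_add' hM π φ hφ (ex (cut π (fun h => h = 1) τ))
        (fun x hx y hy => cut_Hb' π (fun h => h = 1) one_symm τ (p - 1) hb hx hy) hx hy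
    refine eq_on_span' _ p (fun z => ex (cut π (fun h => h = 1) τ) (z ^ p))
      (fun z => gp π τ p φ z) ?_ ?_ ?_ ?_ ?_ hz
    · intro x hx y hy
      exact hadd hx hy
    · intro x _ y _
      exact map_add _ _ _
    · intro a x _
      beta_reduce
      rw [smul_pow, map_smul, smul_eq_mul]
    · intro a x _
      exact gp_smul π τ p φ hφ a x
    · rintro _ ⟨f, hf, rfl⟩
      change ex _ ((MonoidAlgebra.single f (1 : k)) ^ p) = gp π τ p φ _
      rw [MonoidAlgebra.single_pow, one_pow, ex_one_single, gp_apply, mp_single', map_one,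
        ex_one_single, pw']
  · rw [cut_neg' π _ τ (h := h ^ p) (fun h' => hh (hG h h')) (Hm_pow' π hz p), gp_apply]
    have h1 : Set.EqOn (ex (k := k) (pw' π τ p)) (0 : MonoidAlgebra k F →ₗ[k] k)
        {x | ∃ f, π f = h ∧ MonoidAlgebra.single f 1 = x} := by
      rintro _ ⟨f, hf, rfl⟩
      rw [ex_one_single, pw', cut, map_pow, hf, if_neg (fun h' => hh (hG h h'))]
      rfl
    exact (LinearMap.eqOn_span h1 (mp_Hm π φ hz)).symm

/-- **Identity component.** -/
theorem part_one' {p : ℕ} [hp : Fact p.Prime] (hM : ∀ x : k, p • x = 0) (π : F →* G)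
    (φ : k →+* k) (hφ : ∀ a, φ a = a ^ p)
    (hG : ∀ g : G, g ^ p = 1 → g = 1) {τ : F → k} {n : ℕ} (hJ : TrJ k π n τ)
    (hb : ∀ x ∈ Idl k π, ∀ y ∈ (Idl k π) ^ (p - 1), ex τ (x * y) = ex τ (y * x))
    (V U : Matrix d d (MonoidAlgebra k F)) (hα : ∀ i j, (V * U - 1) i j ∈ (Idl k π) ^ (n + 1))
    (hβ : ∀ i j, (U * V - 1) i j ∈ (Idl k π) ^ (n + 1)) :
    tf (cut π (fun h => h = 1) τ) (V * U) - tf (cut π (fun h => h = 1) τ) (U * V) =
      ((-1 : ℤ) ^ (p - 1)) • (tf (pw' π τ p) (V.map (mp F φ) * U.map (mp F φ)) -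
        tf (pw' π τ p) (U.map (mp F φ) * V.map (mp F φ))) := by
  have hJ' := trj_cut hJ (fun h => h = 1) one_symm
  have h1 := alt' hJ' V U hα (p - 1)
  rw [Nat.sub_add_cancel hp.out.one_le] at h1
  have h2 : ∀ X : Matrix d d (MonoidAlgebra k F), (∀ i j, X i j ∈ (Idl k π) ^ (n + 1)) →
      tf (cut π (fun h => h = 1) τ) (X ^ p) = ∑ i, gp π τ p φ (X i i) := by
    intro X hX
    have h3 := mat_ppow' hJ' 1 le_rfl hM (gp π τ p φ) (fun a z => by
      rw [pow_one]
      exact gp_smul π τ p φ hφ a z) (by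
        intro z hz
        rw [pow_one]
        obtain ⟨h, hh⟩ := Dif_pow_Hm π (n + 1) hz
        exact id_pow' hM π φ hφ hG τ hb hh) X hX
    rwa [pow_one] at h3
  rw [h2 _ hα, h2 _ hβ] at h1
  have h4 : ((-1 : ℤ) ^ (p - 1)) * ((-1 : ℤ) ^ (p - 1)) = 1 := by
    rw [← mul_pow]; simp
  have h6 : ∀ X Y : Matrix d d (MonoidAlgebra k F),
      tf (pw' π τ p) (X.map (mp F φ) * Y.map (mp F φ)) =
        ∑ i, gp π τ p φ ((X * Y - 1) i i) + ∑ i : d, gp π τ p φ 1 := by
    intro X Y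
    rw [tf_apply, ← Finset.sum_add_distrib]
    refine Finset.sum_congr rfl fun i _ => ?_
    rw [← map_add, Matrix.sub_apply, Matrix.one_apply_eq, sub_add_cancel, gp_apply]
    congr 1
    rw [← Matrix.map_mul]
    rfl
  rw [h6, h6, add_sub_add_right_eq_sub, h1, smul_smul, h4, one_smul]

end gen

end Pool.Agent.Y84.PK
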