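import Pool.Agent.Y84.PK.P

/-!
# The pairing with characters
-/

set_option autoImplicit false
set_option linter.unusedSectionVars false

namespace Pool.Agent.Y84.PK

open Finset Pool.Agent.H23R2 Pool.Agent.H23R2.Cyc
open Pool.Agent.H23R2.Ch (ex ex_single ex_eq_sum ex_one_single tf tf_apply cut cut_comm
  Idl Dif Hm Hm_mul Dif_Hm Dif_pow_Hm mul_mem_Idl mul_mem_Idl_pow single_eq_smul)
open Pool.Agent.H23R2.Odd (add_ppow one_symm exists_chi)
open Pool.Agent.W647.K1 (mp mp_coeff)
open scoped Pointwise

section lam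

variable {k : Type*} [CommRing k] {F : Type*} [Monoid F] {G : Type*} [Group G]
  {d : Type*} [Fintype d] [DecidableEq d]

/-- the pairing `∑ v_ij(g) u_ji(g⁻¹) a(g)` -/
noncomputable def lamk (a : G → k) (v u : Matrix d d (MonoidAlgebra k G)) : k :=
  ∑ i, ∑ j, ex (k := k) (fun g => (u j i).coeff g⁻¹ * a g) (v i j)

/-- the map on monoid algebras -/
noncomputable def pmk (k : Type*) [CommRing k] {F : Type*} [Monoid F] {G : Type*} [Group G]
    (π : F →* G) : MonoidAlgebra k F →+* MonoidAlgebra k G :=
  MonoidAlgebra.mapDomainRingHom k π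

theorem pmk_single (π : F →* G) (f : F) (r : k) :
    pmk k π (MonoidAlgebra.single f r) = MonoidAlgebra.single (π f) r := by
  unfold pmk
  simp

open Classical in
theorem ex_comm_eq' (π : F →* G) (Φ : F → k) (χ : G → k)
    (h : ∀ f h, Φ (f * h) - Φ (h * f) = if π f * π h = 1 then χ (π f) else 0)
    (x y : MonoidAlgebra k F) : ex Φ (x * y) - ex Φ (y * x) =
      ex (k := k) (fun g => (pmk k π y).coeff g⁻¹ * χ g) (pmk k π x) := by
  induction x using MonoidAlgebra.induction_linear with
  | zero => simp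
  | add x x' hx hx' =>
    rw [add_mul, mul_add, map_add, map_add, map_add, map_add, ← hx, ← hx']
    abel
  | single f r =>
    rw [pmk_single, ex_single]
    induction y using MonoidAlgebra.induction_linear with
    | zero => simp
    | add y y' hy hy' =>
      rw [add_mul, mul_add, map_add, map_add, map_add, MonoidAlgebra.coeff_add,
        Finsupp.add_apply, add_mul, smul_add, ← hy, ← hy']
      abel
    | single f' s =>
      rw [MonoidAlgebra.single_mul_single, MonoidAlgebra.single_mul_single, ex_single, ex_single,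
        mul_comm s r, ← smul_sub, h, pmk_single, mul_smul, smul_eq_mul, smul_eq_mul, smul_eq_mul]
      congr 1
      rw [MonoidAlgebra.coeff_single]
      by_cases hc : π f * π f' = 1
      · have : π f' = (π f)⁻¹ := eq_inv_of_mul_eq_one_right hc
        rw [if_pos hc, this]
        simp
      · have : ¬ (π f' = (π f)⁻¹) := fun e => hc (by rw [e, mul_inv_cancel])
        rw [if_neg hc]
        simp [this]

open Classical in
theorem tf_lam (π : F →* G) (Φ : F → k) (χ : G → k)
    (h : ∀ f h, Φ (f * h) - Φ (h * f) = if π f * π h = 1 then χ (π f) else 0)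
    (V U : Matrix d d (MonoidAlgebra k F)) : tf Φ (V * U) - tf Φ (U * V) =
      lamk χ (V.map (pmk k π)) (U.map (pmk k π)) := by
  have h1 : tf Φ (U * V) = ∑ i, ∑ j, ex Φ (U j i * V i j) := by
    rw [tf_apply, Finset.sum_comm]
    refine Finset.sum_congr rfl fun i _ => ?_
    rw [Matrix.mul_apply, map_sum]
  have h2 : tf Φ (V * U) = ∑ i, ∑ j, ex Φ (V i j * U j i) := by
    rw [tf_apply]
    refine Finset.sum_congr rfl fun i _ => ?_
    rw [Matrix.mul_apply, map_sum]
  rw [h1, h2, ← Finset.sum_sub_distrib]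
  unfold lamk
  refine Finset.sum_congr rfl fun i _ => ?_
  rw [← Finset.sum_sub_distrib]
  refine Finset.sum_congr rfl fun j _ => ?_
  rw [ex_comm_eq' π Φ χ h]
  rfl

theorem ex_sum_fun {ι : Type*} (s : Finset ι) (a : ι → G → k) (m : ι → k)
    (x : MonoidAlgebra k G) : ex (k := k) (fun g => ∑ i ∈ s, a i g * m i) x =
      ∑ i ∈ s, ex (k := k) (a i) x * m i := by
  rw [ex_eq_sum]
  simp only [ex_eq_sum, Finset.smul_sum, Finset.sum_mul]
  rw [Finset.sum_comm]
  refine Finset.sum_congr rfl fun i _ => Finset.sum_congr rfl fun g _ => ?_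
  rw [smul_eq_mul, smul_eq_mul, mul_assoc]

theorem lamk_sum {ι : Type*} (s : Finset ι) (a : ι → G → k) (m : ι → k)
    (v u : Matrix d d (MonoidAlgebra k G)) :
    lamk (fun g => ∑ i ∈ s, a i g * m i) v u = ∑ i ∈ s, lamk (a i) v u * m i := by
  unfold lamk
  simp only [Finset.sum_mul]
  rw [Finset.sum_comm (s := s)]
  refine Finset.sum_congr rfl fun i _ => ?_
  rw [Finset.sum_comm (s := s)]
  refine Finset.sum_congr rfl fun j _ => ?_
  rw [← Finset.sum_congr rfl fun l _ => rfl]
  have h1 := ex_sum_fun s (fun l g => (u j i).coeff g⁻¹ * a l g) m (v i j)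
  rw [← h1]
  congr 1
  congr 1
  funext g
  rw [Finset.mul_sum]
  exact Finset.sum_congr rfl fun l _ => (mul_assoc _ _ _).symm

theorem lamk_mp {k' : Type*} [CommRing k'] (φ : k →+* k') (a : G → k)
    (v u : Matrix d d (MonoidAlgebra k G)) :
    lamk (fun g => φ (a g)) (v.map (mp G φ)) (u.map (mp G φ)) = φ (lamk a v u) := by
  unfold lamk
  rw [map_sum]
  refine Finset.sum_congr rfl fun i _ => ?_
  rw [map_sum]
  refine Finset.sum_congr rfl fun j _ => ?_
  rw [Matrix.map_apply, Matrix.map_apply]
  have h1 : ∀ (Φ : G → k) (x : MonoidAlgebra k G),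
      ex (k := k') (fun g => φ (Φ g)) (mp G φ x) = φ (ex Φ x) := by
    intro Φ x
    induction x using MonoidAlgebra.induction_linear with
    | zero => simp
    | add x y hx hy => rw [map_add, map_add, map_add, map_add, hx, hy]
    | single f r =>
      rw [Pool.Agent.W647.K1.mp_single, ex_single, ex_single, smul_eq_mul, smul_eq_mul, map_mul]
  rw [← h1]
  congr 1
  congr 1
  funext g
  rw [map_mul, mp_coeff]

end lam

end Pool.Agent.Y84.PK
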