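import Pool.Agent.Y84.PK.V
import Pool.Agent.Y84.PH.G

/-!
# Odd cycles over group algebras of fields of characteristic zero: classes with enough finite
quotients of the centraliser
-/

set_option autoImplicit false
set_option linter.unusedSectionVars false

namespace Pool.Agent.Y84.PK

open Finset Pool.Agent.H23R2 Pool.Agent.H23R2.Cyc Pool.Agent.H23R2.Ch
open Pool.Agent.Y84.PH (Cen cut_cut exists_lift_one mp_Idl)
open Pool.Agent.W647.K1 (cl cl_iff cl_comm sum_classes mp mp_coeff mp_inj tf_mp cut_ring sec_mp)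
open Pool.Agent.Y35.KC (SeZ Wm_SeZ)
open Pool.Agent.Y84.PT (exists_spec exists_coeff_finset)

universe u1 u2 u3 u4 u5

section nat

variable {S S' : Type*} [CommRing S] [CommRing S'] {G : Type*} [Group G] {d : Type*} [Fintype d]
  [DecidableEq d]

theorem EE_mp (ψ : S →+* S') (u v : Matrix d d (MonoidAlgebra S G)) (m : ℕ) :
    ((EE u v) ^ m).map (mp (FreeMonoid G) ψ) =
      (EE (u.map (mp G ψ)) (v.map (mp G ψ))) ^ m := by
  have h1 : ∀ w : Matrix d d (MonoidAlgebra S G),
      (mp (FreeMonoid G) ψ).mapMatrix (w.map (sec S G)) = (w.map (mp G ψ)).map (sec S' G) := by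
    intro w
    ext1 i j
    exact sec_mp ψ (w i j)
  have h2 : (mp (FreeMonoid G) ψ).mapMatrix (EE u v) = EE (u.map (mp G ψ)) (v.map (mp G ψ)) := by
    unfold EE
    rw [map_sub, map_one, map_mul, h1, h1]
  rw [← h2, ← map_pow]
  rfl

theorem one_sub_UV (n : ℕ) (u v : Matrix d d (MonoidAlgebra S G)) :
    1 - u.map (sec S G) * VV n u v = (EE u v) ^ (n + 1) := by
  rw [← neg_sub, UV_eq, neg_neg]

theorem one_sub_VU (n : ℕ) (u v : Matrix d d (MonoidAlgebra S G)) :
    1 - VV n u v * u.map (sec S G) = (EE v u) ^ (n + 1) := by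
  rw [← neg_sub, VU_eq, neg_neg]

end nat

section field

variable {G : Type u2} [Group G] {d : Type u3} [Fintype d] [DecidableEq d]

/-- algebraic numbers -/
theorem alg_EE {L : Type u1} [Field L] [CharZero L] [Algebra.IsAlgebraic ℚ L] (n : ℕ)
    {τ : FreeMonoid G → L} (hJ : TrJ L (pr G) n τ) (s : Finset L)
    (hV : ∀ w, τ w ∈ AddSubgroup.closure (s : Set L))
    (u v : Matrix d d (MonoidAlgebra L G)) (huv : u * v = 1) (hvu : v * u = 1) {g : G}
    (hg : Cen g) :
    tf (cut (pr G) (cl g) τ) ((EE u v) ^ (n + 1)) =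
      tf (cut (pr G) (cl g) τ) ((EE v u) ^ (n + 1)) := by
  rw [← one_sub_UV, ← one_sub_VU]
  refine alg_od n hJ s hV ?_ ?_ hg
  · intro i j
    rw [one_sub_UV]
    exact EE_pow_mem u v huv (n + 1) i j
  · intro i j
    rw [one_sub_VU]
    exact EE_pow_mem v u hvu (n + 1) i j

/-- fields of characteristic zero -/
theorem field_od {K : Type u1} [Field K] [CharZero K] (n : ℕ) {τ : FreeMonoid G → K}
    (hJ : TrJ K (pr G) n τ) (s : Finset K)
    (hV : ∀ w, τ w ∈ AddSubgroup.closure (s : Set K))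
    (u v : Matrix d d (MonoidAlgebra K G)) (huv : u * v = 1) (hvu : v * u = 1) {g : G}
    (hg : Cen g) :
    tf (cut (pr G) (cl g) τ) ((EE u v) ^ (n + 1)) =
      tf (cut (pr G) (cl g) τ) ((EE v u) ^ (n + 1)) := by
  classical
  rw [← sub_eq_zero]
  by_contra hx
  set x : K := tf (cut (pr G) (cl g) τ) ((EE u v) ^ (n + 1)) -
      tf (cut (pr G) (cl g) τ) ((EE v u) ^ (n + 1)) with hxdef
  obtain ⟨U1, hU1⟩ := exists_coeff_finset u
  obtain ⟨U2, hU2⟩ := exists_coeff_finset v
  obtain ⟨R, hUR, ⟨ψ⟩⟩ := exists_spec (K := K) (AlgebraicClosure ℚ)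
    ((insert x⁻¹ ((U1 ∪ U2) ∪ s) : Finset K) : Set K) (Finset.finite_toSet _)
  have hmem1 : ∀ i j g, (u i j).coeff g ∈ R := by
    intro i j g
    exact hUR (by exact_mod_cast Finset.mem_insert_of_mem (Finset.mem_union_left _
      (Finset.mem_union_left _ (hU1 i j g))))
  have hmem2 : ∀ i j g, (v i j).coeff g ∈ R := by
    intro i j g
    exact hUR (by exact_mod_cast Finset.mem_insert_of_mem (Finset.mem_union_left _
      (Finset.mem_union_right _ (hU2 i j g))))
  have hmems : ∀ y ∈ s, y ∈ R := by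
    intro y hy
    exact hUR (by exact_mod_cast Finset.mem_insert_of_mem (Finset.mem_union_right _ hy))
  have hxinv : x⁻¹ ∈ R := hUR (by exact_mod_cast Finset.mem_insert_self _ _)
  have halg : Algebra.IsAlgebraic ℚ (AlgebraicClosure ℚ) := AlgebraicClosure.isAlgebraic ℚ
  have hcl : ∀ y ∈ AddSubgroup.closure (s : Set K), y ∈ R := by
    intro y hy
    induction hy using AddSubgroup.closure_induction with
    | mem y hy => exact hmems y (by exact_mod_cast hy)
    | zero => exact R.zero_mem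
    | add a b _ _ ha hb => exact R.add_mem ha hb
    | neg a _ ha => exact R.neg_mem ha
  let ι : R →+* K := algebraMap R K
  have hι : Function.Injective ι := Subtype.val_injective
  have hlift : ∀ w : Matrix d d (MonoidAlgebra K G), (∀ i j g, (w i j).coeff g ∈ R) →
      ∃ w' : Matrix d d (MonoidAlgebra R G), w'.map (mp G ι) = w := by
    intro w hw
    have h1 : ∀ i j, ∃ y : MonoidAlgebra R G, mp G ι y = w i j := fun i j =>
      exists_lift_one ι (w i j) (fun g => ⟨⟨_, hw i j g⟩, rfl⟩)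
    choose w0 hw0 using h1
    refine ⟨Matrix.of w0, ?_⟩
    ext1 i j
    exact hw0 i j
  obtain ⟨uR, huR⟩ := hlift u hmem1
  obtain ⟨vR, hvR⟩ := hlift v hmem2
  have hinv : ∀ (a b : Matrix d d (MonoidAlgebra R G)),
      a.map (mp G ι) * b.map (mp G ι) = 1 → a * b = 1 := by
    intro a b hab
    have h4 : (mp G ι).mapMatrix (a * b) = (mp G ι).mapMatrix 1 := by
      rw [map_mul, map_one]
      exact hab
    ext1 i j
    apply mp_inj ι hι
    exact congrFun (congrFun h4 i) j
  have huvR : uR * vR = 1 := hinv _ _ (by rw [huR, hvR, huv])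
  have hvuR : vR * uR = 1 := hinv _ _ (by rw [huR, hvR, hvu])
  let τR : FreeMonoid G → R := fun w => ⟨τ w, hcl _ (hV w)⟩
  have hJR : TrJ R (pr G) n τR := trj_pull ι hι hJ
  have hval : ∀ a b : Matrix d d (MonoidAlgebra R G),
      tf (cut (pr G) (cl g) τ) ((EE (a.map (mp G ι)) (b.map (mp G ι))) ^ (n + 1)) =
        ι (tf (cut (pr G) (cl g) τR) ((EE a b) ^ (n + 1))) := by
    intro a b
    rw [← tf_mp, EE_mp, ← cut_ring]
    rfl
  let s' : Finset (AlgebraicClosure ℚ) := s.attach.image fun y => ψ ⟨y.1, hmems y.1 y.2⟩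
  have hone : ∀ a b : Matrix d d (MonoidAlgebra R G), a * b = 1 →
      a.map (mp G ψ) * b.map (mp G ψ) = 1 := by
    intro a b hab
    have h4 := congrArg (mp G ψ).mapMatrix hab
    rw [map_mul, map_one] at h4
    exact h4
  have h0 := alg_EE n (τ := fun w => ψ (τR w)) (trj_push ψ hJR) s' (by
      have h1 : ∀ y (hy : y ∈ AddSubgroup.closure (s : Set K)),
          ψ ⟨y, hcl y hy⟩ ∈ AddSubgroup.closure (s' : Set (AlgebraicClosure ℚ)) := by
        intro y hy
        induction hy using AddSubgroup.closure_induction with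
        | mem y hy =>
          apply AddSubgroup.subset_closure
          have hys : y ∈ s := by exact_mod_cast hy
          have h2 : ψ ⟨y, hmems y hys⟩ ∈ s' :=
            Finset.mem_image.2 ⟨⟨y, hys⟩, Finset.mem_attach _ _, rfl⟩
          exact_mod_cast h2
        | zero =>
          have h2 : (⟨0, hcl 0 (AddSubgroup.zero_mem _)⟩ : R) = 0 := rfl
          rw [h2, map_zero]
          exact AddSubgroup.zero_mem _
        | add a b ha hb iha ihb =>
          have h2 : (⟨a + b, hcl _ (AddSubgroup.add_mem _ ha hb)⟩ : R) =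
              ⟨a, hcl a ha⟩ + ⟨b, hcl b hb⟩ := rfl
          rw [h2, map_add]
          exact AddSubgroup.add_mem _ iha ihb
        | neg a ha iha =>
          have h2 : (⟨-a, hcl _ (AddSubgroup.neg_mem _ ha)⟩ : R) = -⟨a, hcl a ha⟩ := rfl
          rw [h2, map_neg]
          exact AddSubgroup.neg_mem _ iha
      exact fun w => h1 _ (hV w)) (uR.map (mp G ψ)) (vR.map (mp G ψ)) (hone _ _ huvR)
      (hone _ _ hvuR) hg
  rw [cut_ring, ← EE_mp, tf_mp, ← EE_mp, tf_mp] at h0
  have h1 := hval uR vR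
  have h2 := hval vR uR
  rw [huR, hvR] at h1 h2
  have h3 : (tf (cut (pr G) (cl g) τR) ((EE uR vR) ^ (n + 1)) -
      tf (cut (pr G) (cl g) τR) ((EE vR uR) ^ (n + 1))) * ⟨x⁻¹, hxinv⟩ = 1 := by
    apply Subtype.val_injective
    change ι (tf (cut (pr G) (cl g) τR) ((EE uR vR) ^ (n + 1)) -
      tf (cut (pr G) (cl g) τR) ((EE vR uR) ^ (n + 1))) * x⁻¹ = 1
    rw [map_sub, ← h1, ← h2]
    exact mul_inv_cancel₀ hx
  have h4 := congrArg ψ h3
  rw [map_mul, map_sub, h0, sub_self, zero_mul, map_one] at h4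
  exact zero_ne_one h4

end field

section values

variable {k : Type*} [CommRing k] {G : Type*} [Group G] {M : Type*} [AddCommGroup M] [Module k M]
  {Ω : Type*} [Ring Ω] [Algebra k Ω] {𝒜 : ℕ → Submodule k Ω} [GradedAlgebra 𝒜] {δ : Ω →ₗ[k] Ω}
  {T : Ω →ₗ[k] M} {ρ : MonoidAlgebra k G →ₐ[k] Ω}

theorem T_SeZ_mul {n : ℕ} (h : IsCycle (2 * n + 1) 𝒜 δ T) (hρ : ∀ a, ρ a ∈ 𝒜 0) (g g' : G)
    (V : AddSubgroup M)
    (hg : ∀ (a : G) (l : List G), l.length = 2 * n + 1 → a * l.prod = g * g' →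
      T (ρ (MonoidAlgebra.single a 1) * pf δ ρ l) ∈ V) {x y : Ω} (hx : x ∈ SeZ δ ρ g)
    (hy : y ∈ SeZ δ ρ g') : T (x * δ y) ∈ V := by
  induction hx using AddSubgroup.closure_induction with
  | mem x hx =>
    obtain ⟨j, a, l, hl, hal, rfl⟩ := hx
    induction hy using AddSubgroup.closure_induction with
    | mem y hy =>
      obtain ⟨j', b, l', hl', hbl', rfl⟩ := hy
      have e1 : δ (ρ (MonoidAlgebra.single b 1) * pf δ ρ l') =
          δ (ρ (MonoidAlgebra.single b 1)) * pf δ ρ l' := by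
        rw [leib h (deg_zero_Ev (hρ _)), delta_pf h hρ, mul_zero, add_zero]
      have e2 : ρ (MonoidAlgebra.single a 1) * pf δ ρ l * δ (ρ (MonoidAlgebra.single b 1) *
          pf δ ρ l') = ρ (MonoidAlgebra.single a 1) * pf δ ρ (l ++ b :: l') := by
        rw [e1]
        simp [pf, mul_assoc]
      rw [e2]
      by_cases hj : (l ++ b :: l').length = 2 * n + 1
      · refine hg a _ hj ?_
        rw [List.prod_append, List.prod_cons, ← mul_assoc, hal, hbl']
      · have h1 : T (ρ (MonoidAlgebra.single a 1) * pf δ ρ (l ++ b :: l')) = 0 := by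
          refine h.dim (0 + (l ++ b :: l').length) (by omega) _ ?_
          exact mul_mem_deg (hρ (MonoidAlgebra.single a 1)) (pf_deg h hρ _)
        rw [h1]
        exact V.zero_mem
    | zero =>
      rw [map_zero, mul_zero, map_zero]
      exact V.zero_mem
    | add x y _ _ hx hy =>
      rw [map_add, mul_add, map_add]
      exact V.add_mem hx hy
    | neg x _ hx =>
      rw [map_neg, mul_neg, map_neg]
      exact V.neg_mem hx
  | zero =>
    rw [zero_mul, map_zero]
    exact V.zero_mem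
  | add x y _ _ hx hy =>
    rw [add_mul, map_add]
    exact V.add_mem hx hy
  | neg x _ hx =>
    rw [neg_mul, map_neg]
    exact V.neg_mem hx

theorem ph_mem {n : ℕ} (h : IsCycle (2 * n + 1) 𝒜 δ T) (hρ : ∀ a, ρ a ∈ 𝒜 0)
    (v w : FreeMonoid G) (V : AddSubgroup M)
    (hg : ∀ (a : G) (l : List G), l.length = 2 * n + 1 → a * l.prod = pr G (v * w) →
      T (ρ (MonoidAlgebra.single a 1) *
        (l.map fun b => δ (ρ (MonoidAlgebra.single b 1))).prod) ∈ V) : ph T δ ρ v w ∈ V :=
  T_SeZ_mul h hρ (pr G v) (pr G w) V (fun a l hl hal => hg a l hl (by rw [map_mul]; exact hal))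
    (Wm_SeZ h hρ v) (Wm_SeZ h hρ w)

theorem trj_tau {n : ℕ} {T : Ω →ₗ[k] k} (h : IsCycle (2 * n + 1) 𝒜 δ T) (hρ : ∀ a, ρ a ∈ 𝒜 0)
    {τ : FreeMonoid G → k} (hτ : ∀ x y, τ (x * y) - τ (y * x) = ph T δ ρ x y) :
    TrJ k (pr G) n τ := by
  intro y x hx
  rw [ex_sub_fun, ← ex_single_mul', ← ex_mul_single, tau_ext hτ]
  exact T_mul_delta h (i := 0) (j := 0 + (n + 1)) (by omega) (Wa_one_Ev h hρ _)
    (Wa_Idl_pow h hρ (n + 1) hx 0 one_Ev)

end values

section scalar

variable {K : Type u1} [Field K] [CharZero K] {G : Type u2} [Group G]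
  {d : Type u3} [Fintype d] [DecidableEq d] {Ω : Type u4} [Ring Ω] [Algebra K Ω]
  {𝒜 : ℕ → Submodule K Ω} [GradedAlgebra 𝒜] {δ : Ω →ₗ[K] Ω} {ρ : MonoidAlgebra K G →ₐ[K] Ω}

theorem exists_tau {N : ℕ} {T : Ω →ₗ[K] K} (h : IsCycle N 𝒜 δ T) (hρ : ∀ a, ρ a ∈ 𝒜 0) :
    ∃ τ : FreeMonoid G → K, (∀ x y, τ (x * y) - τ (y * x) = ph T δ ρ x y) ∧
      ∀ w, τ w = 0 ∨ ∃ x y, x * y = w ∧ τ w = ph T δ ρ x y := by
  obtain ⟨t, ht, ht2⟩ := exists_pot' (fun x y : List G => ph T δ ρ (FreeMonoid.ofList x)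
    (FreeMonoid.ofList y)) (fun x y z => ph_cocycle h hρ (FreeMonoid.ofList x)
      (FreeMonoid.ofList y) (FreeMonoid.ofList z)) (fun y => ph_one h _) (by
        intro n x hn hx
        rw [nsmul_eq_mul] at hx
        rcases mul_eq_zero.1 hx with h1 | h1
        · exact absurd (by exact_mod_cast h1) hn
        · exact h1)
  refine ⟨fun w => t (FreeMonoid.toList w), fun x y => ht (FreeMonoid.toList x)
    (FreeMonoid.toList y), fun w => ?_⟩
  rcases ht2 (FreeMonoid.toList w) with h1 | ⟨x, y, hxy, h1⟩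
  · exact Or.inl h1
  · exact Or.inr ⟨FreeMonoid.ofList x, FreeMonoid.ofList y, hxy, h1⟩

/-- scalar valued cycles -/
theorem od_scalar {T : Ω →ₗ[K] K} (u v : Matrix d d (MonoidAlgebra K G)) (huv : u * v = 1)
    (hvu : v * u = 1) {n : ℕ} (h : IsCycle (2 * n + 1) 𝒜 δ T) (hρ : ∀ a, ρ a ∈ 𝒜 0)
    (hloc : ∀ g : G, (∀ (a : G) (l : List G), l.length = 2 * n + 1 → IsConj g (a * l.prod) →
        T (ρ (MonoidAlgebra.single a 1) *
          (l.map fun b => δ (ρ (MonoidAlgebra.single b 1))).prod) = 0) ∨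
      (Cen g ∧ ∃ s' : Finset K, ∀ (a : G) (l : List G), l.length = 2 * n + 1 →
        IsConj g (a * l.prod) → T (ρ (MonoidAlgebra.single a 1) *
          (l.map fun b => δ (ρ (MonoidAlgebra.single b 1))).prod) ∈
            AddSubgroup.closure (s' : Set K))) :
    prg n T δ (v.map ρ) (u.map ρ) = 0 := by
  classical
  obtain ⟨τ, hτ, hτ2⟩ := exists_tau h hρ
  have hJ : TrJ K (pr G) n τ := trj_tau h hρ hτ
  have hvalue : ∀ (g : G) (V : AddSubgroup K), (∀ (a : G) (l : List G), l.length = 2 * n + 1 →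
      IsConj g (a * l.prod) → T (ρ (MonoidAlgebra.single a 1) *
        (l.map fun b => δ (ρ (MonoidAlgebra.single b 1))).prod) ∈ V) →
      ∀ w, cut (pr G) (cl g) τ w ∈ V := by
    intro g V hV w
    unfold cut
    split_ifs with h3
    · rcases hτ2 w with h4 | ⟨x, y, hxy, h4⟩
      · rw [h4]
        exact V.zero_mem
      · rw [h4]
        refine ph_mem h hρ x y V (fun a l hl hal => ?_)
        apply hV a l hl
        rw [hal, hxy]
        exact ((cl_iff _ _).1 h3).symm
    · exact V.zero_mem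
  have hAll : ∀ g : G, tf (cut (pr G) (cl g) τ) ((EE u v) ^ (n + 1) - (EE v u) ^ (n + 1)) = 0 := by
    intro g
    rw [map_sub, sub_eq_zero]
    rcases hloc g with h1 | ⟨h1, s', hs'⟩
    · have h2 : cut (pr G) (cl g) τ = fun _ => 0 := by
        funext w
        have h3 := hvalue g ⊥ (fun a l hl hal => by
          rw [AddSubgroup.mem_bot]
          exact h1 a l hl hal) w
        rwa [AddSubgroup.mem_bot] at h3
      have h3 : ∀ X : Matrix d d (MonoidAlgebra K (FreeMonoid G)),
          tf (fun _ : FreeMonoid G => (0 : K)) X = 0 := by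
        intro X
        rw [tf_apply]
        refine Finset.sum_eq_zero fun i _ => ?_
        rw [ex_eq_sum]
        exact Finset.sum_eq_zero fun f _ => smul_zero _
      rw [h2, h3, h3]
    · have h2 := field_od n (τ := cut (pr G) (cl g) τ) (trj_cut hJ (cl g) (cl_comm g)) s'
        (hvalue g _ hs') u v huv hvu h1
      rwa [cut_cut] at h2
  have h2 := sum_classes (pr G) τ _ hAll
  have h3 := Tm_prg h hρ hτ u v huv
  rw [← h3]
  have h4 : VV n u v * u.map (sec K G) - u.map (sec K G) * VV n u v =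
      (EE u v) ^ (n + 1) - (EE v u) ^ (n + 1) := by
    rw [← one_sub_UV, ← one_sub_VU]
    abel
  rw [← map_sub, h4, h2]

end scalar

section module

variable {K : Type u1} [Field K] [CharZero K] {G : Type u2} [Group G]
  {d : Type u3} [Fintype d] [DecidableEq d] {Ω : Type u4} [Ring Ω] [Algebra K Ω]
  {𝒜 : ℕ → Submodule K Ω} [GradedAlgebra 𝒜] {δ : Ω →ₗ[K] Ω} {ρ : MonoidAlgebra K G →ₐ[K] Ω}
  {M : Type u5} [AddCommGroup M] [Module K M]

/-- cycles with values in a vector space -/
theorem od_module {T : Ω →ₗ[K] M} (u v : Matrix d d (MonoidAlgebra K G)) (huv : u * v = 1)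
    (hvu : v * u = 1) {n : ℕ} (h : IsCycle (2 * n + 1) 𝒜 δ T) (hρ : ∀ a, ρ a ∈ 𝒜 0)
    (hloc : ∀ g : G, (∀ (a : G) (l : List G), l.length = 2 * n + 1 → IsConj g (a * l.prod) →
        T (ρ (MonoidAlgebra.single a 1) *
          (l.map fun b => δ (ρ (MonoidAlgebra.single b 1))).prod) = 0) ∨
      (Cen g ∧ ∃ F' : Finset M, ∀ (a : G) (l : List G), l.length = 2 * n + 1 →
        IsConj g (a * l.prod) → T (ρ (MonoidAlgebra.single a 1) *
          (l.map fun b => δ (ρ (MonoidAlgebra.single b 1))).prod) ∈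
            AddSubgroup.closure (F' : Set M))) :
    prg n T δ (v.map ρ) (u.map ρ) = 0 := by
  classical
  rw [← Module.forall_dual_apply_eq_zero_iff K]
  intro φ
  refine od_scalar (T := φ ∘ₗ T) (ρ := ρ) u v huv hvu (Pool.Agent.H290R4.Chern.cycle_comp φ h) hρ
    (fun g => ?_)
  rcases hloc g with h2 | ⟨h2, F', hF'⟩
  · refine Or.inl fun a l hl hal => ?_
    rw [LinearMap.comp_apply, h2 a l hl hal, map_zero]
  · refine Or.inr ⟨h2, F'.image φ, fun a l hl hal => ?_⟩
    have h3 : ∀ x ∈ AddSubgroup.closure (F' : Set M),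
        φ x ∈ AddSubgroup.closure ((F'.image φ : Finset K) : Set K) := by
      intro x hx
      induction hx using AddSubgroup.closure_induction with
      | mem x hx =>
        apply AddSubgroup.subset_closure
        have : φ x ∈ F'.image φ := Finset.mem_image_of_mem _ (by exact_mod_cast hx)
        exact_mod_cast this
      | zero => rw [map_zero]; exact AddSubgroup.zero_mem _
      | add x y _ _ hx hy => rw [map_add]; exact AddSubgroup.add_mem _ hx hy
      | neg x _ hx => rw [map_neg]; exact AddSubgroup.neg_mem _ hx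
    exact h3 _ (hF' a l hl hal)

/-- all conditions only on a subgroup containing the supports -/
theorem od_group {T : Ω →ₗ[K] M} (u v : Matrix d d (MonoidAlgebra K G)) (huv : u * v = 1)
    (hvu : v * u = 1) (H : Subgroup G) (hHu : ∀ i j g, (u i j).coeff g ≠ 0 → g ∈ H)
    (hHv : ∀ i j g, (v i j).coeff g ≠ 0 → g ∈ H) {n : ℕ}
    (h : IsCycle (2 * n + 1) 𝒜 δ T) (hρ : ∀ a, ρ a ∈ 𝒜 0)
    (hloc : ∀ g : H,
      (∀ (a : H) (l : List H), l.length = 2 * n + 1 → IsConj g (a * l.prod) →
        T (ρ (MonoidAlgebra.single (a : G) 1) *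
          (l.map fun b : H => δ (ρ (MonoidAlgebra.single (b : G) 1))).prod) = 0) ∨
      (Cen g ∧ ∃ F' : Finset M, ∀ (a : H) (l : List H), l.length = 2 * n + 1 →
        IsConj g (a * l.prod) → T (ρ (MonoidAlgebra.single (a : G) 1) *
          (l.map fun b : H => δ (ρ (MonoidAlgebra.single (b : G) 1))).prod) ∈
            AddSubgroup.closure (F' : Set M))) :
    prg n T δ (v.map ρ) (u.map ρ) = 0 := by
  classical
  let j : MonoidAlgebra K H →ₐ[K] MonoidAlgebra K G :=
    MonoidAlgebra.mapDomainAlgHom K K H.subtype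
  have hj : Function.Injective j := MonoidAlgebra.mapDomain_injective H.subtype_injective
  let res : Matrix d d (MonoidAlgebra K G) → Matrix d d (MonoidAlgebra K H) := fun e =>
    Matrix.of fun a b => MonoidAlgebra.comapDomain H.subtype H.subtype_injective (e a b)
  have hres : ∀ e : Matrix d d (MonoidAlgebra K G), (∀ i j g, (e i j).coeff g ≠ 0 → g ∈ H) →
      (res e).map j = e := by
    intro e hH
    ext1 a b
    exact Pool.Agent.H290R4.ChernZ.restrict_eq H _ (fun g hg => hH a b g hg)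
  have hinv : ∀ a b : Matrix d d (MonoidAlgebra K H), a.map j * b.map j = 1 → a * b = 1 := by
    intro a b hab
    have h4 : (a * b).map j = (1 : Matrix d d (MonoidAlgebra K H)).map j := by
      rw [Matrix.map_mul, hab, Matrix.map_one _ (map_zero j) (map_one j)]
    ext1 i i'
    apply hj
    exact congrFun (congrFun h4 i) i'
  have h3 : ∀ x : H, (ρ.comp j) (MonoidAlgebra.single x 1) =
      ρ (MonoidAlgebra.single (x : G) 1) := by
    intro x
    simp [j]
  have h6 : ∀ l : List H, (l.map fun b => δ ((ρ.comp j) (MonoidAlgebra.single b 1))) =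
      (l.map fun b : H => δ (ρ (MonoidAlgebra.single (b : G) 1))) := by
    intro l
    refine List.map_congr_left fun b _ => ?_
    rw [h3]
  have key := od_module (G := H) (ρ := ρ.comp j) (T := T) (res u) (res v)
    (hinv _ _ (by rw [hres u hHu, hres v hHv, huv]))
    (hinv _ _ (by rw [hres u hHu, hres v hHv, hvu])) h (fun a => hρ _)
    (fun g => by
      rcases hloc g with h7 | ⟨h7, F', hF'⟩
      · refine Or.inl fun a l hl hal => ?_
        rw [h3, h6]
        exact h7 a l hl hal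
      · refine Or.inr ⟨h7, F', fun a l hl hal => ?_⟩
        rw [h3, h6]
        exact hF' a l hl hal)
  have h2 : ∀ e : Matrix d d (MonoidAlgebra K G), (∀ i j g, (e i j).coeff g ≠ 0 → g ∈ H) →
      (res e).map (ρ.comp j) = e.map ρ := by
    intro e hH
    conv_rhs => rw [← hres e hH]
    ext1 a b
    simp
  rw [h2 u hHu, h2 v hHv] at key
  exact key

end module

end Pool.Agent.Y84.PK
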