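import Pool.Agent.Y84.PK.Q
import Pool.Agent.Y84.PK.W

/-!
# The identity component over rings of characteristic `p`
-/

set_option autoImplicit false
set_option linter.unusedSectionVars false

namespace Pool.Agent.Y84.PK

open Finset Pool.Agent.H23R2 Pool.Agent.H23R2.Cyc
open Pool.Agent.H23R2.Ch (ex ex_single ex_eq_sum ex_one_single tf tf_apply cut cut_comm
  Idl Dif Hm Hm_mul Dif_Hm Dif_pow_Hm mul_mem_Idl mul_mem_Idl_pow single_eq_smul pr sec sec_single)
open Pool.Agent.H23R2.Odd (add_ppow one_symm exists_chi)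
open Pool.Agent.W647.K1 (mp mp_coeff tf_mp cut_ring)
open Pool.Agent.Y84.PH (mp_Idl)
open scoped Pointwise DirectSum

universe u u2

section fg

/-- homomorphisms from a finitely generated group to groups of exponent `p`, `p` large -/
theorem homs_fg (G : Type u2) [Group G] [hfg : Group.FG G] :
    ∃ (r : ℕ) (nn : Fin r → G → ℤ) (N : ℕ), 0 < N ∧
      (∀ i a b, nn i (a * b) = nn i a + nn i b) ∧
      ∀ p : ℕ, p.Prime → ¬ p ∣ N → ∀ (k : Type u) [CommRing k], (∀ x : k, p • x = 0) →
        ∀ χ : G → k, (∀ a b, χ (a * b) = χ a + χ b) →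
          ∃ m : Fin r → k, ∀ g, χ g = ∑ i, (nn i g : k) * m i := by
  classical
  have h1 : Group.FG (Abelianization G) :=
    Group.fg_of_surjective (f := Abelianization.of) (QuotientGroup.mk_surjective)
  have h2 : AddGroup.FG (Additive (Abelianization G)) := by
    infer_instance
  obtain ⟨r, ι, _, q, hq, e, ⟨E⟩⟩ :=
    AddCommGroup.equiv_free_prod_directSum_zmod (Additive (Abelianization G))
  let P : G → (Fin r →₀ ℤ) × ⨁ i : ι, ZMod (q i ^ e i) := fun g =>
    E (Additive.ofMul (Abelianization.of g))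
  have hP : ∀ a b, P (a * b) = P a + P b := by
    intro a b
    change E (Additive.ofMul (Abelianization.of (a * b))) = _
    rw [map_mul, ofMul_mul, map_add]
  refine ⟨r, fun i g => (P g).1 i, ∏ i, q i ^ e i, ?_, ?_, ?_⟩
  · exact Finset.prod_pos fun i _ => pow_pos (hq i).pos _
  · intro i a b
    beta_reduce
    rw [hP]
    rfl
  · intro p hp hpN k _ hM χ hχ
    let χm : G →* Multiplicative k :=
      { toFun := fun g => Multiplicative.ofAdd (χ g)
        map_one' := by
          have h3 := hχ 1 1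
          rw [mul_one] at h3
          rw [left_eq_add.1 h3]
          rfl
        map_mul' := fun a b => by rw [hχ]; rfl }
    let χ0 : Additive (Abelianization G) →+ k :=
      MonoidHom.toAdditiveLeft (Abelianization.lift χm)
    have hχ0 : ∀ g, χ0 (Additive.ofMul (Abelianization.of g)) = χ g := by
      intro g
      change Multiplicative.toAdd (Abelianization.lift χm (Abelianization.of g)) = _
      rw [Abelianization.lift_apply_of]
      rfl
    let ψ : ((Fin r →₀ ℤ) × ⨁ i : ι, ZMod (q i ^ e i)) →+ k := χ0.comp E.symm.toAddMonoidHom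
    have hψ : ∀ g, ψ (P g) = χ g := by
      intro g
      change χ0 (E.symm (E _)) = _
      rw [AddEquiv.symm_apply_apply, hχ0]
    have hN : ∀ t : ⨁ i : ι, ZMod (q i ^ e i), (∏ i, q i ^ e i) • t = 0 := by
      intro t
      apply DFinsupp.ext
      intro i
      have h3 : ((∏ i, q i ^ e i) • t) i = (∏ i, q i ^ e i) • (t i) := rfl
      rw [h3]
      obtain ⟨c, hc⟩ := Finset.dvd_prod_of_mem (fun i => q i ^ e i) (Finset.mem_univ i)
      rw [hc, mul_comm, mul_smul, nsmul_eq_mul (q i ^ e i), ZMod.natCast_self, zero_mul, smul_zero]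
      rfl
    have hz : ∀ t : ⨁ i : ι, ZMod (q i ^ e i), ψ (0, t) = 0 := by
      intro t
      have h3 : (∏ i, q i ^ e i) • ψ (0, t) = 0 := by
        rw [← map_nsmul]
        have h4 : (∏ i, q i ^ e i) • ((0, t) : (Fin r →₀ ℤ) × ⨁ i : ι, ZMod (q i ^ e i)) = 0 := by
          refine Prod.ext ?_ ?_
          · exact smul_zero _
          · exact hN t
        rw [h4, map_zero]
      have h4 : p • ψ (0, t) = 0 := hM _
      have h5 : addOrderOf (ψ (0, t)) ∣ 1 := by
        have h6 : Nat.Coprime p (∏ i, q i ^ e i) := (Nat.Prime.coprime_iff_not_dvd hp).2 hpN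
        rw [← h6]
        exact Nat.dvd_gcd (addOrderOf_dvd_iff_nsmul_eq_zero.2 h4)
          (addOrderOf_dvd_iff_nsmul_eq_zero.2 h3)
      exact AddMonoid.addOrderOf_eq_one_iff.1 (Nat.dvd_one.1 h5)
    refine ⟨fun i => ψ (Finsupp.single i 1, 0), fun g => ?_⟩
    have h3 : P g = ((P g).1, 0) + (0, (P g).2) := by
      refine Prod.ext ?_ ?_
      · exact (add_zero _).symm
      · exact (zero_add _).symm
    have h4 : ((P g).1, (0 : ⨁ i : ι, ZMod (q i ^ e i))) =
        ∑ i, ((P g).1 i) • (Finsupp.single i (1 : ℤ), (0 : ⨁ i : ι, ZMod (q i ^ e i))) := by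
      refine Prod.ext ?_ ?_
      · rw [Prod.fst_sum]
        ext i
        rw [Finsupp.finset_sum_apply, Finset.sum_eq_single i]
        · simp
        · intro j _ hj
          simp [Finsupp.single_apply, hj]
        · intro hi
          exact absurd (Finset.mem_univ i) hi
      · rw [Prod.snd_sum]
        simp
    rw [← hψ, h3, map_add, hz, add_zero, h4, map_sum]
    refine Finset.sum_congr rfl fun i _ => ?_
    rw [map_zsmul, zsmul_eq_mul]

end fg

section pm

variable {k : Type*} [CommRing k] {F : Type*} [Monoid F] {G : Type*} [Group G]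
  {d : Type*} [Fintype d] [DecidableEq d]

theorem pmk_sec (x : MonoidAlgebra k G) : pmk k (pr G) (sec k G x) = x := by
  induction x using MonoidAlgebra.induction_linear with
  | zero => simp
  | add x y hx hy => rw [map_add, map_add, hx, hy]
  | single g r => rw [sec_single, pmk_single]; simp [Pool.Agent.H23R2.Ch.pr]

theorem pmk_map_sec (u : Matrix d d (MonoidAlgebra k G)) :
    (u.map (sec k G)).map (pmk k (pr G)) = u := by
  ext1 i j
  exact pmk_sec _

theorem pmk_VV (n : ℕ) (u v : Matrix d d (MonoidAlgebra k G)) (huv : u * v = 1) :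
    (VV n u v).map (pmk k (pr G)) = v := by
  have h2 : ∀ w : Matrix d d (MonoidAlgebra k G),
      (pmk k (pr G)).mapMatrix (w.map (sec k G)) = w := by
    intro w
    ext1 i j
    exact pmk_sec _
  have h3 : (pmk k (pr G)).mapMatrix (EE u v) = 0 := by
    unfold EE
    rw [map_sub, map_mul, map_one, h2, h2, huv, sub_self]
  have h1 : (pmk k (pr G)).mapMatrix (VV n u v) = v := by
    unfold VV
    rw [map_mul, map_sum, Finset.sum_range_succ', h2, Finset.sum_eq_zero]
    · simp
    · intro j _
      rw [map_pow, h3, zero_pow (by omega)]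
  exact h1

theorem pmk_mp {k' : Type*} [CommRing k'] (φ : k →+* k') (π : F →* G) (x : MonoidAlgebra k F) :
    pmk k' π (mp F φ x) = mp G φ (pmk k π x) := by
  induction x using MonoidAlgebra.induction_linear with
  | zero => simp
  | add x y hx hy => simp only [map_add, hx, hy]
  | single f r =>
    rw [Pool.Agent.W647.K1.mp_single, pmk_single, pmk_single, Pool.Agent.W647.K1.mp_single]

/-- the Frobenius endomorphism -/
def frob {p : ℕ} (hp : p.Prime) (hM : ∀ x : k, p • x = 0) : k →+* k where
  toFun a := a ^ p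
  map_one' := one_pow p
  map_mul' a b := mul_pow a b p
  map_zero' := zero_pow hp.ne_zero
  map_add' a b := by
    obtain ⟨r, hr⟩ := exists_add_pow_prime_eq hp a b
    rw [hr, mul_assoc, mul_assoc, ← nsmul_eq_mul, hM, add_zero]

theorem ex_int (τ : F → k) (z : MonoidAlgebra ℤ F) :
    ex (k := k) τ (mp F (Int.castRingHom k) z) = ex (k := ℤ) τ z := by
  induction z using MonoidAlgebra.induction_linear with
  | zero => simp
  | add x y hx hy => rw [map_add, map_add, map_add, hx, hy]
  | single f r =>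
    rw [Pool.Agent.W647.K1.mp_single, ex_single, ex_single, eq_intCast, zsmul_eq_mul, smul_eq_mul]

/-- **Existence of the character.** -/
theorem exists_chi' {p : ℕ} [hp : Fact p.Prime] (hM : ∀ x : k, p • x = 0) (π : F →* G)
    (hπ : Function.Surjective π) {n : ℕ} (hn : n + 1 ≤ p) {τ : F → k} (hJ : TrJ k π n τ) :
    ∃ χ : G → k, (∀ a b, χ (a * b) = χ a + χ b) ∧ ∀ f h, π f * π h = 1 →
      τ ((f * h) ^ p) - τ ((h * f) ^ p) = χ (π f) := by
  refine exists_chi hM π hπ hn τ (fun x a ha => ?_)
  have h1 : ∀ z w : MonoidAlgebra ℤ F, ex (k := ℤ) τ (z * w) =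
      ex (k := k) τ (mp F (Int.castRingHom k) z * mp F (Int.castRingHom k) w) := by
    intro z w
    rw [← ex_int, map_mul]
  have h2 : mp F (Int.castRingHom k) a ∈ (Idl k π) ^ (n + 1) :=
    mp_Idl (Int.castRingHom k) π (n + 1) ha
  rw [h1, h1, trj_comm hJ (mp F (Int.castRingHom k) x) h2]

/-- the value of the identity component -/
theorem one_char {p : ℕ} [hp : Fact p.Prime] (hM : ∀ x : k, p • x = 0)
    (hG : ∀ g : G, g ^ p = 1 → g = 1) {τ : FreeMonoid G → k} {n : ℕ}
    (hJ : TrJ k (pr G) n τ)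
    (hb : ∀ x ∈ Idl k (pr G), ∀ y ∈ (Idl k (pr G)) ^ (p - 1), ex τ (x * y) = ex τ (y * x))
    {χ : G → k} (hχ : ∀ f h, pr G f * pr G h = 1 → τ ((f * h) ^ p) - τ ((h * f) ^ p) = χ (pr G f))
    {r : ℕ} (nn : Fin r → G → ℤ) (m : Fin r → k) (hm : ∀ g, χ g = ∑ i, (nn i g : k) * m i)
    (γ : G) (u v : Matrix d d (MonoidAlgebra k G)) (huv : u * v = 1) (hvu : v * u = 1)
    (hγ : ∀ i, lamk (fun g => (nn i g : k)) v u = (nn i γ : k)) :
    tf (cut (pr G) (fun h => h = 1) τ) ((EE u v) ^ (n + 1)) -
      tf (cut (pr G) (fun h => h = 1) τ) ((EE v u) ^ (n + 1)) = ((-1 : ℤ) ^ (p - 1)) • χ γ := by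
  classical
  have h1 := part_one' hM (pr G) (frob hp.out hM) (fun _ => rfl) hG hJ hb (VV n u v)
    (u.map (sec k G))
    (fun i j => by
      rw [VU_eq, Matrix.neg_apply]
      exact Submodule.neg_mem _ (EE_pow_mem v u hvu (n + 1) i j))
    (fun i j => by
      rw [UV_eq, Matrix.neg_apply]
      exact Submodule.neg_mem _ (EE_pow_mem u v huv (n + 1) i j))
  have h2 : tf (cut (pr G) (fun h => h = 1) τ) ((EE u v) ^ (n + 1)) -
      tf (cut (pr G) (fun h => h = 1) τ) ((EE v u) ^ (n + 1)) =
      tf (cut (pr G) (fun h => h = 1) τ) (VV n u v * u.map (sec k G)) -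
        tf (cut (pr G) (fun h => h = 1) τ) (u.map (sec k G) * VV n u v) := by
    rw [← one_sub_UV, ← one_sub_VU, map_sub, map_sub]
    abel
  have h3 := tf_lam (pr G) (pw' (pr G) τ p) χ (by
    intro f h
    unfold pw' cut
    by_cases hfh : pr G f * pr G h = 1
    · have hhf := (one_symm _ _).mp hfh
      rw [if_pos (by rw [map_pow, map_mul, hfh, one_pow]),
        if_pos (by rw [map_pow, map_mul, hhf, one_pow]), if_pos hfh, hχ f h hfh]
    · have hhf : ¬ (pr G h * pr G f = 1) := fun e => hfh ((one_symm _ _).mp e)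
      rw [if_neg, if_neg, if_neg hfh, sub_zero]
      · intro e
        rw [map_pow, map_mul] at e
        exact hhf (hG _ e)
      · intro e
        rw [map_pow, map_mul] at e
        exact hfh (hG _ e))
    ((VV n u v).map (mp (FreeMonoid G) (frob hp.out hM)))
    ((u.map (sec k G)).map (mp (FreeMonoid G) (frob hp.out hM)))
  have h4 : ∀ X : Matrix d d (MonoidAlgebra k (FreeMonoid G)),
      (X.map (mp (FreeMonoid G) (frob hp.out hM))).map (pmk k (pr G)) =
        (X.map (pmk k (pr G))).map (mp G (frob hp.out hM)) := by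
    intro X
    ext1 i j
    exact pmk_mp _ _ _
  have h5 : χ = fun g => ∑ i, (nn i g : k) * m i := funext hm
  rw [h2, h1, h3, h4, h4, pmk_VV n u v huv, pmk_map_sec, h5, lamk_sum]
  congr 1
  refine Finset.sum_congr rfl fun i _ => ?_
  congr 1
  have h6 := lamk_mp (frob hp.out hM) (fun g => (nn i g : k)) v u
  simp only [map_intCast] at h6
  rw [h6, hγ i, map_intCast]

end pm

end Pool.Agent.Y84.PK
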