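import Pool.Agent.Y84.PK.R

/-!
# Reduction modulo `p` of the class components over fields of characteristic zero
-/

set_option autoImplicit false
set_option linter.unusedSectionVars false

namespace Pool.Agent.Y84.PK

open Finset Pool.Agent.H23R2 Pool.Agent.H23R2.Cyc
open Pool.Agent.H23R2.Ch (ex ex_single ex_eq_sum ex_one_single tf tf_apply cut cut_comm
  Idl Dif Hm Hm_mul Dif_Hm Dif_pow_Hm mul_mem_Idl mul_mem_Idl_pow single_eq_smul pr sec sec_single)
open Pool.Agent.H23R2.Odd (one_symm)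
open Pool.Agent.W647.K1 (mp mp_coeff mp_inj tf_mp cut_ring ex_mp Dif_image Dif_pow_image cl cl_iff
  cl_comm)
open Pool.Agent.Y84.PH (mp_Idl exists_lift_one)
open Pool.Agent.Y84.PT (exists_coeff_finset)
open scoped Pointwise

universe u1 u2 u3 u4

section trB

variable {S S' : Type*} [CommRing S] [CommRing S'] {F : Type*} [Monoid F] {G : Type*} [Group G]
  {η : F →* G} {m : ℕ}

/-- `τ` is a trace on `I × I ^ m` -/
def TrB (k : Type*) [CommRing k] {F : Type*} [Monoid F] {G : Type*} [Group G] (η : F →* G) (m : ℕ)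
    (τ : F → k) : Prop :=
  ∀ x ∈ Idl k η, ∀ y ∈ (Idl k η) ^ m, ex (k := k) τ (x * y) = ex (k := k) τ (y * x)

theorem trb_push (ψ : S →+* S') {τ : F → S} (h : TrB S η m τ) :
    TrB S' η m (fun w => ψ (τ w)) := by
  intro x hx y hy
  unfold Idl at hx hy
  rw [Submodule.span_pow] at hy
  refine span_comm' (ex (k := S') fun w => ψ (τ w)) _ _ ?_ hx hy
  intro x hx y hy
  rw [← Dif_image ψ η] at hx
  rw [← Dif_pow_image ψ η m] at hy
  obtain ⟨x0, hx0, rfl⟩ := hx
  obtain ⟨y0, hy0, rfl⟩ := hy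
  have h1 := h x0 (Submodule.subset_span hx0) y0 (by
    unfold Idl
    rw [Submodule.span_pow]
    exact Submodule.subset_span hy0)
  rw [← map_mul, ← map_mul, ex_mp, ex_mp, h1]

theorem trb_pull (ψ : S →+* S') (hψ : Function.Injective ψ) {τ : F → S}
    (h : TrB S' η m (fun w => ψ (τ w))) : TrB S η m τ := by
  intro x hx y hy
  apply hψ
  have h1 := h (mp F ψ x) (by
    have h2 := mp_Idl ψ η 1 (x := x) (by rwa [pow_one])
    rwa [pow_one] at h2) (mp F ψ y) (mp_Idl ψ η m hy)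
  rw [← map_mul, ← map_mul, ex_mp, ex_mp] at h1
  exact h1

end trB

section nat

variable {S S' : Type*} [CommRing S] [CommRing S'] {G : Type*} [Group G] {d : Type*} [Fintype d]
  [DecidableEq d]

/-- the difference of the two traces -/
noncomputable def dif (τ : FreeMonoid G → S) (n : ℕ) (u v : Matrix d d (MonoidAlgebra S G)) : S :=
  tf τ ((EE u v) ^ (n + 1)) - tf τ ((EE v u) ^ (n + 1))

theorem dif_mp (ψ : S →+* S') (c : G → Prop) (τ : FreeMonoid G → S) (n : ℕ)
    (u v : Matrix d d (MonoidAlgebra S G)) :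
    dif (cut (pr G) c fun w => ψ (τ w)) n (u.map (mp G ψ)) (v.map (mp G ψ)) =
      ψ (dif (cut (pr G) c τ) n u v) := by
  unfold dif
  rw [map_sub, ← EE_mp, ← EE_mp, cut_ring, tf_mp, tf_mp]

theorem dif_eq (τ : FreeMonoid G → S) (n : ℕ) (u v : Matrix d d (MonoidAlgebra S G)) :
    dif τ n u v = tf τ (VV n u v * u.map (sec S G)) - tf τ (u.map (sec S G) * VV n u v) := by
  unfold dif
  rw [← one_sub_UV, ← one_sub_VU, map_sub, map_sub]
  abel

theorem VU_mem (n : ℕ) (u v : Matrix d d (MonoidAlgebra S G)) (hvu : v * u = 1) (i j : d) :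
    (VV n u v * u.map (sec S G) - 1) i j ∈ (Idl S (pr G)) ^ (n + 1) := by
  rw [VU_eq, Matrix.neg_apply]
  exact Submodule.neg_mem _ (EE_pow_mem v u hvu (n + 1) i j)

theorem UV_mem (n : ℕ) (u v : Matrix d d (MonoidAlgebra S G)) (huv : u * v = 1) (i j : d) :
    (u.map (sec S G) * VV n u v - 1) i j ∈ (Idl S (pr G)) ^ (n + 1) := by
  rw [UV_eq, Matrix.neg_apply]
  exact Submodule.neg_mem _ (EE_pow_mem u v huv (n + 1) i j)

theorem map_one_of {ψ : S →+* S'} {a b : Matrix d d (MonoidAlgebra S G)} (hab : a * b = 1) :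
    a.map (mp G ψ) * b.map (mp G ψ) = 1 := by
  have h4 := congrArg (mp G ψ).mapMatrix hab
  rw [map_mul, map_one] at h4
  exact h4

theorem one_of_map {ψ : S →+* S'} (hψ : Function.Injective ψ)
    {a b : Matrix d d (MonoidAlgebra S G)} (hab : a.map (mp G ψ) * b.map (mp G ψ) = 1) :
    a * b = 1 := by
  have h4 : (mp G ψ).mapMatrix (a * b) = (mp G ψ).mapMatrix 1 := by
    rw [map_mul, map_one]
    exact hab
  ext1 i j
  apply mp_inj ψ hψ
  exact congrFun (congrFun h4 i) j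

theorem quot_exp (p : ℕ) (y : S ⧸ Ideal.span {(p : S)}) : p • y = 0 := by
  obtain ⟨y, rfl⟩ := Ideal.Quotient.mk_surjective y
  rw [← map_nsmul, nsmul_eq_mul, Ideal.Quotient.eq_zero_iff_mem]
  exact Ideal.mul_mem_right _ _ (Ideal.mem_span_singleton_self _)

theorem quot_zero (p : ℕ) (y : S) (h : Ideal.Quotient.mk (Ideal.span {(p : S)}) y = 0) :
    ∃ z, y = p * z := by
  rw [Ideal.Quotient.eq_zero_iff_mem, Ideal.mem_span_singleton] at h
  exact h

end nat

section field

variable {K : Type u1} [Field K] [CharZero K] {G : Type u2} [Group G] {d : Type u3} [Fintype d]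
  [DecidableEq d]

theorem lift_mat {R : Subalgebra ℤ K} (w : Matrix d d (MonoidAlgebra K G))
    (hw : ∀ i j g, (w i j).coeff g ∈ R) :
    ∃ w' : Matrix d d (MonoidAlgebra R G), w'.map (mp G (algebraMap R K)) = w := by
  have h1 : ∀ i j, ∃ y : MonoidAlgebra R G, mp G (algebraMap R K) y = w i j := fun i j =>
    exists_lift_one (algebraMap R K) (w i j) (fun g => ⟨⟨_, hw i j g⟩, rfl⟩)
  choose w0 hw0 using h1
  refine ⟨Matrix.of w0, ?_⟩
  ext1 i j
  exact hw0 i j

/-- classes of elements which are not almost divisible -/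
theorem class_prime {n : ℕ} {τ : FreeMonoid G → K} (hJ : TrJ K (pr G) n τ) (s : Finset K)
    (hτ : ∀ w, τ w ∈ Algebra.adjoin ℤ (s : Set K)) (u v : Matrix d d (MonoidAlgebra K G))
    (huv : u * v = 1) (hvu : v * u = 1) (c : G → Prop) (hc : ∀ x y, c (x * y) ↔ c (y * x))
    (hinf : {p : ℕ | p.Prime ∧ ∀ h : G, ∃ κ₀ : ℕ, ∀ κ, κ₀ ≤ κ → ¬ c (h ^ p ^ κ)}.Infinite) :
    dif (cut (pr G) c τ) n u v = 0 := by
  classical
  by_contra hx
  set x : K := dif (cut (pr G) c τ) n u v with hxdef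
  obtain ⟨U1, hU1⟩ := exists_coeff_finset u
  obtain ⟨U2, hU2⟩ := exists_coeff_finset v
  set W : Finset K := (U1 ∪ U2) ∪ s with hW
  let R : Subalgebra ℤ K := Algebra.adjoin ℤ (W : Set K)
  have hWR : ∀ y ∈ W, y ∈ R := fun y hy => Algebra.subset_adjoin (by exact_mod_cast hy)
  obtain ⟨uR, huR⟩ := lift_mat (R := R) u (fun i j g => hWR _
    (Finset.mem_union_left _ (Finset.mem_union_left _ (hU1 i j g))))
  obtain ⟨vR, hvR⟩ := lift_mat (R := R) v (fun i j g => hWR _
    (Finset.mem_union_left _ (Finset.mem_union_right _ (hU2 i j g))))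
  have hι : Function.Injective (algebraMap R K) := Subtype.val_injective
  have huvR : uR * vR = 1 := one_of_map hι (by rw [huR, hvR, huv])
  have hvuR : vR * uR = 1 := one_of_map hι (by rw [huR, hvR, hvu])
  have hsR : ∀ w, τ w ∈ R := fun w => Algebra.adjoin_mono (by
    rw [hW]
    push_cast
    exact Set.subset_union_right) (hτ w)
  let τR : FreeMonoid G → R := fun w => ⟨τ w, hsR w⟩
  have hJR : TrJ R (pr G) n τR := trj_pull (algebraMap R K) hι hJ
  have hxR : algebraMap R K (dif (cut (pr G) c τR) n uR vR) = x := by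
    rw [← dif_mp, huR, hvR]
    rfl
  obtain ⟨p, ⟨hp, hpc⟩, hpn⟩ := (hinf.sdiff (finite_dvd_primes W x hx)).nonempty
  have hpf : Fact p.Prime := ⟨hp⟩
  let q : R →+* R ⧸ Ideal.span {(p : R)} := Ideal.Quotient.mk _
  have h0 : q (dif (cut (pr G) c τR) n uR vR) = 0 := by
    rw [← dif_mp, dif_eq]
    exact part_rest' (quot_exp p) (trj_push q hJR) c hc hpc _ _
      (VU_mem n _ _ (map_one_of hvuR)) (UV_mem n _ _ (map_one_of huvR))
  obtain ⟨z, hz⟩ := quot_zero p _ h0
  apply hpn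
  refine ⟨hp, (z : K), z.2, ?_⟩
  rw [← hxR, hz, map_mul, map_natCast]
  rfl

/-- conjugacy classes -/
theorem class_prime' {n : ℕ} {τ : FreeMonoid G → K} (hJ : TrJ K (pr G) n τ) (s : Finset K)
    (hτ : ∀ w, τ w ∈ Algebra.adjoin ℤ (s : Set K)) (u v : Matrix d d (MonoidAlgebra K G))
    (huv : u * v = 1) (hvu : v * u = 1) (g : G)
    (hinf : {p : ℕ | p.Prime ∧ ∀ j, 1 ≤ j → ¬ IsConj g (g ^ p ^ j)}.Infinite) :
    dif (cut (pr G) (cl g) τ) n u v = 0 := by
  refine class_prime hJ s hτ u v huv hvu (cl g) (cl_comm g) (hinf.mono ?_)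
  rintro p ⟨hp, hj⟩
  refine ⟨hp, fun h => ?_⟩
  by_cases hh : ∃ κ : ℕ, IsConj (h ^ p ^ κ) g
  · obtain ⟨κ, hκ⟩ := hh
    refine ⟨κ + 1, fun κ' hκ' hcl => ?_⟩
    obtain ⟨i, rfl⟩ := Nat.exists_eq_add_of_le hκ'
    refine hj (1 + i) (by omega) ?_
    have h1 : IsConj ((h ^ p ^ κ) ^ p ^ (1 + i)) (g ^ p ^ (1 + i)) := hκ.pow _
    have h2 : (h ^ p ^ κ) ^ p ^ (1 + i) = h ^ p ^ (κ + 1 + i) := by
      rw [← pow_mul, ← pow_add, add_assoc]
    rw [h2] at h1
    exact ((cl_iff _ _).1 hcl).symm.trans h1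
  · push Not at hh
    exact ⟨0, fun κ _ hcl => hh κ ((cl_iff _ _).1 hcl)⟩

/-- **The identity component.** -/
theorem one_field [Group.FG G] {n : ℕ} {τ : FreeMonoid G → K} (hJ : TrJ K (pr G) n τ)
    (hB : ∀ m, n ≤ m → TrB K (pr G) m τ) (s : Finset K)
    (hτ : ∀ w, τ w ∈ Algebra.adjoin ℤ (s : Set K))
    (hinf : {p : ℕ | p.Prime ∧ ∀ g : G, g ^ p = 1 → g = 1}.Infinite) (γ : G)
    (u v : Matrix d d (MonoidAlgebra K G)) (huv : u * v = 1) (hvu : v * u = 1)
    (hγ : ∀ φ : G → ℤ, (∀ a b, φ (a * b) = φ a + φ b) → lamk (fun g => (φ g : K)) v u = (φ γ : K))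
    {d' : Type u4} [Fintype d'] [DecidableEq d']
    (u' v' : Matrix d' d' (MonoidAlgebra K G)) (huv' : u' * v' = 1) (hvu' : v' * u' = 1)
    (hγ' : ∀ φ : G → ℤ, (∀ a b, φ (a * b) = φ a + φ b) →
      lamk (fun g => (φ g : K)) v' u' = (φ γ : K)) :
    dif (cut (pr G) (fun h => h = 1) τ) n u v = dif (cut (pr G) (fun h => h = 1) τ) n u' v' := by
  classical
  rw [← sub_eq_zero]
  by_contra hx
  set x : K := dif (cut (pr G) (fun h => h = 1) τ) n u v -
    dif (cut (pr G) (fun h => h = 1) τ) n u' v' with hxdef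
  obtain ⟨U1, hU1⟩ := exists_coeff_finset u
  obtain ⟨U2, hU2⟩ := exists_coeff_finset v
  obtain ⟨U3, hU3⟩ := exists_coeff_finset u'
  obtain ⟨U4, hU4⟩ := exists_coeff_finset v'
  set W : Finset K := ((U1 ∪ U2) ∪ (U3 ∪ U4)) ∪ s with hW
  let R : Subalgebra ℤ K := Algebra.adjoin ℤ (W : Set K)
  have hWR : ∀ y ∈ W, y ∈ R := fun y hy => Algebra.subset_adjoin (by exact_mod_cast hy)
  obtain ⟨uR, huR⟩ := lift_mat (R := R) u (fun i j g => hWR _
    (Finset.mem_union_left _ (Finset.mem_union_left _ (Finset.mem_union_left _ (hU1 i j g)))))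
  obtain ⟨vR, hvR⟩ := lift_mat (R := R) v (fun i j g => hWR _
    (Finset.mem_union_left _ (Finset.mem_union_left _ (Finset.mem_union_right _ (hU2 i j g)))))
  obtain ⟨uR', huR'⟩ := lift_mat (R := R) u' (fun i j g => hWR _
    (Finset.mem_union_left _ (Finset.mem_union_right _ (Finset.mem_union_left _ (hU3 i j g)))))
  obtain ⟨vR', hvR'⟩ := lift_mat (R := R) v' (fun i j g => hWR _
    (Finset.mem_union_left _ (Finset.mem_union_right _ (Finset.mem_union_right _ (hU4 i j g)))))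
  have hι : Function.Injective (algebraMap R K) := Subtype.val_injective
  have huvR : uR * vR = 1 := one_of_map hι (by rw [huR, hvR, huv])
  have hvuR : vR * uR = 1 := one_of_map hι (by rw [huR, hvR, hvu])
  have huvR' : uR' * vR' = 1 := one_of_map hι (by rw [huR', hvR', huv'])
  have hvuR' : vR' * uR' = 1 := one_of_map hι (by rw [huR', hvR', hvu'])
  have hsR : ∀ w, τ w ∈ R := fun w => Algebra.adjoin_mono (by
    rw [hW]
    push_cast
    exact Set.subset_union_right) (hτ w)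
  let τR : FreeMonoid G → R := fun w => ⟨τ w, hsR w⟩
  have hJR : TrJ R (pr G) n τR := trj_pull (algebraMap R K) hι hJ
  have hBR : ∀ m, n ≤ m → TrB R (pr G) m τR := fun m hm =>
    trb_pull (algebraMap R K) hι (hB m hm)
  have hxR : algebraMap R K (dif (cut (pr G) (fun h => h = 1) τR) n uR vR -
      dif (cut (pr G) (fun h => h = 1) τR) n uR' vR') = x := by
    rw [map_sub, ← dif_mp, ← dif_mp, huR, hvR, huR', hvR']
    rfl
  obtain ⟨r, nn, N, hN, hnn, hχm⟩ := homs_fg.{u1, u2} G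
  have hbad : {p : ℕ | p ∣ N ∨ p ≤ n}.Finite :=
    ((Nat.divisors N).finite_toSet.union (Set.finite_Iic n)).subset (by
      rintro p (hp | hp)
      · exact Or.inl (by exact_mod_cast Nat.mem_divisors.2 ⟨hp, hN.ne'⟩)
      · exact Or.inr hp)
  obtain ⟨p, ⟨hp, hpG⟩, hpn⟩ :=
    (hinf.sdiff ((finite_dvd_primes W x hx).union hbad)).nonempty
  have hpn1 : ¬ p ∣ N := fun h => hpn (Or.inr (Or.inl h))
  have hpn2 : n + 1 ≤ p := by
    by_contra hcon
    exact hpn (Or.inr (Or.inr (by omega)))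
  have hpf : Fact p.Prime := ⟨hp⟩
  let q : R →+* R ⧸ Ideal.span {(p : R)} := Ideal.Quotient.mk _
  have hlamR : ∀ {e : Type _} [Fintype e] [DecidableEq e]
      (a b : Matrix e e (MonoidAlgebra K G)) (aR bR : Matrix e e (MonoidAlgebra R G)),
      aR.map (mp G (algebraMap R K)) = a → bR.map (mp G (algebraMap R K)) = b →
      ∀ i, lamk (fun g => (nn i g : K)) b a = (nn i γ : K) →
      lamk (fun g => (nn i g : R ⧸ Ideal.span {(p : R)})) (bR.map (mp G q)) (aR.map (mp G q)) =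
        (nn i γ : R ⧸ Ideal.span {(p : R)}) := by
    intro e _ _ a b aR bR ha hb i hi
    have h1 := lamk_mp (algebraMap R K) (fun g => (nn i g : R)) bR aR
    simp only [map_intCast] at h1
    rw [ha, hb, hi] at h1
    have h2 : lamk (fun g => (nn i g : R)) bR aR = (nn i γ : R) := by
      apply hι
      rw [← h1, map_intCast]
    have h3 := lamk_mp q (fun g => (nn i g : R)) bR aR
    simp only [map_intCast] at h3
    rw [h3, h2, map_intCast]
  have hlamR' : ∀ (a b : Matrix d' d' (MonoidAlgebra K G))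
      (aR bR : Matrix d' d' (MonoidAlgebra R G)),
      aR.map (mp G (algebraMap R K)) = a → bR.map (mp G (algebraMap R K)) = b →
      ∀ i, lamk (fun g => (nn i g : K)) b a = (nn i γ : K) →
      lamk (fun g => (nn i g : R ⧸ Ideal.span {(p : R)})) (bR.map (mp G q)) (aR.map (mp G q)) =
        (nn i γ : R ⧸ Ideal.span {(p : R)}) := by
    intro a b aR bR ha hb i hi
    have h1 := lamk_mp (algebraMap R K) (fun g => (nn i g : R)) bR aR
    simp only [map_intCast] at h1
    rw [ha, hb, hi] at h1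
    have h2 : lamk (fun g => (nn i g : R)) bR aR = (nn i γ : R) := by
      apply hι
      rw [← h1, map_intCast]
    have h3 := lamk_mp q (fun g => (nn i g : R)) bR aR
    simp only [map_intCast] at h3
    rw [h3, h2, map_intCast]
  have hπ : Function.Surjective (pr G) := fun g =>
    ⟨FreeMonoid.of g, by simp [Pool.Agent.H23R2.Ch.pr]⟩
  have hJq := trj_push q hJR
  have hBq : TrB _ (pr G) (p - 1) (fun w => q (τR w)) := trb_push q (hBR (p - 1) (by omega))
  obtain ⟨χ, hχ1, hχ2⟩ := exists_chi' (quot_exp p) (pr G) hπ hpn2 hJq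
  obtain ⟨m, hm⟩ := hχm p hp hpn1 _ (quot_exp p) χ hχ1
  have h0 : q (dif (cut (pr G) (fun h => h = 1) τR) n uR vR -
      dif (cut (pr G) (fun h => h = 1) τR) n uR' vR') = 0 := by
    rw [map_sub, ← dif_mp, ← dif_mp]
    have e1 := one_char (quot_exp p) hpG hJq hBq hχ2 nn m hm γ (uR.map (mp G q))
      (vR.map (mp G q)) (map_one_of huvR) (map_one_of hvuR)
      (fun i => hlamR u v uR vR huR hvR i (hγ (nn i) (hnn i)))
    have e2 := one_char (quot_exp p) hpG hJq hBq hχ2 nn m hm γ (uR'.map (mp G q))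
      (vR'.map (mp G q)) (map_one_of huvR') (map_one_of hvuR')
      (fun i => hlamR' u' v' uR' vR' huR' hvR' i (hγ' (nn i) (hnn i)))
    unfold dif
    rw [e1, e2, sub_self]
  obtain ⟨z, hz⟩ := quot_zero p _ h0
  apply hpn
  refine Or.inl ⟨hp, (z : K), z.2, ?_⟩
  rw [← hxR, hz, map_mul, map_natCast]
  rfl

end field

end Pool.Agent.Y84.PK
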