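import Pool.Agent.Y84.PK.Y

/-!
# Cyclic one-cocycles over fields of characteristic zero: all classes
-/

set_option autoImplicit false
set_option linter.unusedSectionVars false

namespace Pool.Agent.Y84.PK

section old

open Finset H219.WhC
open Pool.Agent.H23R2 (InvPair IsCoc Y sum_Y_eq isCoc_of_hochschild resS finite_dvd_primes jacobi)
open H219.WhR (coc_pow rest rest_coc)
open scoped Classical

variable {K : Type*} [Field K] [CharZero K] {Γ : Type*} [Group Γ] {n : ℕ}

/-- only the pairs with product `1` contribute -/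
theorem vanish_units' (A : (Matrix (Fin n) (Fin n) (MonoidAlgebra K Γ))ˣ) (s : Finset K)
    (f : Γ → Γ → K) (hs : ∀ x y, f x y ∈ Algebra.adjoin ℤ (s : Set K))
    (hf : ∀ x y z : Γ, f (x * y) z - f x (y * z) + f (z * x) y = 0) (hf1 : ∀ g, f 1 g = 0)
    (hΓ : ∀ g ∈ grpF A, g ≠ 1 → (∃ x, f (x⁻¹ * g) x ≠ 0) →
      {p : ℕ | p.Prime ∧ ∀ j, 1 ≤ j → ∀ c ∈ grpF A, c * g * c⁻¹ ≠ g ^ p ^ j}.Infinite) :
    pairing f (A⁻¹).val A.val =
      pairing (fun g h => if g * h = 1 then f g h else 0) (A⁻¹).val A.val := by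
  set S : Finset Γ := suppF A with hS
  have hA : ∀ i j g, (A.val i j).coeff g ≠ 0 → g ∈ S := fun i j g hg =>
    Finset.mem_union_left _ (mem_supp _ i j g hg)
  have hB : ∀ i j g, ((A⁻¹).val i j).coeff g ≠ 0 → g ∈ S :=
    fun i j g hg => Finset.mem_union_right _ (mem_supp _ i j g hg)
  rw [pairing_eq f (A⁻¹).val A.val S hA hB, pairing_eq _ (A⁻¹).val A.val S hA hB]
  have hpair : InvPair (cf A.val) (cf (A⁻¹).val) S := invPair_units A
  have hcoc := isCoc_of_hochschild f hf
  let R₀ : Subalgebra ℤ K := Algebra.adjoin ℤ ((s ∪ coefs A : Finset K) : Set K)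
  let a0 : Fin n → Fin n → Γ → R₀ := fun i j g => ⟨cf A.val i j g, cf_mem A s i j g⟩
  let b0 : Fin n → Fin n → Γ → R₀ := fun i j g => ⟨cf (A⁻¹).val i j g, cf_mem' A s i j g⟩
  have hmono : ∀ x ∈ Algebra.adjoin ℤ (s : Set K), x ∈ R₀ := fun x hx =>
    Algebra.adjoin_mono (by intro y hy; simp only [Finset.coe_union]; exact Or.inl hy) hx
  have hpair0 : InvPair a0 b0 S :=
    invPair_of_injective (R₀.val : R₀ →+* K) Subtype.val_injective hpair
  let FΓ : Γ → Γ → R₀ := fun w x => ⟨f (x⁻¹ * w) x, hmono _ (hs _ _)⟩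
  let F0 : Subgroup.closure (S : Set Γ) → Subgroup.closure (S : Set Γ) → R₀ :=
    fun w x => FΓ w.1 x.1
  have hF0 : IsCoc F0 := by
    intro w x y
    apply Subtype.ext
    exact hcoc w.1 x.1 y.1
  have hb0 : ∀ w, F0 w w = 0 := by
    intro w
    apply Subtype.ext
    show f (w.1⁻¹ * w.1) w.1 = 0
    rw [inv_mul_cancel]
    exact hf1 _
  have htf : ∀ (p : ℕ), p.Prime → ∀ y : R₀, p • y = 0 → y = 0 := by
    intro p hp y hy
    apply Subtype.ext
    have h1 := congrArg Subtype.val hy
    have h2 : (p : K) * y.1 = 0 := by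
      rw [← nsmul_eq_mul]
      exact h1
    rcases mul_eq_zero.1 h2 with h3 | h3
    · exact absurd (by exact_mod_cast h3) hp.ne_zero
    · exact h3
  have hmain := cyc_mainC (invPair_res hpair0) hF0 hb0 (by
    rintro g hg ⟨x0, hx0⟩ x hx
    have hx' : x.1 ≠ 0 := fun h0 => hx (Subtype.ext h0)
    have hfin := (finite_dvd_primes (s ∪ coefs A) x.1 hx').union (Set.finite_singleton 2)
    have hinf := hΓ g.1 g.2 (fun h0 => hg (Subtype.ext h0))
      ⟨x0.1, fun h0 => hx0 (Subtype.ext h0)⟩
    obtain ⟨p, hp, hpn⟩ := (hinf.sdiff hfin).nonempty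
    refine ⟨p, hp.1, ?_, htf p hp.1, ?_, ?_⟩
    · rintro rfl
      exact hpn (Or.inr rfl)
    · intro y hy
      apply hpn
      left
      refine ⟨hp.1, y.1, y.2, ?_⟩
      rw [← hy, ← nsmul_eq_mul]
      rfl
    · intro j hj c hc
      exact hp.2 j hj c.1 c.2 (by simpa using congrArg Subtype.val hc))
  have hrest : ∀ w x, rest (ConjClasses.mk 1) F0 w x =
      (fun w x : Γ => if w = 1 then FΓ w x else 0) w.1 x.1 := by
    intro w x
    unfold rest
    by_cases hw : w = 1
    · rw [hw]
      rw [if_pos rfl]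
      show _ = if ((1 : Subgroup.closure (S : Set Γ)) : Γ) = 1 then _ else _
      rw [if_pos (by simp)]
    · rw [if_neg]
      · have hw' : ¬ (w : Γ) = 1 := fun h0 => hw (Subtype.ext h0)
        show (0 : R₀) = if (w : Γ) = 1 then FΓ w.1 x.1 else 0
        rw [if_neg hw']
      · rw [ConjClasses.mk_eq_mk_iff_isConj, isConj_one_left]
        exact fun hh => hw hh
  rw [DsumR_res (S := S) a0 b0 F0 FΓ (fun w x => rfl),
    DsumR_res (S := S) a0 b0 (rest (ConjClasses.mk 1) F0)
      (fun w x : Γ => if w = 1 then FΓ w x else 0) hrest] at hmain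
  have hcoe : ∀ G : Γ → Γ → R₀, (DsumR a0 b0 S G : R₀).1 =
      DsumR (cf A.val) (cf (A⁻¹).val) S (fun w x => (G w x).1) := by
    intro G
    unfold DsumR
    have h1 : ∀ (t : Finset (Y (Fin n) S)) (h : Y (Fin n) S → R₀),
        (∑ y ∈ t, h y : R₀).1 = ∑ y ∈ t, (h y).1 := by
      intro t h
      exact map_sum R₀.val h t
    rw [h1]
    rfl
  have h2 := congrArg Subtype.val hmain
  rw [hcoe, hcoe] at h2
  refine h2.trans ?_
  congr 1
  funext w x
  have e1 : (x⁻¹ * w * x = 1) ↔ w = 1 := by
    constructor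
    · intro h
      have h3 : w = x * (x⁻¹ * w * x) * x⁻¹ := by group
      rw [h3, h]
      group
    · rintro rfl
      simp
  show (if w = 1 then FΓ w x else 0 : R₀).1 = if x⁻¹ * w * x = 1 then f (x⁻¹ * w) x else 0
  by_cases hw : w = 1
  · rw [if_pos hw, if_pos (e1.2 hw)]
  · rw [if_neg hw, if_neg (fun h => hw (e1.1 h))]
    rfl


end old

open Finset
open Pool.Agent.Y84.PH (Cen)
open H219.WhC (pairing grpF suppF supp mem_supp)

universe u1 u2

section cls

variable {K : Type u1} [Field K] [CharZero K] {G : Type u2} [Group G] {n : ℕ}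

open Classical in
/-- the part of a cocycle at a class -/
noncomputable def fC (f : G → G → K) (C : ConjClasses G) : G → G → K := fun x y =>
  if ConjClasses.mk (x * y) = C then f x y else 0

theorem fC_coc {f : G → G → K}
    (hf : ∀ x y z : G, f (x * y) z - f x (y * z) + f (z * x) y = 0) (C : ConjClasses G)
    (x y z : G) : fC f C (x * y) z - fC f C x (y * z) + fC f C (z * x) y = 0 := by
  have e1 : ConjClasses.mk (x * y * z) = ConjClasses.mk (x * (y * z)) := by rw [mul_assoc]
  have e2 : ConjClasses.mk (z * x * y) = ConjClasses.mk (x * (y * z)) := by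
    rw [ConjClasses.mk_eq_mk_iff_isConj, isConj_iff]
    exact ⟨z⁻¹, by group⟩
  unfold fC
  rw [e1, e2]
  split_ifs
  · exact hf x y z
  · simp

theorem fC_one {f : G → G → K} (hf1 : ∀ g : G, f 1 g = 0) (C : ConjClasses G) (g : G) :
    fC f C 1 g = 0 := by
  unfold fC
  split_ifs
  · exact hf1 g
  · rfl

/-- only the pairs with product `1` contribute -/
theorem off_one (u v : Matrix (Fin n) (Fin n) (MonoidAlgebra K G)) (huv : u * v = 1)
    (hvu : v * u = 1) (s : Finset K)
    (f : G → G → K) (hs : ∀ x y, f x y ∈ Algebra.adjoin ℤ (s : Set K))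
    (hf : ∀ x y z : G, f (x * y) z - f x (y * z) + f (z * x) y = 0) (hf1 : ∀ g, f 1 g = 0)
    (hG : ∀ g : G, g ≠ 1 → {p : ℕ | p.Prime ∧ ∀ j, 1 ≤ j → ¬ IsConj g (g ^ p ^ j)}.Infinite ∨
      (Cen g ∧ ∃ s' : Finset K, ∀ x y, IsConj (x * y) g →
        f x y ∈ AddSubgroup.closure (s' : Set K))) :
    pairing f v u = pairing (fC f (ConjClasses.mk 1)) v u := by
  classical
  let A : (Matrix (Fin n) (Fin n) (MonoidAlgebra K G))ˣ := ⟨u, v, huv, hvu⟩
  set S : Finset G := suppF A with hS
  have hu : ∀ i j g, (u i j).coeff g ≠ 0 → g ∈ S := fun i j g hg =>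
    Finset.mem_union_left _ (mem_supp _ i j g hg)
  have hv : ∀ i j g, (v i j).coeff g ≠ 0 → g ∈ S :=
    fun i j g hg => Finset.mem_union_right _ (mem_supp _ i j g hg)
  set cs : Finset (ConjClasses G) := insert (ConjClasses.mk 1)
    ((S ×ˢ S).image fun q => ConjClasses.mk (q.1 * q.2)) with hcs
  have h1 : pairing f v u = ∑ C ∈ cs, pairing (fC f C) v u := by
    have h2 : ∀ i j, bl f (v i j) (u j i) = ∑ C ∈ cs, bl (fC f C) (v i j) (u j i) := by
      intro i j
      rw [← bl_sum (fun C => fC f C) cs]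
      apply bl_congr
      intro g hg h hh
      have hg' : g ∈ S := hv i j g (Finsupp.mem_support_iff.1 hg)
      have hh' : h ∈ S := hu j i h (Finsupp.mem_support_iff.1 hh)
      rw [Finset.sum_eq_single (ConjClasses.mk (g * h))]
      · unfold fC
        rw [if_pos rfl]
      · intro C _ hC
        unfold fC
        rw [if_neg (fun hh => hC hh.symm)]
      · intro hne
        exact absurd (Finset.mem_insert_of_mem (Finset.mem_image.2
          ⟨(g, h), Finset.mem_product.2 ⟨hg', hh'⟩, rfl⟩)) hne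
    simp only [pairing_bl, h2]
    calc ∑ i, ∑ j, ∑ C ∈ cs, bl (fC f C) (v i j) (u j i) =
        ∑ i, ∑ C ∈ cs, ∑ j, bl (fC f C) (v i j) (u j i) :=
          Finset.sum_congr rfl (fun i _ => Finset.sum_comm)
      _ = ∑ C ∈ cs, ∑ i, ∑ j, bl (fC f C) (v i j) (u j i) := Finset.sum_comm
  rw [h1, Finset.sum_eq_single (ConjClasses.mk 1)]
  · intro C _ hC
    obtain ⟨g, rfl⟩ := ConjClasses.exists_rep C
    have hg1 : g ≠ 1 := by
      rintro rfl
      exact hC rfl
    rcases hG g hg1 with hinf | ⟨hcen, s', hs'⟩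
    · have hsC : ∀ x y, fC f (ConjClasses.mk g) x y ∈ Algebra.adjoin ℤ (s : Set K) := by
        intro x y
        unfold fC
        split_ifs
        · exact hs x y
        · exact Subalgebra.zero_mem _
      have h3 := vanish_units' A s (fC f (ConjClasses.mk g)) hsC (fC_coc hf _) (fC_one hf1 _) (by
        rintro g' _ _ ⟨x0, hx0⟩
        refine hinf.mono ?_
        rintro p ⟨hp, hpj⟩
        refine ⟨hp, fun j hj c _ hc => ?_⟩
        have h5 : ConjClasses.mk (x0⁻¹ * g' * x0) = ConjClasses.mk g := by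
          by_contra hcon
          apply hx0
          unfold fC
          rw [if_neg hcon]
        have h6 : IsConj g' g := by
          refine IsConj.trans ?_ (ConjClasses.mk_eq_mk_iff_isConj.1 h5)
          exact isConj_iff.2 ⟨x0⁻¹, by group⟩
        have h7 : IsConj g' (g' ^ p ^ j) := isConj_iff.2 ⟨c, hc⟩
        exact hpj j hj (h6.symm.trans (h7.trans (h6.pow _))))
      refine h3.trans ?_
      rw [pairing_bl]
      refine Finset.sum_eq_zero fun i _ => Finset.sum_eq_zero fun j _ => ?_
      refine bl_zero_of (fun x y => ?_) _ _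
      beta_reduce
      split_ifs with h
      · unfold fC
        rw [h, if_neg (fun h' => hC h'.symm)]
      · rfl
    · refine pairing_class (fC_coc hf _) (fC_one hf1 _) hcen ?_ s' ?_ v u huv hvu
      · intro x y hxy
        unfold fC
        rw [if_neg (fun h => hxy (ConjClasses.mk_eq_mk_iff_isConj.1 h))]
      · intro x y
        unfold fC
        split_ifs with h
        · exact hs' x y (ConjClasses.mk_eq_mk_iff_isConj.1 h)
        · exact AddSubgroup.zero_mem _
  · intro hne
    exact absurd (Finset.mem_insert_self _ _) hne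

/-- **Cyclic one-cocycles over fields of characteristic zero** -/
theorem deg_one (u v : Matrix (Fin n) (Fin n) (MonoidAlgebra K G)) (huv : u * v = 1)
    (hvu : v * u = 1) : ∃ γ : G, ∀ H : Subgroup G, H.FG →
      (∀ i j g, (u i j).coeff g ≠ 0 → g ∈ H) → (∀ i j g, (v i j).coeff g ≠ 0 → g ∈ H) →
      ∀ (s : Finset K) (f : G → G → K), (∀ x y : H, f x y ∈ Algebra.adjoin ℤ (s : Set K)) →
      (∀ x y z : G, f (x * y) z - f x (y * z) + f (z * x) y = 0) → (∀ g, f 1 g = 0) →
      (∀ g : H, g ≠ 1 → {p : ℕ | p.Prime ∧ ∀ j, 1 ≤ j → ¬ IsConj g (g ^ p ^ j)}.Infinite ∨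
        (Cen g ∧ ∃ s' : Finset K, ∀ x y : H, IsConj (x * y) g →
          f x y ∈ AddSubgroup.closure (s' : Set K))) →
      pairing f v u = f γ⁻¹ γ := by
  classical
  let A : (Matrix (Fin n) (Fin n) (MonoidAlgebra K G))ˣ := ⟨u, v, huv, hvu⟩
  obtain ⟨γ, hγ⟩ := H219.WhC.exists_gamma A
  refine ⟨γ, fun H hH hHu hHv s f hs hf hf1 hG => ?_⟩
  have hcoc := Pool.Agent.H23R2.isCoc_of_hochschild f hf
  let φ : G →* Multiplicative K :=
    { toFun := fun x => Multiplicative.ofAdd (f x⁻¹ x)
      map_one' := by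
        have h1 := hcoc.one 1
        simp only [inv_one, mul_one] at h1
        rw [inv_one, h1]
        rfl
      map_mul' := by
        intro x y
        have h1 := Pool.Agent.H23R2.coc_one_hom hcoc x y
        simp only [mul_one] at h1
        rw [h1]
        rfl }
  have hφ : ∀ x, (φ x).toAdd = f x⁻¹ x := fun x => rfl
  let j : MonoidAlgebra K H →ₐ[K] MonoidAlgebra K G :=
    MonoidAlgebra.mapDomainAlgHom K K H.subtype
  have hj : Function.Injective j := MonoidAlgebra.mapDomain_injective H.subtype_injective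
  let res : Matrix (Fin n) (Fin n) (MonoidAlgebra K G) →
      Matrix (Fin n) (Fin n) (MonoidAlgebra K H) := fun e =>
    Matrix.of fun a b => MonoidAlgebra.comapDomain H.subtype H.subtype_injective (e a b)
  have hres : ∀ e : Matrix (Fin n) (Fin n) (MonoidAlgebra K G),
      (∀ i j g, (e i j).coeff g ≠ 0 → g ∈ H) → (res e).map j = e := by
    intro e hH
    ext1 a b
    exact Pool.Agent.H290R4.ChernZ.restrict_eq H _ (fun g hg => hH a b g hg)
  have hinv : ∀ a b : Matrix (Fin n) (Fin n) (MonoidAlgebra K H),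
      a.map j * b.map j = 1 → a * b = 1 := by
    intro a b hab
    have h4 : (a * b).map j = (1 : Matrix (Fin n) (Fin n) (MonoidAlgebra K H)).map j := by
      rw [Matrix.map_mul, hab, Matrix.map_one _ (map_zero j) (map_one j)]
    ext1 i i'
    apply hj
    exact congrFun (congrFun h4 i) i'
  have huv' : res u * res v = 1 := hinv _ _ (by rw [hres u hHu, hres v hHv, huv])
  have hvu' : res v * res u = 1 := hinv _ _ (by rw [hres u hHu, hres v hHv, hvu])
  have htr : ∀ F : G → G → K, pairing F v u =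
      pairing (fun x y : H => F x y) (res v) (res u) := by
    intro F
    conv_lhs => rw [← hres u hHu, ← hres v hHv]
    rw [pairing_bl, pairing_bl]
    exact Finset.sum_congr rfl fun i _ => Finset.sum_congr rfl fun l _ =>
      bl_map H.subtype F _ _
  obtain ⟨S0, hS0⟩ := hH
  have hs2 : ∀ h : G, h ∈ H → (φ h).toAdd ∈
      AddSubgroup.closure ((S0.image fun g => (φ g).toAdd : Finset K) : Set K) := by
    intro h hh
    rw [← hS0] at hh
    induction hh using Subgroup.closure_induction with
    | mem x hx =>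
      apply AddSubgroup.subset_closure
      have h1 : (φ x).toAdd ∈ S0.image fun g => (φ g).toAdd :=
        Finset.mem_image_of_mem _ (by exact_mod_cast hx)
      exact_mod_cast h1
    | one =>
      rw [map_one]
      exact AddSubgroup.zero_mem _
    | mul x y _ _ hx hy =>
      rw [map_mul, toAdd_mul]
      exact AddSubgroup.add_mem _ hx hy
    | inv x _ hx =>
      rw [map_inv, toAdd_inv]
      exact AddSubgroup.neg_mem _ hx
  have h1 := off_one (res u) (res v) huv' hvu' s (fun x y : H => f x y) hs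
    (fun x y z => hf x y z) (fun g => hf1 g) hG
  have h2 := off_one (res u) (res v) huv' hvu' s (fun x y : H => H219.WhC.fh φ x y) (by
      intro x y
      unfold H219.WhC.fh
      split_ifs
      · exact hs y⁻¹ y
      · exact Subalgebra.zero_mem _)
    (fun x y z => H219.WhC.fh_hoch φ x y z) (fun g => H219.WhC.fh_one φ g) (fun g hg => by
      rcases hG g hg with h3 | ⟨h3, -⟩
      · exact Or.inl h3
      · refine Or.inr ⟨h3, S0.image fun g => (φ g).toAdd, fun x y _ => ?_⟩
        unfold H219.WhC.fh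
        split_ifs
        · exact hs2 y y.2
        · exact AddSubgroup.zero_mem _)
  have h3 : fC (fun x y : H => f x y) (ConjClasses.mk 1) =
      fC (fun x y : H => H219.WhC.fh φ x y) (ConjClasses.mk 1) := by
    funext x y
    unfold fC
    split_ifs with h
    · rw [ConjClasses.mk_eq_mk_iff_isConj, isConj_one_left] at h
      have h4 : x = y⁻¹ := eq_inv_of_mul_eq_one_left h
      rw [h4]
      unfold H219.WhC.fh
      beta_reduce
      rw [Subgroup.coe_inv, inv_mul_cancel, map_one, if_pos rfl]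
      rfl
    · rfl
  have h4 : pairing (H219.WhC.fh φ) v u = (φ γ).toAdd := hγ φ
  rw [htr f, h1, h3, ← h2, ← htr, h4]
  rfl

end cls

end Pool.Agent.Y84.PK
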