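import Pool.Agent.Y84.PK.S
import Pool.Agent.Y84.PK.Z

/-!
# Odd cycles see an invertible matrix as a group element
-/

set_option autoImplicit false
set_option linter.unusedSectionVars false

namespace Pool.Agent.Y84.PK

open Finset Pool.Agent.H23R2 Pool.Agent.H23R2.Cyc
open Pool.Agent.H23R2.Ch (ex ex_single ex_eq_sum ex_one_single tf tf_apply cut cut_comm
  Idl Dif Hm mul_mem_Idl mul_mem_Idl_pow single_eq_smul pr sec sec_single IsCycle Wa_Idl
  Wa_Idl_pow Ev deg_zero_Ev)
open Pool.Agent.H23R2.Odd (one_symm)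
open Pool.Agent.W647.K1 (mp cl cl_iff cl_comm sum_classes)
open Pool.Agent.Y84.PH (Cen cut_cut)
open H219.WhC (pairing)
open scoped Pointwise

universe u1 u2 u3 u4 u5 u6

section group

variable {G : Type u2} [Group G]

theorem cen_sub (H : Subgroup G) (g : H) (h : Cen (g : G)) : Cen g := by
  intro m hm
  obtain ⟨Q, i1, i2, π, hπ⟩ := h m hm
  let j : Subgroup.centralizer ({g} : Set H) →* Subgroup.centralizer ({(g : G)} : Set G) :=
    { toFun := fun z => ⟨((z : H) : G), by
        rw [Subgroup.mem_centralizer_singleton_iff]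
        exact congrArg Subtype.val (Subgroup.mem_centralizer_singleton_iff.1 z.2)⟩
      map_one' := rfl
      map_mul' := fun _ _ => rfl }
  exact ⟨Q, i1, i2, π.comp j, hπ⟩

theorem no_torsion (hG : ∀ g : G, g ≠ 1 →
      {p : ℕ | p.Prime ∧ ∀ j, 1 ≤ j → ¬ IsConj g (g ^ p ^ j)}.Infinite ∨ Cen g)
    (p : ℕ) (hp : p.Prime) (g : G) (hg : g ^ p = 1) : g = 1 := by
  by_contra hne
  rcases hG g hne with h | h
  · refine h ((Set.finite_singleton p).subset ?_)
    rintro q ⟨hq, hqj⟩
    by_contra hqp
    have hcop : Nat.Coprime q p := (Nat.coprime_primes hq hp).2 hqp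
    refine hqj (Nat.totient p) (Nat.totient_pos.2 hp.pos) ?_
    have h1 : q ^ Nat.totient p ≡ 1 [MOD p] := Nat.ModEq.pow_totient hcop
    have h2 : q ^ Nat.totient p ≡ 1 [MOD orderOf g] :=
      h1.of_dvd (orderOf_dvd_of_pow_eq_one hg)
    have h3 : g ^ q ^ Nat.totient p = g ^ 1 := pow_eq_pow_iff_modEq.2 h2
    rw [h3, pow_one]
  · obtain ⟨Q, i1, i2, π, hπ⟩ := h p hp.ne_zero
    apply hπ
    rw [← map_pow]
    have h1 : (⟨g, Subgroup.mem_centralizer_singleton_iff.2 rfl⟩ :
        Subgroup.centralizer ({g} : Set G)) ^ p = 1 := Subtype.ext hg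
    rw [h1, map_one]

end group

section gamma

variable {K : Type u1} [Field K] [CharZero K] {G : Type u2} [Group G] {d : Type u3} [Fintype d]
  [DecidableEq d]

open Classical in
/-- the cocycle supported at one given by a homomorphism -/
noncomputable def fo (φ : G → ℤ) : G → G → K := fun x y => if x * y = 1 then (φ y : K) else 0

theorem bl_fo (φ : G → ℤ) (hφ : ∀ a b, φ (a * b) = φ a + φ b) (x y : MonoidAlgebra K G) :
    bl (fo (K := K) φ) x y = - ex (k := K) (fun g => y.coeff g⁻¹ * (φ g : K)) x := by
  classical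
  have hinv : ∀ g, φ g⁻¹ = - φ g := by
    intro g
    have h1 := hφ g g⁻¹
    have h2 := hφ 1 1
    rw [mul_one] at h2
    rw [mul_inv_cancel] at h1
    omega
  induction x using MonoidAlgebra.induction_linear with
  | zero => rw [bl_zero_left, map_zero, neg_zero]
  | add x x' hx hx' => rw [bl_add_left, hx, hx', map_add, neg_add]
  | single g b =>
    rw [ex_single]
    induction y using MonoidAlgebra.induction_linear with
    | zero => simp [bl_zero_right]
    | add y y' hy hy' =>
      rw [bl_add_right, hy, hy', MonoidAlgebra.coeff_add, Finsupp.add_apply, add_mul, smul_add,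
        neg_add]
    | single h a =>
      rw [bl_single, MonoidAlgebra.coeff_single, Finsupp.single_apply]
      unfold fo
      by_cases hgh : g * h = 1
      · have h1 : h = g⁻¹ := eq_inv_of_mul_eq_one_right hgh
        rw [if_pos hgh, if_pos h1, h1, hinv]
        push_cast
        rw [smul_eq_mul, smul_eq_mul]
        ring
      · have h1 : ¬ h = g⁻¹ := fun e => hgh (by rw [e, mul_inv_cancel])
        rw [if_neg hgh, if_neg h1, smul_zero, zero_mul, smul_zero, neg_zero]

theorem exists_gamma' [hfg : Group.FG G] (u v : Matrix d d (MonoidAlgebra K G)) (huv : u * v = 1)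
    (hvu : v * u = 1) (hG : ∀ g : G, g ≠ 1 →
      {p : ℕ | p.Prime ∧ ∀ j, 1 ≤ j → ¬ IsConj g (g ^ p ^ j)}.Infinite ∨ Cen g) :
    ∃ γ : G, ∀ φ : G → ℤ, (∀ a b, φ (a * b) = φ a + φ b) →
      lamk (fun g => (φ g : K)) v u = (φ γ⁻¹ : K) := by
  classical
  let e : d ≃ Fin (Fintype.card d) := Fintype.equivFin d
  let u' : Matrix (Fin (Fintype.card d)) (Fin (Fintype.card d)) (MonoidAlgebra K G) :=
    u.submatrix e.symm e.symm
  let v' : Matrix (Fin (Fintype.card d)) (Fin (Fintype.card d)) (MonoidAlgebra K G) :=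
    v.submatrix e.symm e.symm
  have huv' : u' * v' = 1 := by
    change u.submatrix e.symm e.symm * v.submatrix e.symm e.symm = 1
    rw [Matrix.submatrix_mul_equiv, huv, Matrix.submatrix_one_equiv]
  have hvu' : v' * u' = 1 := by
    change v.submatrix e.symm e.symm * u.submatrix e.symm e.symm = 1
    rw [Matrix.submatrix_mul_equiv, hvu, Matrix.submatrix_one_equiv]
  obtain ⟨γ, hγ⟩ := deg_one u' v' huv' hvu'
  refine ⟨γ, fun φ hφ => ?_⟩
  have hφ1 : φ 1 = 0 := by
    have h2 := hφ 1 1
    rw [mul_one] at h2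
    omega
  have hinv : ∀ g, φ g⁻¹ = - φ g := by
    intro g
    have h1 := hφ g g⁻¹
    rw [mul_inv_cancel] at h1
    omega
  have h1 : pairing (fo (K := K) φ) v' u' = - lamk (fun g => (φ g : K)) v u := by
    rw [pairing_bl]
    unfold lamk
    rw [← Equiv.sum_comp e, ← Finset.sum_neg_distrib]
    refine Finset.sum_congr rfl fun i _ => ?_
    rw [← Equiv.sum_comp e, ← Finset.sum_neg_distrib]
    refine Finset.sum_congr rfl fun j _ => ?_
    rw [← bl_fo φ hφ]
    simp [u', v']
  have h2 := hγ ⊤ ((Group.fg_iff_subgroup_fg _).1 (by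
      exact Group.fg_of_surjective (f := (Subgroup.topEquiv (G := G)).symm.toMonoidHom)
        (Subgroup.topEquiv (G := G)).symm.surjective))
    (fun _ _ g _ => Subgroup.mem_top g) (fun _ _ g _ => Subgroup.mem_top g) ∅ (fo (K := K) φ)
    (by
      intro x y
      unfold fo
      split_ifs
      · exact intCast_mem _ _
      · exact Subalgebra.zero_mem _)
    (by
      intro x y z
      unfold fo
      have e1 : (x * y * z = 1) ↔ (x * (y * z) = 1) := by rw [mul_assoc]
      have e2 : (z * x * y = 1) ↔ (x * (y * z) = 1) := by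
        rw [← one_symm, ← mul_assoc, ← mul_assoc]
        constructor
        · intro h
          have h5 : x * y * z = z⁻¹ * (y * z * x)⁻¹⁻¹ * z * 1 := by
            have h6 : x = (y * z)⁻¹ := eq_inv_of_mul_eq_one_right h
            rw [h6]
            group
          have h6 : x = (y * z)⁻¹ := eq_inv_of_mul_eq_one_right h
          rw [h6]
          group
        · intro h
          have h6 : x * y = z⁻¹ := eq_inv_of_mul_eq_one_left h
          have h7 : x = z⁻¹ * y⁻¹ := by rw [← h6]; group
          rw [h7]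
          group
      by_cases h5 : x * (y * z) = 1
      · rw [if_pos (e1.2 h5), if_pos h5, if_pos (e2.2 h5), hφ]
        push_cast
        ring
      · rw [if_neg (fun h => h5 (e1.1 h)), if_neg h5, if_neg (fun h => h5 (e2.1 h))]
        ring)
    (by
      intro g
      unfold fo
      rw [one_mul]
      split_ifs with h
      · rw [h, hφ1, Int.cast_zero]
      · rfl)
    (by
      intro g hg
      rcases hG g (fun h => hg (Subtype.ext h)) with h3 | h3
      · refine Or.inl (h3.mono ?_)
        rintro p ⟨hp, hpj⟩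
        refine ⟨hp, fun j hj hc => hpj j hj ?_⟩
        have h4 := (Subgroup.subtype (⊤ : Subgroup G)).map_isConj hc
        simpa using h4
      · refine Or.inr ⟨cen_sub ⊤ g h3, ∅, fun x y hxy => ?_⟩
        have h4 : ¬ ((x : G) * (y : G) = 1) := by
          intro h5
          have h6 : x * y = 1 := Subtype.ext h5
          rw [h6, isConj_one_right] at hxy
          exact hg hxy
        unfold fo
        rw [if_neg h4]
        exact AddSubgroup.zero_mem _)
  rw [h1] at h2
  have h3 : lamk (fun g => (φ g : K)) v u = - fo (K := K) φ γ⁻¹ γ := by rw [← h2, neg_neg]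
  rw [h3]
  unfold fo
  rw [if_pos (inv_mul_cancel γ), hinv]
  push_cast
  rfl

end gamma

end Pool.Agent.Y84.PK
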