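import Pool.Agent.Y84.PK.T

/-!
# Odd cycles over group algebras with torsion: all classes treated separately
-/

set_option autoImplicit false
set_option linter.unusedSectionVars false

namespace Pool.Agent.Y84.PK

open Finset Pool.Agent.H23R2 Pool.Agent.H23R2.Cyc
open Pool.Agent.H23R2.Ch (ex ex_eq_sum tf tf_apply cut pr sec IsCycle)
open Pool.Agent.W647.K1 (cl cl_iff cl_comm sum_classes)
open Pool.Agent.Y84.PH (Cen cut_cut)

universe u1 u2 u3 u4 u5

section scalar

variable {K : Type u1} [Field K] [CharZero K] {G : Type u2} [Group G]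
  {d : Type u3} [Fintype d] [DecidableEq d] {Ω : Type u4} [Ring Ω] [Algebra K Ω]
  {𝒜 : ℕ → Submodule K Ω} [GradedAlgebra 𝒜] {δ : Ω →ₗ[K] Ω} {ρ : MonoidAlgebra K G →ₐ[K] Ω}

/-- the values of a cycle with product conjugate to `g` lie in `V` -/
def ValIn {M : Type u5} [AddCommGroup M] [Module K M] (N : ℕ) (T : Ω →ₗ[K] M) (δ : Ω →ₗ[K] Ω)
    (ρ : MonoidAlgebra K G →ₐ[K] Ω) (g : G) (V : AddSubgroup M) : Prop :=
  ∀ (a : G) (l : List G), l.length = N → IsConj g (a * l.prod) →
    T (ρ (MonoidAlgebra.single a 1) * (l.map fun b => δ (ρ (MonoidAlgebra.single b 1))).prod) ∈ V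

/-- scalar valued cycles -/
theorem mixed_scalar {T : Ω →ₗ[K] K} (u v : Matrix d d (MonoidAlgebra K G)) (huv : u * v = 1)
    (hvu : v * u = 1) {n : ℕ} (h : IsCycle (2 * n + 1) 𝒜 δ T) (hρ : ∀ a, ρ a ∈ 𝒜 0)
    (hloc : ∀ g : G, ValIn (2 * n + 1) T δ ρ g ⊥ ∨
      ({p : ℕ | p.Prime ∧ ∀ j, 1 ≤ j → ¬ IsConj g (g ^ p ^ j)}.Infinite ∧ ∃ s : Finset K,
        ValIn (2 * n + 1) T δ ρ g
          (Subalgebra.toSubmodule (Algebra.adjoin ℤ (s : Set K))).toAddSubgroup) ∨
      (Cen g ∧ ∃ s' : Finset K, ValIn (2 * n + 1) T δ ρ g (AddSubgroup.closure (s' : Set K)))) :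
    prg n T δ (v.map ρ) (u.map ρ) = 0 := by
  classical
  obtain ⟨τ, hτ, hτ2⟩ := exists_tau h hρ
  have hJ : TrJ K (pr G) n τ := trj_tau h hρ hτ
  have hvalue : ∀ (g : G) (V : AddSubgroup K), ValIn (2 * n + 1) T δ ρ g V →
      ∀ w, cut (pr G) (cl g) τ w ∈ V := by
    intro g V hV w
    unfold cut
    split_ifs with h3
    · rcases hτ2 w with h4 | ⟨x, y, hxy, h4⟩
      · rw [h4]
        exact V.zero_mem
      · rw [h4]
        refine ph_mem h hρ x y V (fun a l hl hal => ?_)
        apply hV a l hl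
        rw [hal, hxy]
        exact ((cl_iff _ _).1 h3).symm
    · exact V.zero_mem
  have hAll : ∀ g : G, tf (cut (pr G) (cl g) τ) ((EE u v) ^ (n + 1) - (EE v u) ^ (n + 1)) = 0 := by
    intro g
    rcases hloc g with h1 | ⟨h1, s, hs⟩ | ⟨h1, s', hs'⟩
    · have h2 : cut (pr G) (cl g) τ = fun _ => 0 := by
        funext w
        have h3 := hvalue g ⊥ h1 w
        rwa [AddSubgroup.mem_bot] at h3
      rw [h2, tf_apply]
      refine Finset.sum_eq_zero fun i _ => ?_
      rw [ex_eq_sum]
      exact Finset.sum_eq_zero fun f _ => smul_zero _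
    · have h2 := class_prime' (τ := cut (pr G) (cl g) τ) (trj_cut hJ (cl g) (cl_comm g)) s
        (fun w => hvalue g _ hs w) u v huv hvu g h1
      rw [cut_cut] at h2
      rw [map_sub]
      exact h2
    · have h2 := field_od n (τ := cut (pr G) (cl g) τ) (trj_cut hJ (cl g) (cl_comm g)) s'
        (hvalue g _ hs') u v huv hvu h1
      rw [cut_cut] at h2
      rw [map_sub, h2, sub_self]
  have h2 := sum_classes (pr G) τ _ hAll
  have h3 := Tm_prg h hρ hτ u v huv
  rw [← h3]
  have h4 : VV n u v * u.map (sec K G) - u.map (sec K G) * VV n u v =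
      (EE u v) ^ (n + 1) - (EE v u) ^ (n + 1) := by
    rw [← one_sub_UV, ← one_sub_VU]
    abel
  rw [← map_sub, h4, h2]

end scalar

section module

variable {K : Type u1} [Field K] [CharZero K] {G : Type u2} [Group G]
  {d : Type u3} [Fintype d] [DecidableEq d] {Ω : Type u4} [Ring Ω] [Algebra K Ω]
  {𝒜 : ℕ → Submodule K Ω} [GradedAlgebra 𝒜] {δ : Ω →ₗ[K] Ω} {ρ : MonoidAlgebra K G →ₐ[K] Ω}
  {M : Type u5} [AddCommGroup M] [Module K M]

/-- cycles with values in a vector space -/
theorem mixed_module {T : Ω →ₗ[K] M} (u v : Matrix d d (MonoidAlgebra K G)) (huv : u * v = 1)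
    (hvu : v * u = 1) {n : ℕ} (h : IsCycle (2 * n + 1) 𝒜 δ T) (hρ : ∀ a, ρ a ∈ 𝒜 0)
    (hloc : ∀ g : G, ValIn (2 * n + 1) T δ ρ g ⊥ ∨
      ({p : ℕ | p.Prime ∧ ∀ j, 1 ≤ j → ¬ IsConj g (g ^ p ^ j)}.Infinite ∧
        ∃ (s : Finset K) (F : Finset M), ValIn (2 * n + 1) T δ ρ g
          (Submodule.span (Algebra.adjoin ℤ (s : Set K)) (F : Set M)).toAddSubgroup) ∨
      (Cen g ∧ ∃ F' : Finset M, ValIn (2 * n + 1) T δ ρ g (AddSubgroup.closure (F' : Set M)))) :
    prg n T δ (v.map ρ) (u.map ρ) = 0 := by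
  classical
  rw [← Module.forall_dual_apply_eq_zero_iff K]
  intro φ
  refine mixed_scalar (T := φ ∘ₗ T) (ρ := ρ) u v huv hvu
    (Pool.Agent.H290R4.Chern.cycle_comp φ h) hρ (fun g => ?_)
  rcases hloc g with h2 | ⟨h2, s, F, hF⟩ | ⟨h2, F', hF'⟩
  · refine Or.inl fun a l hl hal => ?_
    have h3 := h2 a l hl hal
    rw [AddSubgroup.mem_bot] at h3 ⊢
    rw [LinearMap.comp_apply, h3, map_zero]
  · refine Or.inr (Or.inl ⟨h2, s ∪ F.image φ, fun a l hl hal => ?_⟩)
    have h3 : ∀ z ∈ Submodule.span (Algebra.adjoin ℤ (s : Set K)) (F : Set M),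
        φ z ∈ Algebra.adjoin ℤ ((s ∪ F.image φ : Finset K) : Set K) := by
      intro z hz
      induction hz using Submodule.span_induction with
      | mem z hz =>
        apply Algebra.subset_adjoin
        have h3 : φ z ∈ s ∪ F.image φ :=
          Finset.mem_union_right _ (Finset.mem_image_of_mem _ (by exact_mod_cast hz))
        exact_mod_cast h3
      | zero =>
        rw [map_zero]
        exact Subalgebra.zero_mem _
      | add a b _ _ ha hb =>
        rw [map_add]
        exact Subalgebra.add_mem _ ha hb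
      | smul c a _ ha =>
        have h3 : φ (c • a) = (c : K) * φ a := by
          rw [← smul_eq_mul, ← map_smul]
          rfl
        rw [h3]
        refine Subalgebra.mul_mem _ ?_ ha
        refine Algebra.adjoin_mono ?_ c.2
        intro y hy
        simp only [Finset.coe_union]
        exact Or.inl hy
    exact h3 _ (hF a l hl hal)
  · refine Or.inr (Or.inr ⟨h2, F'.image φ, fun a l hl hal => ?_⟩)
    have h3 : ∀ x ∈ AddSubgroup.closure (F' : Set M),
        φ x ∈ AddSubgroup.closure ((F'.image φ : Finset K) : Set K) := by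
      intro x hx
      induction hx using AddSubgroup.closure_induction with
      | mem x hx =>
        apply AddSubgroup.subset_closure
        have : φ x ∈ F'.image φ := Finset.mem_image_of_mem _ (by exact_mod_cast hx)
        exact_mod_cast this
      | zero => rw [map_zero]; exact AddSubgroup.zero_mem _
      | add x y _ _ hx hy => rw [map_add]; exact AddSubgroup.add_mem _ hx hy
      | neg x _ hx => rw [map_neg]; exact AddSubgroup.neg_mem _ hx
    exact h3 _ (hF' a l hl hal)

/-- all conditions only on a subgroup containing the supports -/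
theorem mixed_group {T : Ω →ₗ[K] M} (u v : Matrix d d (MonoidAlgebra K G)) (huv : u * v = 1)
    (hvu : v * u = 1) (H : Subgroup G) (hHu : ∀ i j g, (u i j).coeff g ≠ 0 → g ∈ H)
    (hHv : ∀ i j g, (v i j).coeff g ≠ 0 → g ∈ H) {n : ℕ}
    (h : IsCycle (2 * n + 1) 𝒜 δ T) (hρ : ∀ a, ρ a ∈ 𝒜 0)
    (VI : H → AddSubgroup M → Prop) (hVI : ∀ g V, VI g V ↔ ∀ (a : H) (l : List H),
      l.length = 2 * n + 1 → IsConj g (a * l.prod) →
        T (ρ (MonoidAlgebra.single (a : G) 1) *
          (l.map fun b : H => δ (ρ (MonoidAlgebra.single (b : G) 1))).prod) ∈ V)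
    (hloc : ∀ g : H, VI g ⊥ ∨
      ({p : ℕ | p.Prime ∧ ∀ j, 1 ≤ j → ¬ IsConj g (g ^ p ^ j)}.Infinite ∧
        ∃ (s : Finset K) (F : Finset M), VI g
          (Submodule.span (Algebra.adjoin ℤ (s : Set K)) (F : Set M)).toAddSubgroup) ∨
      (Cen g ∧ ∃ F' : Finset M, VI g (AddSubgroup.closure (F' : Set M)))) :
    prg n T δ (v.map ρ) (u.map ρ) = 0 := by
  classical
  let j : MonoidAlgebra K H →ₐ[K] MonoidAlgebra K G :=
    MonoidAlgebra.mapDomainAlgHom K K H.subtype
  have hj : Function.Injective j := MonoidAlgebra.mapDomain_injective H.subtype_injective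
  let res : Matrix d d (MonoidAlgebra K G) → Matrix d d (MonoidAlgebra K H) := fun e =>
    Matrix.of fun a b => MonoidAlgebra.comapDomain H.subtype H.subtype_injective (e a b)
  have hres : ∀ e : Matrix d d (MonoidAlgebra K G), (∀ i j g, (e i j).coeff g ≠ 0 → g ∈ H) →
      (res e).map j = e := by
    intro e hH
    ext1 a b
    exact Pool.Agent.H290R4.ChernZ.restrict_eq H _ (fun g hg => hH a b g hg)
  have hinv : ∀ a b : Matrix d d (MonoidAlgebra K H), a.map j * b.map j = 1 → a * b = 1 := by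
    intro a b hab
    have h4 : (a * b).map j = (1 : Matrix d d (MonoidAlgebra K H)).map j := by
      rw [Matrix.map_mul, hab, Matrix.map_one _ (map_zero j) (map_one j)]
    ext1 i i'
    apply hj
    exact congrFun (congrFun h4 i) i'
  have h3 : ∀ x : H, (ρ.comp j) (MonoidAlgebra.single x 1) =
      ρ (MonoidAlgebra.single (x : G) 1) := by
    intro x
    simp [j]
  have h6 : ∀ l : List H, (l.map fun b => δ ((ρ.comp j) (MonoidAlgebra.single b 1))) =
      (l.map fun b : H => δ (ρ (MonoidAlgebra.single (b : G) 1))) := by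
    intro l
    refine List.map_congr_left fun b _ => ?_
    rw [h3]
  have h8 : ∀ g V, VI g V → ValIn (2 * n + 1) T δ (ρ.comp j) g V := by
    intro g V hV a l hl hal
    rw [h3, h6]
    exact (hVI g V).1 hV a l hl hal
  have key := mixed_module (G := H) (ρ := ρ.comp j) (T := T) (res u) (res v)
    (hinv _ _ (by rw [hres u hHu, hres v hHv, huv]))
    (hinv _ _ (by rw [hres u hHu, hres v hHv, hvu])) h (fun a => hρ _)
    (fun g => by
      rcases hloc g with h7 | ⟨h7, s, F, hF⟩ | ⟨h7, F', hF'⟩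
      · exact Or.inl (h8 g _ h7)
      · exact Or.inr (Or.inl ⟨h7, s, F, h8 g _ hF⟩)
      · exact Or.inr (Or.inr ⟨h7, F', h8 g _ hF'⟩))
  have h2 : ∀ e : Matrix d d (MonoidAlgebra K G), (∀ i j g, (e i j).coeff g ≠ 0 → g ∈ H) →
      (res e).map (ρ.comp j) = e.map ρ := by
    intro e hH
    conv_rhs => rw [← hres e hH]
    ext1 a b
    simp
  rw [h2 u hHu, h2 v hHv] at key
  exact key

end module

section transfer

variable {G : Type u2} [Group G] {Γ : Type u2} [Group Γ]

/-- finite quotients of the centraliser pull back along homomorphisms -/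
theorem cen_hom (f : G →* Γ) (g : G) (h : Cen (f g)) : Cen g := by
  intro m hm
  obtain ⟨Q, i1, i2, π, hπ⟩ := h m hm
  let j : Subgroup.centralizer ({g} : Set G) →* Subgroup.centralizer ({f g} : Set Γ) :=
    { toFun := fun z => ⟨f (z : G), by
        rw [Subgroup.mem_centralizer_singleton_iff]
        have h1 := Subgroup.mem_centralizer_singleton_iff.1 z.2
        have h2 := congrArg f h1
        rwa [map_mul, map_mul] at h2⟩
      map_one' := Subtype.ext (map_one f)
      map_mul' := fun _ _ => Subtype.ext (map_mul f _ _) }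
  exact ⟨Q, i1, i2, π.comp j, hπ⟩

end transfer

end Pool.Agent.Y84.PK
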