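import Pool.Agent.Y84.PK.W
import Pool.Agent.H219.WhC.Det

/-!
# Cyclic one-cocycles over fields of characteristic zero: classes with enough finite quotients of the
centraliser
-/

set_option autoImplicit false
set_option linter.unusedSectionVars false

namespace Pool.Agent.Y84.PK

open Finset Pool.Agent.H23R2.Ch
open Pool.Agent.Y84.PH (Cen cut_cut)
open Pool.Agent.W647.K1 (cl cl_iff cl_comm)
open H219.WhC (pairing)

universe u1 u2

section bil

variable {K : Type*} [CommRing K] {G : Type*} [Group G] {n : ℕ}

/-- the bilinear extension -/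
noncomputable def bl (f : G → G → K) (x y : MonoidAlgebra K G) : K :=
  x.coeff.sum fun g b => y.coeff.sum fun h a => (b * a) • f g h

theorem bl_add_left (f : G → G → K) (x x' y : MonoidAlgebra K G) :
    bl f (x + x') y = bl f x y + bl f x' y := by
  unfold bl
  rw [MonoidAlgebra.coeff_add]
  refine Finsupp.sum_add_index' ?_ ?_
  · intro g; simp
  · intro g β β'
    simp only [Finsupp.sum]
    rw [← Finset.sum_add_distrib]
    apply Finset.sum_congr rfl
    intro h _
    rw [add_mul, add_smul]

theorem bl_add_right (f : G → G → K) (x y y' : MonoidAlgebra K G) :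
    bl f x (y + y') = bl f x y + bl f x y' := by
  unfold bl
  rw [MonoidAlgebra.coeff_add]
  have h1 : ∀ g b, ((y.coeff + y'.coeff).sum fun h a => (b * a) • f g h) =
      (y.coeff.sum fun h a => (b * a) • f g h) + (y'.coeff.sum fun h a => (b * a) • f g h) := by
    intro g b
    refine Finsupp.sum_add_index' ?_ ?_
    · intro h; simp
    · intro h α α'
      rw [mul_add, add_smul]
  simp only [h1]
  exact Finsupp.sum_add

theorem bl_zero_left (f : G → G → K) (y : MonoidAlgebra K G) : bl f 0 y = 0 := by
  have h := bl_add_left f 0 0 y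
  rw [add_zero] at h
  exact add_eq_left.1 h.symm

theorem bl_zero_right (f : G → G → K) (x : MonoidAlgebra K G) : bl f x 0 = 0 := by
  have h := bl_add_right f x 0 0
  rw [add_zero] at h
  exact add_eq_left.1 h.symm

theorem bl_single (f : G → G → K) (g h : G) (b a : K) :
    bl f (MonoidAlgebra.single g b) (MonoidAlgebra.single h a) = (b * a) • f g h := by
  unfold bl
  rw [MonoidAlgebra.coeff_single, MonoidAlgebra.coeff_single, Finsupp.sum_single_index,
    Finsupp.sum_single_index (by simp)]
  rw [Finsupp.sum_single_index (by simp)]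
  simp

theorem pairing_bl (f : G → G → K) (v u : Matrix (Fin n) (Fin n) (MonoidAlgebra K G)) :
    pairing f v u = ∑ i, ∑ j, bl f (v i j) (u j i) := rfl

theorem bl_sum (f : ConjClasses G → G → G → K) (s : Finset (ConjClasses G))
    (x y : MonoidAlgebra K G) :
    bl (fun g h => ∑ C ∈ s, f C g h) x y = ∑ C ∈ s, bl (f C) x y := by
  induction x using MonoidAlgebra.induction_linear with
  | zero => simp only [bl_zero_left, Finset.sum_const_zero]
  | add x x' hx hx' => simp only [bl_add_left, Finset.sum_add_distrib, hx, hx']
  | single g b =>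
    induction y using MonoidAlgebra.induction_linear with
    | zero => simp only [bl_zero_right, Finset.sum_const_zero]
    | add y y' hy hy' => simp only [bl_add_right, Finset.sum_add_distrib, hy, hy']
    | single h a =>
      simp only [bl_single]
      rw [Finset.smul_sum]

theorem bl_congr {f f' : G → G → K} {x y : MonoidAlgebra K G}
    (h : ∀ g ∈ x.coeff.support, ∀ h ∈ y.coeff.support, f g h = f' g h) : bl f x y = bl f' x y := by
  unfold bl Finsupp.sum
  exact Finset.sum_congr rfl fun g hg => Finset.sum_congr rfl fun h' hh => by beta_reduce; rw [h g hg h' hh]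

theorem bl_zero_of {f : G → G → K} (h : ∀ x y, f x y = 0) (x y : MonoidAlgebra K G) :
    bl f x y = 0 := by
  unfold bl Finsupp.sum
  refine Finset.sum_eq_zero fun g _ => Finset.sum_eq_zero fun g' _ => ?_
  beta_reduce
  rw [h, smul_zero]

theorem bl_map {G' : Type*} [Group G'] (j : G →* G') (f : G' → G' → K) (x y : MonoidAlgebra K G) :
    bl f (MonoidAlgebra.mapDomainAlgHom K K j x) (MonoidAlgebra.mapDomainAlgHom K K j y) =
      bl (fun g h => f (j g) (j h)) x y := by
  induction x using MonoidAlgebra.induction_linear with
  | zero => simp only [map_zero, bl_zero_left]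
  | add x x' hx hx' => simp only [map_add, bl_add_left, hx, hx']
  | single g b =>
    induction y using MonoidAlgebra.induction_linear with
    | zero => simp only [map_zero, bl_zero_right]
    | add y y' hy hy' => simp only [map_add, bl_add_right, hy, hy']
    | single h a =>
      simp [bl_single]

end bil

section one

variable {K : Type u1} [Field K] [CharZero K] {G : Type u2} [Group G] {n : ℕ}

/-- **Degree one**: a cocycle supported at a class with enough finite quotients of the centraliser -/
theorem pairing_class {f : G → G → K}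
    (hf : ∀ x y z : G, f (x * y) z - f x (y * z) + f (z * x) y = 0) (hf1 : ∀ g : G, f 1 g = 0)
    {g : G} (hg : Cen g) (hsupp : ∀ x y, ¬ IsConj (x * y) g → f x y = 0) (s : Finset K)
    (hs : ∀ x y, f x y ∈ AddSubgroup.closure (s : Set K))
    (v u : Matrix (Fin n) (Fin n) (MonoidAlgebra K G)) (huv : u * v = 1) (hvu : v * u = 1) :
    pairing f v u = 0 := by
  classical
  have happ : ∀ a b : List G, pr G (FreeMonoid.ofList (a ++ b)) =
      pr G (FreeMonoid.ofList a) * pr G (FreeMonoid.ofList b) :=
    fun a b => map_mul (pr G) (FreeMonoid.ofList a) (FreeMonoid.ofList b)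
  obtain ⟨t, ht, ht2⟩ := exists_pot' (fun x y : List G => f (pr G (FreeMonoid.ofList x))
    (pr G (FreeMonoid.ofList y))) (fun x y z => by
      simp only [happ]
      exact hf _ _ _) (fun y => by
        have h1 : pr G (FreeMonoid.ofList []) = 1 := map_one _
        rw [h1]
        exact hf1 _) (by
        intro n x hn hx
        rw [nsmul_eq_mul] at hx
        rcases mul_eq_zero.1 hx with h1 | h1
        · exact absurd (by exact_mod_cast h1) hn
        · exact h1)
  let τ : FreeMonoid G → K := fun w => t (FreeMonoid.toList w)
  have hτ : ∀ x y : FreeMonoid G, τ (x * y) - τ (y * x) = f (pr G x) (pr G y) :=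
    fun x y => ht (FreeMonoid.toList x) (FreeMonoid.toList y)
  have hτ2 : ∀ w, τ w = 0 ∨ ∃ x y : FreeMonoid G, x * y = w ∧ τ w = f (pr G x) (pr G y) := by
    intro w
    rcases ht2 (FreeMonoid.toList w) with h1 | ⟨x, y, hxy, h1⟩
    · exact Or.inl h1
    · exact Or.inr ⟨FreeMonoid.ofList x, FreeMonoid.ofList y, hxy, h1⟩
  have hJ : TrJ K (pr G) 0 τ := by
    intro y x hx
    have h1 : (fun w => τ (y * w) - τ (w * y)) = fun w => f (pr G y) (pr G w) := by
      funext w
      exact hτ y w
    rw [h1]
    rw [zero_add, pow_one] at hx
    have h2 : Set.EqOn (ex (k := K) (fun w => f (pr G y) (pr G w)))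
        (0 : MonoidAlgebra K (FreeMonoid G) →ₗ[K] K) (Dif K (pr G)) := by
      rintro _ ⟨a, b, hab, rfl⟩
      rw [map_sub, ex_one_single, ex_one_single, hab, sub_self]
      rfl
    exact LinearMap.eqOn_span h2 hx
  have hV : ∀ w, τ w ∈ AddSubgroup.closure (s : Set K) := by
    intro w
    rcases hτ2 w with h1 | ⟨x, y, -, h1⟩
    · rw [h1]
      exact AddSubgroup.zero_mem _
    · rw [h1]
      exact hs _ _
  have hcut : cut (pr G) (cl g) τ = τ := by
    funext w
    unfold cut
    split_ifs with h3
    · rfl
    · rcases hτ2 w with h1 | ⟨x, y, hxy, h1⟩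
      · exact h1.symm
      · rw [h1, hsupp]
        intro h4
        apply h3
        rw [← hxy, map_mul]
        exact (cl_iff _ _).2 h4
  have h1 := field_od 0 hJ s hV u v huv hvu hg
  rw [hcut, ← one_sub_UV, ← one_sub_VU, map_sub, map_sub] at h1
  have h2 : VV 0 u v = v.map (sec K G) := by
    unfold VV
    simp
  rw [h2] at h1
  have h3 : ∀ x y : MonoidAlgebra K G, ex (k := K) τ (sec K G x * sec K G y) -
      ex (k := K) τ (sec K G y * sec K G x) = bl f x y := by
    intro x y
    induction x using MonoidAlgebra.induction_linear with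
    | zero => simp [bl_zero_left]
    | add x x' hx hx' =>
      rw [map_add, add_mul, mul_add, map_add, map_add, bl_add_left, ← hx, ← hx']
      abel
    | single a r =>
      induction y using MonoidAlgebra.induction_linear with
      | zero => simp [bl_zero_right]
      | add y y' hy hy' =>
        rw [map_add, add_mul, mul_add, map_add, map_add, bl_add_right, ← hy, ← hy']
        abel
      | single b r' =>
        rw [sec_single, sec_single, MonoidAlgebra.single_mul_single,
          MonoidAlgebra.single_mul_single, ex_single, ex_single, bl_single, mul_comm r' r,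
          ← smul_sub, hτ]
        simp [Pool.Agent.H23R2.Ch.pr]
  have h4 : tf τ (v.map (sec K G) * u.map (sec K G)) -
      tf τ (u.map (sec K G) * v.map (sec K G)) = pairing f v u := by
    rw [pairing_bl, tf_apply, tf_apply]
    simp only [Matrix.mul_apply, map_sum, Matrix.map_apply]
    have h5 : ∑ i, ∑ j, ex (k := K) τ (sec K G (u i j) * sec K G (v j i)) =
        ∑ i, ∑ j, ex (k := K) τ (sec K G (u j i) * sec K G (v i j)) := Finset.sum_comm
    rw [h5, ← Finset.sum_sub_distrib]
    refine Finset.sum_congr rfl fun i _ => ?_
    rw [← Finset.sum_sub_distrib]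
    exact Finset.sum_congr rfl fun j _ => h3 _ _
  rw [← h4]
  linear_combination h1

end one

end Pool.Agent.Y84.PK
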